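import Pool.Agent.Lib.H98Z.S3

/-!
# H36L, file L2: in a maximal plane set two adjacent vertices do not both have degree two

[L2] of helper30 (MP_33911d_co, branch I). `R` a maximal plane set of edges of `W`, `4 ≤ |W|`. If `xy ∈ R`, and
`x` has no `R`-neighbour besides `y, u`, and `y` none besides `x, v`: contradiction.

PROOF. `V2` for `W - y` and `x` (past `R` without the stars of `x`, `y`): `x` sees some `z ≠ u`. `xz ∉ R`, so it
crosses `yv`. `V2` for `W` and `y` (past `R` without the star of `y`, with `xz`): `y` sees two vertices, by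
maximality they are `x` and `v`, but `yv` crosses `xz`.
-/

set_option autoImplicit false
set_option linter.unusedSectionVars false

namespace H36L

open Finset H98P H98Z

variable {V : Type*} [Fintype V] [DecidableEq V]

/-- `R` is a maximal plane set of edges of `W`. -/
def MaxP (cross : Sym2 V → Sym2 V → Prop) (W : Finset V) (R : Finset (Sym2 V)) : Prop :=
  R ⊆ LW W ∧ Plane cross R ∧ ∀ e ∈ LW W, (∀ f ∈ R, ¬ cross e f) → e ∈ R

/-- Every plane set lies in a maximal one. -/
theorem exists_maxP {cross : Sym2 V → Sym2 V → Prop} (hsymm : ∀ e f, cross e f → cross f e)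
    (hirr : ∀ e, ¬ cross e e) {W : Finset V} {F : Finset (Sym2 V)} (hF : F ⊆ LW W)
    (hFp : Plane cross F) : ∃ R, F ⊆ R ∧ MaxP cross W R := by
  classical
  obtain ⟨R, hR, hRmax⟩ := ((LW W).powerset.filter fun R => F ⊆ R ∧ Plane cross R).exists_max_image
    (fun R => R.card) ⟨F, mem_filter.2 ⟨mem_powerset.2 hF, Subset.refl F, hFp⟩⟩
  rw [mem_filter, mem_powerset] at hR
  refine ⟨R, hR.2.1, hR.1, hR.2.2, fun e he hc => ?_⟩
  by_contra heR
  have h1 := hRmax (insert e R) (mem_filter.2 ⟨mem_powerset.2 (insert_subset he hR.1),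
    hR.2.1.trans (subset_insert _ _), ?_⟩)
  · rw [card_insert_of_notMem heR] at h1
    omega
  · intro a ha b hb
    rw [mem_insert] at ha hb
    rcases ha with rfl | ha
    · rcases hb with rfl | hb
      · exact hirr _
      · exact hc b hb
    · rcases hb with rfl | hb
      · exact fun h => hc a ha (hsymm _ _ h)
      · exact hR.2.2 a ha b hb

/-- A vertex of a maximal plane set is adjacent to everything it sees past the rest. -/
theorem maxP_sees {cross : Sym2 V → Sym2 V → Prop}
    (hadj : ∀ a b c, ¬ cross s(a, b) s(a, c)) {W : Finset V} {R : Finset (Sym2 V)}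
    (hR : MaxP cross W R) {p z : V} (hp : p ∈ W) (hz : z ∈ W.erase p)
    (h : ∀ f ∈ R.filter fun f => p ∉ f, ¬ cross s(p, z) f) : s(p, z) ∈ R := by
  refine hR.2.2 _ (mem_LW.2 ⟨hp, (mem_erase.1 hz).2, Ne.symm (mem_erase.1 hz).1⟩) fun f hf => ?_
  by_cases hpf : p ∈ f
  · obtain ⟨a, rfl⟩ := hpf
    exact hadj p z a
  · exact h f (mem_filter.2 ⟨hf, hpf⟩)

/-- Every vertex of a maximal plane set has two neighbours. -/
theorem maxP_two {cross : Sym2 V → Sym2 V → Prop}
    (hadj : ∀ a b c, ¬ cross s(a, b) s(a, c)) {W : Finset V} {R : Finset (Sym2 V)}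
    (hR : MaxP cross W R) {p : V} (hp : p ∈ W) (hV : V2 cross W p) :
    ∃ z z', z ≠ z' ∧ s(p, z) ∈ R ∧ s(p, z') ∈ R := by
  obtain ⟨z, hz, z', hz', hne, h1, h2⟩ := hV (R.filter fun f => p ∉ f) (by
    intro e he
    obtain ⟨h3, h4⟩ := mem_filter.1 he
    have h5 := hR.1 h3
    induction e with
    | _ a b =>
      rw [mem_LW] at h5 ⊢
      rw [Sym2.mem_iff, not_or] at h4
      exact ⟨mem_erase.2 ⟨Ne.symm h4.1, h5.1⟩, mem_erase.2 ⟨Ne.symm h4.2, h5.2.1⟩, h5.2.2⟩)
    (plane_sub (filter_subset _ _) hR.2.1)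
  exact ⟨z, z', hne, maxP_sees hadj hR hp hz h1, maxP_sees hadj hR hp hz' h2⟩

/-- [L2] Two adjacent vertices of a maximal plane set do not both have degree two. -/
theorem two_two {cross : Sym2 V → Sym2 V → Prop} (hsymm : ∀ e f, cross e f → cross f e)
    (hadj : ∀ a b c, ¬ cross s(a, b) s(a, c)) {W : Finset V} {R : Finset (Sym2 V)}
    (hR : MaxP cross W R) (h4 : 4 ≤ W.card)
    (hV : ∀ W' ⊆ W, 3 ≤ W'.card → ∀ p ∈ W', V2 cross W' p) {x y u v : V}
    (hxy : s(x, y) ∈ R) (hx : ∀ z, s(x, z) ∈ R → z = y ∨ z = u)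
    (hy : ∀ z, s(y, z) ∈ R → z = x ∨ z = v) : False := by
  have hxyW := mem_LW.1 (hR.1 hxy)
  have hxW : x ∈ W := hxyW.1
  have hyW : y ∈ W := hxyW.2.1
  have hne : x ≠ y := hxyW.2.2
  -- the rays of `x` past `R` without the stars of `x` and `y`
  obtain ⟨z, hz, z', hz', hzz, h1, h2⟩ := hV (W.erase y) (erase_subset _ _)
    (by rw [card_erase_of_mem hyW]; omega) x (mem_erase.2 ⟨hne, hxW⟩)
    (R.filter fun f => x ∉ f ∧ y ∉ f) (by
      intro e he
      obtain ⟨h5, h6, h7⟩ := mem_filter.1 he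
      have h8 := hR.1 h5
      induction e with
      | _ a b =>
        rw [mem_LW] at h8 ⊢
        rw [Sym2.mem_iff, not_or] at h6 h7
        exact ⟨mem_erase.2 ⟨Ne.symm h6.1, mem_erase.2 ⟨Ne.symm h7.1, h8.1⟩⟩,
          mem_erase.2 ⟨Ne.symm h6.2, mem_erase.2 ⟨Ne.symm h7.2, h8.2.1⟩⟩, h8.2.2⟩)
    (plane_sub (filter_subset _ _) hR.2.1)
  -- one of them is not `u`
  have key : ∀ w ∈ (W.erase y).erase x, w ≠ u →
      (∀ f ∈ R.filter fun f => x ∉ f ∧ y ∉ f, ¬ cross s(x, w) f) → False := by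
    intro w hw hwu hwR
    obtain ⟨hwx, hw2⟩ := mem_erase.1 hw
    obtain ⟨hwy, hwW⟩ := mem_erase.1 hw2
    -- past `R` without the star of `y`, with `xw`
    obtain ⟨t, ht, t', ht', htt, h5, h6⟩ := hV W (Subset.refl W) (by omega) y hyW
      (insert s(x, w) (R.filter fun f => y ∉ f)) (by
        intro e he
        rcases mem_insert.1 he with rfl | he
        · exact mem_LW.2 ⟨mem_erase.2 ⟨hne, hxW⟩, mem_erase.2 ⟨hwy, hwW⟩, Ne.symm hwx⟩
        · obtain ⟨h7, h8⟩ := mem_filter.1 he
          have h9 := hR.1 h7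
          induction e with
          | _ a b =>
            rw [mem_LW] at h9 ⊢
            rw [Sym2.mem_iff, not_or] at h8
            exact ⟨mem_erase.2 ⟨Ne.symm h8.1, h9.1⟩, mem_erase.2 ⟨Ne.symm h8.2, h9.2.1⟩, h9.2.2⟩)
      (by
        have hw1 : ∀ f ∈ R.filter fun f => y ∉ f, ¬ cross s(x, w) f := by
          intro f hf
          obtain ⟨h7, h8⟩ := mem_filter.1 hf
          by_cases hxf : x ∈ f
          · obtain ⟨a, rfl⟩ := hxf
            exact hadj x w a
          · exact hwR f (mem_filter.2 ⟨h7, hxf, h8⟩)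
        intro a ha b hb
        rcases mem_insert.1 ha with rfl | ha
        · rcases mem_insert.1 hb with rfl | hb
          · exact hadj x w w
          · exact hw1 b hb
        · rcases mem_insert.1 hb with rfl | hb
          · exact fun h => hw1 a ha (hsymm _ _ h)
          · exact hR.2.1 a (mem_filter.1 ha).1 b (mem_filter.1 hb).1)
    have h7 := maxP_sees hadj hR hyW ht fun f hf => h5 f (mem_insert_of_mem hf)
    have h8 := maxP_sees hadj hR hyW ht' fun f hf => h6 f (mem_insert_of_mem hf)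
    have h9 : ¬ cross s(y, v) s(x, w) := by
      rcases hy t h7 with rfl | rfl
      · rcases hy t' h8 with rfl | rfl
        · exact absurd rfl htt
        · exact h6 _ (mem_insert_self _ _)
      · exact h5 _ (mem_insert_self _ _)
    -- so `xw` misses `R`
    have h10 : s(x, w) ∈ R := by
      refine maxP_sees hadj hR hxW (mem_erase.2 ⟨hwx, hwW⟩) fun f hf => ?_
      obtain ⟨h11, h12⟩ := mem_filter.1 hf
      by_cases hyf : y ∈ f
      · obtain ⟨a, rfl⟩ := hyf
        rcases hy a h11 with rfl | rfl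
        · exact absurd (Sym2.mem_mk_right _ _) h12
        · exact fun h => h9 (hsymm _ _ h)
      · exact hwR f (mem_filter.2 ⟨h11, h12, hyf⟩)
    rcases hx w h10 with rfl | rfl
    · exact hwy rfl
    · exact hwu rfl
  by_cases hzu : z = u
  · exact key z' hz' (fun h => hzz (hzu.trans h.symm)) h2
  · exact key z hz hzu h1

end H36L
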