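import Pool.Agent.Lib.H36L.NK

/-!
# H36L, file NK2: the constant `DD`
-/

set_option autoImplicit false
set_option linter.unusedSectionVars false
set_option linter.unusedVariables false

namespace H36L

open H53P H30P H10S Finset

variable {V : Type*} [DecidableEq V] {T : Table V} {w : ℕ → V} {p : ℕ} {A B : V}

/-- side in the room plus side in the polygon -/
def DD (T : Table V) (w : ℕ → V) (p : ℕ) (A B : V) (E : Finset (Sym2 V)) (t : ℕ) : ZMod 2 :=
  rs T w p A B (w t) + pc T E (w t) B

/-- the side of `w p` -/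
theorem rs_top (h : Room T w p A B) : rs T w p A B (w p) = pc T (re w p) (w p) B := by
  unfold rs
  rw [inn_z h.crs, z2_false, add_zero]

/-- the small triangle at `w p` -/
theorem inn_last (h : Room T w p A B) {s : V} (h1 : T.X (w 0) B (w p) s = false) (s0 : s ≠ w 0) (sp : s ≠ w p)
    (sA : s ≠ A) (sB : s ≠ B) : z2 (inn T (w 0) B (w p) A s) = al T (w p) A (w 0) s B := by
  obtain ⟨_, pA, w0p, w0A, Bp, BA⟩ := T.ne _ _ _ _ h.crs
  have h2 := sec (T := T) (x := w 0) (u := B) (y := w p) (v := A) (a := s) (b := B) h.crs h1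
    (xa4 T _ _ _) sp Bp s0 (h.offB 0 (by omega)).symm sA BA sB
  rw [inn_u, z2_false, add_zero] at h2
  rw [← h2, al4, al1]

namespace Ext

variable (h : Ext T w p A B)

include h

theorem rpc0 {t : ℕ} (t0 : 0 < t) (tp : t + 1 < p) :
    pc T (re w p) (w t) (w (t + 1)) = z2 (inn T (w 0) B (w p) A (w t)) + z2 (inn T (w 0) B (w p) A (w (t + 1))) := by
  have hR := h.room
  rw [hR.rpc, asum_unc (c := w) (i := 0) (j := p) (fun k _ hk => h.pl (by omega) (by omega)), zero_add]
  exact hR.rcl (h.ne (by omega) (by omega) (by omega)) (h.ne (by omega) (by omega) (by omega))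
    (h.ne (by omega) (by omega) (by omega)) (h.ne (by omega) (by omega) (by omega))
    (h.ne (by omega) (by omega) (by omega)) (hR.unc t (by omega)) (hR.und t (by omega))

/-- the difference formula -/
theorem dd {E : Finset (Sym2 V)} (hE : Clo E) (o2 : Off E B) (l2 : Lpl E) {t : ℕ} (t0 : 0 < t)
    (tp : t + 1 ≤ p) {a2 b2 : V} (x2 : Nb E (w t) (w (t + 1)) a2) (y2 : Nb E (w (t + 1)) b2 (w t))
    (hz : pc T E (w t) (w (t + 1)) = 0) :
    DD T w p A B E t + DD T w p A B E (t + 1) =
      al T (w t) (w (t - 1)) a2 (w (t + 1)) B + al T (w (t + 1)) (w (t + 2)) b2 (w t) B := by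
  have hR := h.room
  have nb1 := hR.rnb t0 (by omega : t < p)
  by_cases h1 : t + 1 = p
  · subst h1
    have nb2 : Nb (re w (t + 1)) (w (t + 1)) (w 0) (w t) := by
      have h3 := hR.rper.nb (t + 1)
      rw [re_eq]
      rw [wc_of le_rfl, wc_top, show t + 1 + (t + 1 + 1) - 1 = t + (t + 1 + 1) by omega, hR.rper.per,
        wc_of (by omega)] at h3
      exact h3
    have e1 := dl hR.rclo hE nb1 nb2 x2 y2 (h.ne (by omega) (by omega) (by omega)) (hR.roff hR.offB) o2
      hR.rlpl l2 (T := T)
    have e2 : pc T (re w (t + 1)) (w t) (w (t + 1)) = 0 := by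
      rw [hR.rpc, asum_unc (c := w) (i := 0) (j := t + 1) (fun k _ hk => h.pl (by omega) (by omega)), zero_add,
        x4_adj3]
    have e3 := inn_last hR (s := w t) (by rw [T.xs2 _ _ (w (t + 1)) (w t)]; exact hR.unc t (by omega))
      (h.ne (by omega) (by omega) (by omega)) (h.ne (by omega) (by omega) (by omega))
      (hR.offA t (by omega)) (hR.offB t (by omega))
    have b2x : b2 ≠ w t := y2.ne
    have b2B : b2 ≠ B := fun h2 => o2 (w (t + 1)) (by rw [Sym2.eq_swap]; exact h2 ▸ y2.m1)
    have b2y : b2 ≠ w (t + 1) := fun h2 => l2 _ (by have := y2.m1; rwa [h2] at this)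
    have e4 := al_add (T := T) (u := w (t + 1)) (a := w t) (b := B) (y := b2) (z := A) (w := w 0)
      (h.ne (by omega) (by omega) (by omega)) (hR.offB _ le_rfl) (hR.offB t (by omega)) b2y b2x b2B
      (hR.offA _ le_rfl).symm (hR.offA t (by omega)).symm (T.ne _ _ _ _ hR.crs).2.2.2.2.2.symm
      (h.ne (by omega) (by omega) (by omega)) (h.ne (by omega) (by omega) (by omega)) (hR.offB 0 (by omega))
    rw [al4 T _ (w t) B b2 (w 0), al4 T _ (w t) B A (w 0), al4 T _ (w t) B b2 A, al1 T _ b2 (w 0),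
      al1 T _ b2 A] at e4
    have e5 : w (t + 2) = A := h.top
    unfold DD
    rw [rs_top hR, e5]
    unfold rs
    rw [e2, hz] at e1
    rw [e3]
    linear_combination (norm := (ring_nf <;> reduce_mod_char)) e1 + e4
  · have nb2 : Nb (re w p) (w (t + 1)) (w (t + 2)) (w t) := hR.rnb (by omega) (by omega)
    have e1 := dl hR.rclo hE nb1 nb2 x2 y2 (h.ne (by omega) (by omega) (by omega)) (hR.roff hR.offB) o2
      hR.rlpl l2 (T := T)
    have e2 := h.rpc0 t0 (by omega)
    rw [e2, hz] at e1
    unfold DD rs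
    linear_combination (norm := (ring_nf <;> reduce_mod_char)) e1

end Ext

/-- the polygon `w x, .., w (x + m)`, `(w x)(w (x + m))` misses the path -/
structure Pol (T : Table V) (w : ℕ → V) (p : ℕ) (A B : V) (x m : ℕ) : Prop extends Ext T w p A B where
  m2 : 2 ≤ m
  le : x + m ≤ p + 1
  mis : ∀ t < p, T.X (w x) (w (x + m)) (w t) (w (t + 1)) = false

/-- the edges of the polygon -/
def E2 (w : ℕ → V) (x m : ℕ) : Finset (Sym2 V) := pe (sub w x (m + 1)) (m + 1)

namespace Pol

variable {x m : ℕ} (h : Pol T w p A B x m)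

include h

theorem per' : Per (sub w x (m + 1)) (m + 1) := h.per h.m2 h.le

theorem mis' {t : ℕ} (h1 : t < p ∨ t < x + m) : T.X (w x) (w (x + m)) (w t) (w (t + 1)) = false := by
  have h2 := h.le
  by_cases h3 : t < p
  · exact h.mis t h3
  · rw [show x + m = t + 1 by omega]
    exact xa4 T _ _ _

theorem pg : Pg T (sub w x (m + 1)) (m + 1) := by
  refine ⟨h.per', fun i j => ?_⟩
  have g : ∀ t, x ≤ t → t < x + m → ∀ j, T.X (w t) (w (t + 1)) (sub w x (m + 1) j) (sub w x (m + 1) (j + 1)) = false := by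
    intro t t1 t2
    have := h.le
    exact unc_of (fun s s1 s2 => h.pl (by omega) (by omega)) (by
      rw [T.xs5]
      exact h.mis' (by omega))
  have g2 : ∀ j, T.X (w (x + m)) (w x) (sub w x (m + 1) j) (sub w x (m + 1) (j + 1)) = false := by
    have := h.le
    exact unc_of (fun s s1 s2 => by rw [T.xs1]; exact h.mis' (by omega)) (xa1 T _ _ _)
  have hk := Nat.mod_lt i (by omega : 0 < m + 1)
  have e1 : sub w x (m + 1) i = w (x + i % (m + 1)) := rfl
  by_cases h3 : i % (m + 1) = m
  · have e2 : sub w x (m + 1) (i + 1) = w x := by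
      unfold sub
      rw [← Nat.mod_add_mod, h3, Nat.mod_self, Nat.add_zero]
    rw [e1, e2, h3]
    exact g2 j
  · have e2 : sub w x (m + 1) (i + 1) = w (x + i % (m + 1) + 1) := by
      unfold sub
      rw [← Nat.mod_add_mod, Nat.mod_eq_of_lt (by omega : i % (m + 1) + 1 < m + 1)]
      rfl
    rw [e1, e2]
    exact g _ (by omega) (by omega) j

theorem clo : Clo (E2 w x m) := h.per'.clo

theorem lpl : Lpl (E2 w x m) := h.per'.lpl

theorem offB2 : Off (E2 w x m) B := h.per'.off (h.offB' h.le)

theorem off2 {y : ℕ} (hy : y ≤ p + 1) (h3 : y < x ∨ x + m < y) : Off (E2 w x m) (w y) :=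
  h.per'.off (h.off' h.le hy h3)

/-- inner vertices -/
theorem nb1 {t : ℕ} (h1 : x < t) (h2 : t < x + m) : Nb (E2 w x m) (w t) (w (t + 1)) (w (t - 1)) := by
  have h3 := h.per'.nb (t - x)
  rw [sub_of (by omega), sub_of (by omega), show t - x + (m + 1) - 1 = (t - x - 1) + (m + 1) by omega, sub_pe,
    sub_of (by omega), show x + (t - x) = t by omega, show x + (t - x + 1) = t + 1 by omega,
    show x + (t - x - 1) = t - 1 by omega] at h3
  exact h3

/-- the lower end -/
theorem nb0 : Nb (E2 w x m) (w x) (w (x + 1)) (w (x + m)) := by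
  have h2 := h.m2
  have h3 := h.per'.nb 0
  rw [sub_of (by omega), sub_of (by omega), show 0 + (m + 1) - 1 = m by omega, sub_of le_rfl] at h3
  exact h3

/-- the upper end -/
theorem nbm : Nb (E2 w x m) (w (x + m)) (w x) (w (x + m - 1)) := by
  have h2 := h.m2
  have h3 := h.per'.nb m
  rw [sub_of le_rfl, sub_top, show m + (m + 1) - 1 = (m - 1) + (m + 1) by omega, sub_pe,
    sub_of (by omega), show x + (m - 1) = x + m - 1 by omega] at h3
  exact h3

/-- path edges miss the polygon -/
theorem pmis {t : ℕ} (ht : t < p) : Unc T (sub w x (m + 1)) (w t) (w (t + 1)) := by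
  have := h.le
  exact unc_of (fun s s1 s2 => h.pl (by omega) (by omega)) (by
    rw [T.xs5]
    exact h.mis t ht)

theorem pcz {t : ℕ} (ht : t < p) : pc T (E2 w x m) (w t) (w (t + 1)) = 0 := pc_unc h.per' (h.pmis ht)

/-- (C1) -/
theorem c1 {t : ℕ} (h1 : x < t) (h2 : t + 1 < x + m) : DD T w p A B (E2 w x m) t = DD T w p A B (E2 w x m) (t + 1) := by
  have h5 := h.le
  have h3 := h.dd h.clo h.offB2 h.lpl (t := t) (by omega) (by omega) (h.nb1 h1 (by omega)) (h.nb1 (by omega) h2)
    (h.pcz (by omega))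
  rw [al_same, al_same, add_zero] at h3
  have h4 := two_z (DD T w p A B (E2 w x m) (t + 1))
  linear_combination h3 - h4

theorem c1' {s t : ℕ} (h1 : x < s) (h2 : s ≤ t) (h3 : t < x + m) :
    DD T w p A B (E2 w x m) s = DD T w p A B (E2 w x m) t := by
  induction t, h2 using Nat.le_induction with
  | base => rfl
  | succ t ht ih => rw [ih (by omega), h.c1 (by omega) (by omega)]

/-- (I2) -/
theorem i2 (hx : 0 < x) : DD T w p A B (E2 w x m) x + DD T w p A B (E2 w x m) (x + 1) =
    al T (w x) (w (x - 1)) (w (x + m)) (w (x + 1)) B := by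
  have h5 := h.le
  have h6 := h.m2
  have h3 := h.dd h.clo h.offB2 h.lpl (t := x) hx (by omega) h.nb0 (h.nb1 (by omega) (by omega))
    (h.pcz (by omega))
  rw [al_same, add_zero] at h3
  exact h3

/-- (I1) -/
theorem i1 (hz : x + m ≤ p) : DD T w p A B (E2 w x m) (x + m - 1) + DD T w p A B (E2 w x m) (x + m) =
    al T (w (x + m)) (w (x + m + 1)) (w x) (w (x + m - 1)) B := by
  have h5 := h.le
  have h6 := h.m2
  have n1 := h.nb1 (t := x + m - 1) (by omega) (by omega)
  have n2 := h.nbm
  rw [show x + m - 1 + 1 = x + m by omega] at n1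
  have z := h.pcz (t := x + m - 1) (by omega)
  rw [show x + m - 1 + 1 = x + m by omega] at z
  have h3 := h.dd h.clo h.offB2 h.lpl (t := x + m - 1) (a2 := w (x + m - 1 - 1)) (b2 := w x) (by omega) (by omega)
    (by rw [show x + m - 1 + 1 = x + m by omega]; exact n1) (by rw [show x + m - 1 + 1 = x + m by omega]; exact n2)
    (by rw [show x + m - 1 + 1 = x + m by omega]; exact z)
  rw [al_same, zero_add, show x + m - 1 + 1 = x + m by omega, show x + m - 1 + 2 = x + m + 1 by omega] at h3
  exact h3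

end Pol

end H36L
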