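import Pool.Agent.Lib.H36L.NC
import Pool.Agent.Lib.H26D.NSf

/-!
# H36L, file NS: shortening a room by a chord (T1)

Statements by helper36, proofs by helper26. Finite facts: `Lib/H26D/NSf.lean`.
-/

set_option autoImplicit false
set_option linter.unusedVariables false
set_option linter.unusedSectionVars false

namespace H36L

open H53P H30P H10S Finset

variable {V : Type*} [DecidableEq V] {T : Table V} {w : ℕ → V} {p : ℕ} {A B : V}

/-- one half of (SEPg), for a closed set -/
private theorem sg_half {E : Finset (Sym2 V)} (hE : Clo E) (hl : Lpl E) {x z b A B v : V}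
    (hX : T.X x B z A = true) (nb : Nb E x b z) (hv : Off E v) (hA : Off E A) (hB : Off E B)
    (hc : ∀ a b, s(a, b) ∈ E → T.X x B a b = false)
    (hd : ∀ a b, s(a, b) ∈ E → T.X z A a b = false)
    (hg : ∀ a b, s(a, b) ∈ E → T.X x z a b = false)
    (hin : ∀ a b, s(a, b) ∈ E → a ≠ x → a ≠ z → inn T x B z A a = false)
    (hi : inn T x B z A v = true) (hx : T.X x v z A = false) : pc T E v B = 0 := by
  obtain ⟨xB, zA, xz, xA, Bz, BA⟩ := T.ne _ _ _ _ hX
  have off : ∀ a b, s(a, b) ∈ E → a ≠ v ∧ a ≠ A ∧ a ≠ B := by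
    intro a b h
    refine ⟨?_, ?_, ?_⟩ <;> intro h2 <;> subst h2
    · exact hv b h
    · exact hA b h
    · exact hB b h
  have xv : x ≠ v := (off x b nb.m1).1
  have zv : z ≠ v := (off z x (by rw [Sym2.eq_swap]; exact nb.m2)).1
  have vA : v ≠ A := by
    intro e
    rw [e, inn_v] at hi
    cases hi
  have vB : v ≠ B := by
    intro e
    rw [e, inn_u] at hi
    cases hi
  have bx : b ≠ x := fun e => hl x (by have := nb.m1; rwa [e] at this)
  have bz : b ≠ z := nb.ne
  have bo := off b x (by rw [Sym2.eq_swap]; exact nb.m1)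
  have e1 : pc T E x B = 0 := by
    unfold pc
    apply sum_eq_zero
    intro e he
    induction e with
    | _ a b =>
    rw [xe_mk]
    unfold x4
    rw [hc a b he]
    rfl
  have e2 : pc T E x v = 0 := by
    unfold pc
    apply sum_eq_zero
    intro e he
    induction e with
    | _ a c =>
    rw [xe_mk]
    have he' : s(c, a) ∈ E := by rw [Sym2.eq_swap]; exact he
    by_cases ax : a = x
    · rw [ax, x4_adj1]
    by_cases cx : c = x
    · rw [cx, x4_adj2]
    have ac : a ≠ c := fun e => hl a (by rw [← e] at he; exact he)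
    have oa := off a c he
    have oc := off c a he'
    cases hq : T.X x v a c with
    | false => unfold x4; rw [hq]; rfl
    | true =>
      exfalso
      by_cases az : a = z
      · have cz : c ≠ z := fun e => ac (az.trans e.symm)
        refine sg2 (T := T) (a := c) (x := x) (z := z) (A := A) (B := B) (v := v) ?_ hX ?_ ?_ hi hx ?_
        · simp [cx, cz, oc.1, oc.2.1, oc.2.2, xz, xA, xB, xv, zA, Ne.symm Bz, zv, Ne.symm BA, Ne.symm vA,
            Ne.symm vB]
        · rw [← az]; exact hc c a he'
        · exact hin c a he' cx cz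
        · rw [← az, T.xs2]; exact hq
      · by_cases cz : c = z
        · refine sg2 (T := T) (a := a) (x := x) (z := z) (A := A) (B := B) (v := v) ?_ hX ?_ ?_ hi hx ?_
          · simp [ax, az, oa.1, oa.2.1, oa.2.2, xz, xA, xB, xv, zA, Ne.symm Bz, zv, Ne.symm BA, Ne.symm vA,
              Ne.symm vB]
          · rw [← cz]; exact hc a c he
          · exact hin a c he ax az
          · rw [← cz]; exact hq
        · refine sg1 (T := T) (a := a) (b := c) (x := x) (z := z) (A := A) (B := B) (v := v) ?_ hX (hc a c he)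
            (hd a c he) (hg a c he) (hin a c he ax az) (hin c a he' cx cz) hi hx hq
          simp [ac, ax, az, cx, cz, oa.1, oa.2.1, oa.2.2, oc.1, oc.2.1, oc.2.2, xz, xA, xB, xv, zA,
            Ne.symm Bz, zv, Ne.symm BA, Ne.symm vA, Ne.symm vB]
  have e3 : al T x b z v B = 0 := by
    unfold al
    cases hq : T.alt x b z v B with
    | false => rfl
    | true =>
      exfalso
      refine sg3 (T := T) (b := b) (x := x) (z := z) (A := A) (B := B) (v := v) ?_ hX (hd x b nb.m1)
        (hin b x (by rw [Sym2.eq_swap]; exact nb.m1) bx bz) hi hx hq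
      simp [bx, bz, bo.1, bo.2.1, bo.2.2, xz, xA, xB, xv, zA, Ne.symm Bz, zv, Ne.symm BA, Ne.symm vA,
        Ne.symm vB]
  have e4 := pc_one' hE nb xv xB hv hB hl (T := T)
  rw [e1, e2, e3] at e4
  simpa using e4

/-- (SEPg) the small triangle `(w 0, o, w p)` lies in the room if `g = (w 0)(w p)` misses the path and the path
is not in it -/
theorem sep_g (h : Room T w p A B) (hg : Mis T w p (w 0) (w p)) (h1 : inn T (w 0) B (w p) A (w 1) = false)
    {v : V} (hv : ∀ i ≤ p, w i ≠ v) (hi : inn T (w 0) B (w p) A v = true) : rs T w p A B v = 1 := by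
  have h2 := h.two
  obtain ⟨xB, zA, xz, xA, Bz, BA⟩ := T.ne _ _ _ _ h.crs
  -- the path is not in the small triangle
  have hin : ∀ i, 0 < i → i < p → inn T (w 0) B (w p) A (w i) = false := by
    intro i
    induction i with
    | zero => intro h3; omega
    | succ i ih =>
      intro _ h3
      by_cases i0 : i = 0
      · subst i0; exact h1
      have h4 := ih (by omega) (by omega)
      have h5 := h.rcl (x := w i) (y := w (i + 1)) (h.ne_w (by omega) (by omega) (by omega))
        (h.ne_w (by omega) (by omega) (by omega)) (h.ne_w (by omega) (by omega) (by omega))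
        (h.ne_w (by omega) (by omega) (by omega)) (h.ne_w (by omega) (by omega) (by omega))
        (h.unc i (by omega)) (h.und i (by omega))
      have h6 : x4 T (w i) (w (i + 1)) (w p) (w 0) = 0 := by
        rw [x4_4, x4_1]
        unfold x4
        rw [hg i (by omega)]
        rfl
      rw [h6, h4, z2_false, zero_add] at h5
      cases h7 : inn T (w 0) B (w p) A (w (i + 1)) with
      | false => rfl
      | true =>
        rw [h7] at h5
        exact absurd h5 (by decide)
  have hE := h.rclo
  have hl := h.rlpl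
  -- the edges of the closed set
  have key : ∀ (u u' : V) , (∀ t < p, T.X u u' (w t) (w (t + 1)) = false) → T.X u u' (w p) (w 0) = false →
      ∀ a b, s(a, b) ∈ re w p → T.X u u' a b = false := by
    intro u u' g1 g2 a b hab
    by_cases hne : s(a, b) = s(w p, w 0)
    · rw [Sym2.eq_iff] at hne
      rcases hne with ⟨r1, r2⟩ | ⟨r1, r2⟩
      · rw [r1, r2]; exact g2
      · rw [r1, r2, T.xs2]; exact g2
    · exact re_mis (T := T) (x := u) (u := u') g1 a b hab hne
  have adj : ∀ a b d : V, T.X a b a d = false := by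
    intro a b d
    cases e : T.X a b a d with
    | false => rfl
    | true => exact absurd rfl (T.ne _ _ _ _ e).2.2.1
  have hc : ∀ a b, s(a, b) ∈ re w p → T.X (w 0) B a b = false := by
    apply key _ _ h.unc
    rw [T.xs2]; exact adj _ _ _
  have hd : ∀ a b, s(a, b) ∈ re w p → T.X (w p) A a b = false := by
    apply key _ _ h.und
    exact adj _ _ _
  have hgg : ∀ a b, s(a, b) ∈ re w p → T.X (w 0) (w p) a b = false := by
    apply key _ _ hg
    rw [T.xs2]; exact adj _ _ _
  have vtx : ∀ a b, s(a, b) ∈ re w p → ∃ i, i ≤ p ∧ a = w i := by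
    intro a b hab
    unfold re at hab
    rw [mem_union, mem_singleton, mem_image] at hab
    rcases hab with ⟨k, hk, e⟩ | e
    · rw [mem_range] at hk
      rw [Sym2.eq_iff] at e
      rcases e with ⟨e1, e2⟩ | ⟨e1, e2⟩
      · exact ⟨k, by omega, e1.symm⟩
      · exact ⟨k + 1, by omega, e2.symm⟩
    · rw [Sym2.eq_iff] at e
      rcases e with ⟨e1, e2⟩ | ⟨e1, e2⟩
      · exact ⟨p, le_rfl, e1⟩
      · exact ⟨0, by omega, e1⟩
  have hinn : ∀ a b, s(a, b) ∈ re w p → a ≠ w 0 → a ≠ w p → inn T (w 0) B (w p) A a = false := by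
    intro a b hab a0 ap
    obtain ⟨i, hi, rfl⟩ := vtx a b hab
    have i0 : i ≠ 0 := fun e => a0 (by rw [e])
    have ip : i ≠ p := fun e => ap (by rw [e])
    exact hin i (by omega) (by omega)
  have nb0 : Nb (re w p) (w 0) (w 1) (w p) := by
    have h3 := h.rper.nb 0
    rw [re_eq]
    rw [wc_of (by omega), wc_of (by omega), show 0 + (p + 1) - 1 = p by omega, wc_of (by omega)] at h3
    exact h3
  have nbp : Nb (re w p) (w p) (w (p - 1)) (w 0) := by
    have h3 := h.rper.nb p
    rw [re_eq]
    rw [wc_of (by omega), wc_top, show p + (p + 1) - 1 = (p - 1) + (p + 1) by omega, h.rper.per,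
      wc_of (by omega)] at h3
    exact ⟨h3.ne.symm, h3.m2, h3.m1, fun b hb => (h3.only b hb).symm⟩
  have ov := h.roff hv
  have oA := h.roff h.offA
  have oB := h.roff h.offB
  have fin : pc T (re w p) v B = 0 := by
    cases hx : T.X (w 0) v (w p) A with
    | false => exact sg_half hE hl h.crs nb0 ov oA oB hc hd hgg hinn hi hx
    | true =>
      have vA : v ≠ A := by
        intro e
        rw [e, inn_v] at hi
        cases hi
      have vB : v ≠ B := by
        intro e
        rw [e, inn_u] at hi
        cases hi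
      have hx' : T.X (w p) v (w 0) B = false := by
        cases hq : T.X (w p) v (w 0) B with
        | false => rfl
        | true =>
          exfalso
          refine sg4 (T := T) (x := w 0) (z := w p) (A := A) (B := B) (v := v) ?_ h.crs hi hx hq
          simp [xz, xA, xB, hv 0 (by omega), zA, Ne.symm Bz, hv p le_rfl, Ne.symm BA, Ne.symm vA,
            Ne.symm vB]
      have h3 : pc T (re w p) v A = 0 := by
        refine sg_half hE hl (x := w p) (z := w 0) (b := w (p - 1)) (A := B) (B := A) (v := v) ?_ nbp ov oB oA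
          hd hc ?_ ?_ ?_ hx'
        · rw [T.xs4]; exact h.crs
        · intro a b hab
          rw [T.xs1]; exact hgg a b hab
        · intro a b hab ap a0
          rw [inn_swap]
          exact hinn a b hab a0 ap
        · rw [inn_swap]
          exact hi
      have h4 : pc T (re w p) A B = 0 := by
        have h5 := h.rs_A
        unfold rs at h5
        rw [inn_v, z2_false, add_zero] at h5
        exact h5
      have h5 := pc_co hE ov oB oA (T := T)
      rw [h3, pc_symm T _ B A, h4, add_zero] at h5
      exact h5.symm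
  unfold rs
  rw [fin, hi, z2_true, zero_add]

/-! ## the shorter path -/

/-- `w'` is `w` without the positions `j + 1, .., k - 1` -/
private structure Sh (w w' : ℕ → V) (p p' j k : ℕ) : Prop where
  jk : j + 2 ≤ k
  kp : k ≤ p
  pp : p' + k = p + (j + 1)
  lo : ∀ t, t ≤ j → w' t = w t
  hi : ∀ t, w' (t + (j + 1)) = w (t + k)

private theorem sh_ix {j k : ℕ} (h1 : j + 2 ≤ k) (h2 : k ≤ p) :
    Sh w (fun t => w (ix j k t)) p (p - (k - j - 1)) j k where
  jk := h1
  kp := h2
  pp := by omega
  lo t ht := by
    show w (ix j k t) = w t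
    unfold ix
    rw [if_pos ht]
  hi t := by
    show w (ix j k (t + (j + 1))) = w (t + k)
    unfold ix
    rw [if_neg (by omega), show t + (j + 1) + (k - j - 1) = t + k by omega]

private theorem ix_lo {j k t : ℕ} (h : t ≤ j) : ix j k t = t := by
  unfold ix
  rw [if_pos h]

private theorem ix_hi {j k t : ℕ} (h : j < t) : ix j k t = t + (k - j - 1) := by
  unfold ix
  rw [if_neg (by omega)]

section

variable {w' : ℕ → V} {p' j k : ℕ}

private theorem Sh.edge (s : Sh w w' p p' j k) {P : V → V → Prop} (hj : P (w j) (w k))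
    (hP : ∀ t < p, (t < j ∨ k ≤ t) → P (w t) (w (t + 1))) : ∀ i < p', P (w' i) (w' (i + 1)) := by
  intro i hi
  have h1 := s.jk
  have h2 := s.kp
  have h3 := s.pp
  rcases lt_trichotomy i j with h4 | h4 | h4
  · rw [s.lo i h4.le, s.lo (i + 1) h4]
    exact hP i (by omega) (Or.inl h4)
  · rw [h4, s.lo j le_rfl]
    have h5 := s.hi 0
    rw [Nat.zero_add, Nat.zero_add] at h5
    rw [h5]
    exact hj
  · obtain ⟨t, rfl⟩ : ∃ t, i = t + (j + 1) := ⟨i - (j + 1), by omega⟩
    have h5 := s.hi (t + 1)
    rw [show t + 1 + (j + 1) = t + (j + 1) + 1 by omega, show t + 1 + k = t + k + 1 by omega] at h5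
    rw [s.hi t, h5]
    exact hP (t + k) (by omega) (Or.inr (by omega))

private theorem Sh.vtx (s : Sh w w' p p' j k) {i : ℕ} (hi : i ≤ p') :
    ∃ t, t ≤ p ∧ (t ≤ j ∨ k ≤ t) ∧ w' i = w t := by
  have h1 := s.jk
  have h2 := s.kp
  have h3 := s.pp
  rcases Nat.lt_or_ge j i with h4 | h4
  · obtain ⟨t, rfl⟩ : ∃ t, i = t + (j + 1) := ⟨i - (j + 1), by omega⟩
    exact ⟨t + k, by omega, Or.inr (by omega), s.hi t⟩
  · exact ⟨i, by omega, Or.inl h4, s.lo i h4⟩

private theorem Sh.top (s : Sh w w' p p' j k) : w' p' = w p := by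
  have h1 := s.jk
  have h2 := s.kp
  have h3 := s.pp
  have h4 := s.hi (p - k)
  rw [show p - k + (j + 1) = p' by omega, show p - k + k = p by omega] at h4
  exact h4

private theorem Sh.bot (s : Sh w w' p p' j k) : w' 0 = w 0 := s.lo 0 (Nat.zero_le _)

private theorem Sh.mid (s : Sh w w' p p' j k) : w' (j + 1) = w k := by
  have h5 := s.hi 0
  rw [Nat.zero_add, Nat.zero_add] at h5
  exact h5

private theorem adjf (T : Table V) (a b d : V) : T.X a b a d = false := by
  cases e : T.X a b a d with
  | false => rfl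
  | true => exact absurd rfl (T.ne _ _ _ _ e).2.2.1

private theorem degf (T : Table V) (a b d : V) : T.X a a b d = false := by
  cases e : T.X a a b d with
  | false => rfl
  | true => exact absurd rfl (T.ne _ _ _ _ e).1

private theorem sh_room (h : Room T w p A B) (hN : NCh T w p A B j k) (h0 : 0 < j ∨ k < p)
    (s : Sh w w' p p' j k) : Room T w' p' A B := by
  have h1 := s.jk
  have h2 := s.kp
  have h3 := s.pp
  refine ⟨by omega, ?_, ?_, ?_, ?_, ?_, ?_, ?_⟩
  · intro i hi i' hi' e
    rcases Nat.lt_or_ge j i with h4 | h4 <;> rcases Nat.lt_or_ge j i' with h5 | h5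
    · obtain ⟨t, rfl⟩ : ∃ t, i = t + (j + 1) := ⟨i - (j + 1), by omega⟩
      obtain ⟨t', rfl⟩ : ∃ t, i' = t + (j + 1) := ⟨i' - (j + 1), by omega⟩
      rw [s.hi, s.hi] at e
      have := h.inj _ (by omega) _ (by omega) e
      omega
    · obtain ⟨t, rfl⟩ : ∃ t, i = t + (j + 1) := ⟨i - (j + 1), by omega⟩
      rw [s.hi, s.lo _ h5] at e
      have := h.inj _ (by omega) _ (by omega) e
      omega
    · obtain ⟨t', rfl⟩ : ∃ t, i' = t + (j + 1) := ⟨i' - (j + 1), by omega⟩
      rw [s.hi, s.lo _ h4] at e
      have := h.inj _ (by omega) _ (by omega) e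
      omega
    · rw [s.lo _ h4, s.lo _ h5] at e
      exact h.inj _ (by omega) _ (by omega) e
  · intro i hi
    obtain ⟨t, ht, _, e⟩ := s.vtx hi
    rw [e]
    exact h.offA t ht
  · intro i hi
    obtain ⟨t, ht, _, e⟩ := s.vtx hi
    rw [e]
    exact h.offB t ht
  · have e1 : ∀ t < p, ∀ i < p', T.X (w t) (w (t + 1)) (w' i) (w' (i + 1)) = false := by
      intro t ht
      refine s.edge (P := fun a b => T.X (w t) (w (t + 1)) a b = false) ?_ ?_
      · rw [T.xs4]
        exact hN.mis t ht
      · intro t' ht' _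
        exact h.plane t ht t' ht'
    have e2 : ∀ i < p', T.X (w j) (w k) (w' i) (w' (i + 1)) = false := by
      refine s.edge (P := fun a b => T.X (w j) (w k) a b = false) (adjf T _ _ _) ?_
      intro t' ht' _
      exact hN.mis t' ht'
    intro i hi i' hi'
    have e3 : ∀ i < p', T.X (w' i') (w' (i' + 1)) (w' i) (w' (i + 1)) = false := by
      refine s.edge (P := fun a b => T.X (w' i') (w' (i' + 1)) a b = false) ?_ ?_
      · rw [T.xs4]
        exact e2 i' hi'
      · intro t' ht' _
        rw [T.xs4]
        exact e1 t' ht' i' hi'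
    rw [T.xs4]
    exact e3 i hi
  · rw [s.bot, s.top]
    exact h.crs
  · rw [s.bot]
    refine s.edge (P := fun a b => T.X (w 0) B a b = false) hN.mc ?_
    intro t' ht' _
    exact h.unc t' ht'
  · rw [s.top]
    refine s.edge (P := fun a b => T.X (w p) A a b = false) hN.md ?_
    intro t' ht' _
    exact h.und t' ht'

/-! ## the closed arc -/

/-- the removed arc and the chord -/
private def oo (w : ℕ → V) (j k : ℕ) : Finset (Sym2 V) := re (fun t => w (j + t)) (k - j)

private theorem oper (h : Room T w p A B) (hN : NCh T w p A B j k) :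
    Per (wc (fun t => w (j + t)) (k - j)) (k - j + 1) := by
  have h1 := hN.lt
  have h2 := hN.le
  apply wc_per (by omega)
  intro i hi i' hi' e
  have := h.inj (j + i) (by omega) (j + i') (by omega) e
  omega

private theorem oclo (h : Room T w p A B) (hN : NCh T w p A B j k) : Clo (oo w j k) := by
  unfold oo
  rw [re_eq]
  exact (oper h hN).clo

private theorem olpl (h : Room T w p A B) (hN : NCh T w p A B j k) : Lpl (oo w j k) := by
  unfold oo
  rw [re_eq]
  exact (oper h hN).lpl

private theorem ooff (h : Room T w p A B) (hN : NCh T w p A B j k) {x : V}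
    (hx : ∀ t, j ≤ t → t ≤ k → w t ≠ x) : Off (oo w j k) x := by
  have h1 := hN.lt
  unfold oo
  rw [re_eq]
  apply (oper h hN).off
  intro t
  have h2 : t % (k - j + 1) < k - j + 1 := Nat.mod_lt _ (by omega)
  exact hx _ (by omega) (by omega)

private theorem onbj (h : Room T w p A B) (hN : NCh T w p A B j k) :
    Nb (oo w j k) (w j) (w (j + 1)) (w k) := by
  have h1 := hN.lt
  have h3 := (oper h hN).nb 0
  unfold oo
  rw [re_eq]
  rw [wc_of (by omega), wc_of (by omega), show 0 + (k - j + 1) - 1 = k - j by omega, wc_of (by omega)] at h3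
  simp only [Nat.add_zero, Nat.zero_add] at h3
  rw [show j + (k - j) = k by omega] at h3
  exact h3

private theorem onbk (h : Room T w p A B) (hN : NCh T w p A B j k) :
    Nb (oo w j k) (w k) (w (k - 1)) (w j) := by
  have h1 := hN.lt
  have h3 := (oper h hN).nb (k - j)
  unfold oo
  rw [re_eq]
  rw [wc_of (by omega), wc_top, show k - j + (k - j + 1) - 1 = (k - j - 1) + (k - j + 1) by omega,
    (oper h hN).per, wc_of (by omega)] at h3
  simp only [Nat.add_zero] at h3
  rw [show j + (k - j) = k by omega, show j + (k - j - 1) = k - 1 by omega] at h3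
  exact ⟨h3.ne.symm, h3.m2, h3.m1, fun b hb => (h3.only b hb).symm⟩

private theorem opc (h : Room T w p A B) (hN : NCh T w p A B j k) (x y : V) :
    pc T (oo w j k) x y = asum T w x y j k + x4 T x y (w k) (w j) := by
  have h1 := hN.lt
  unfold oo
  rw [re_eq, pc_pe (oper h hN)]
  unfold asum
  rw [sum_Ico_succ_top (Nat.zero_le (k - j)), wc_of le_rfl, wc_top]
  simp only [Nat.add_zero]
  rw [show j + (k - j) = k by omega]
  congr 1
  have e := Finset.sum_Ico_add' (fun t => x4 T x y (w t) (w (t + 1))) 0 (k - j) j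
  rw [Nat.zero_add, show k - j + j = k by omega] at e
  rw [← e]
  apply sum_congr rfl
  intro t ht
  rw [mem_Ico] at ht
  rw [wc_of (by omega), wc_of (by omega)]
  rw [show t + j = j + t by omega, show j + t + 1 = j + (t + 1) by omega]

/-- the three closed sets -/
private theorem pc_three (h : Room T w p A B) (hN : NCh T w p A B j k) (h' : Room T w' p' A B)
    (s : Sh w w' p p' j k) (x y : V) :
    pc T (re w' p') x y + pc T (re w p) x y = pc T (oo w j k) x y := by
  have h1 := s.jk
  have h2 := s.kp
  have h3 := s.pp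
  rw [h'.rpc, h.rpc, opc h hN, s.bot, s.top]
  rw [asum_split T w x y (Nat.zero_le j) (by omega : j ≤ p), asum_split T w x y (by omega : j ≤ k) h2]
  rw [asum_split T w' x y (Nat.zero_le j) (by omega : j ≤ p'),
    asum_split T w' x y (by omega : j ≤ j + 1) (by omega : j + 1 ≤ p')]
  have e1 : asum T w' x y 0 j = asum T w x y 0 j := by
    unfold asum
    apply sum_congr rfl
    intro t ht
    rw [mem_Ico] at ht
    rw [s.lo t (by omega), s.lo (t + 1) (by omega)]
  have e2 : asum T w' x y j (j + 1) = x4 T x y (w k) (w j) := by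
    unfold asum
    rw [Nat.Ico_succ_singleton, sum_singleton, s.lo j le_rfl, s.mid, x4_2]
  have e3 : asum T w' x y (j + 1) p' = asum T w x y k p := by
    unfold asum
    have g1 := Finset.sum_Ico_add' (fun t => x4 T x y (w' t) (w' (t + 1))) 0 (p - k) (j + 1)
    have g2 := Finset.sum_Ico_add' (fun t => x4 T x y (w t) (w (t + 1))) 0 (p - k) k
    rw [Nat.zero_add, show p - k + (j + 1) = p' by omega] at g1
    rw [Nat.zero_add, show p - k + k = p by omega] at g2
    rw [← g1, ← g2]
    apply sum_congr rfl
    intro t _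
    have g3 := s.hi (t + 1)
    rw [show t + 1 + (j + 1) = t + (j + 1) + 1 by omega, show t + 1 + k = t + k + 1 by omega] at g3
    rw [s.hi t, g3]
  rw [e1, e2, e3]
  linear_combination (norm := (ring_nf; reduce_mod_char)) two_z (0 : ZMod 2)

private theorem rs_three (h : Room T w p A B) (hN : NCh T w p A B j k) (h' : Room T w' p' A B)
    (s : Sh w w' p p' j k) (y : V) :
    rs T w' p' A B y + rs T w p A B y = pc T (oo w j k) y B := by
  have e := pc_three h hN h' s y B
  unfold rs
  rw [s.bot, s.top]
  linear_combination (norm := (ring_nf; reduce_mod_char)) e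

private theorem omiss (h : Room T w p A B) (hN : NCh T w p A B j k) {x y : V}
    (h1 : ∀ t, j ≤ t → t < k → T.X x y (w t) (w (t + 1)) = false) (h2 : T.X x y (w j) (w k) = false) :
    pc T (oo w j k) x y = 0 := by
  rw [opc h hN, asum_unc h1, zero_add, x4_2]
  unfold x4
  rw [h2]
  rfl

private theorem oedge (h : Room T w p A B) (hN : NCh T w p A B j k) {t : ℕ} (ht : t < p) :
    pc T (oo w j k) (w t) (w (t + 1)) = 0 := by
  have g := hN.le
  apply omiss h hN
  · intro t' _ h2
    exact h.plane t ht t' (by omega)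
  · rw [T.xs4]
    exact hN.mis t ht

private theorem oAB (h : Room T w p A B) (hN : NCh T w p A B j k) : pc T (oo w j k) A B = 0 := by
  have h1 := hN.lt
  have h2 := hN.le
  obtain ⟨x0, _, wp0, w0A, BP, BA⟩ := T.ne _ _ _ _ h.crs
  have hX : T.X A (w p) B (w 0) = true := by
    rw [T.xs7]
    exact h.crs
  have e := oclo h hN (fun y => z2 (inn T A (w p) B (w 0) y))
  unfold pc
  rw [← e]
  apply sum_congr rfl
  intro e he
  unfold oo re at he
  rw [mem_union, mem_singleton, mem_image] at he
  have key : ∀ a b : V, a ≠ b → a ≠ A → a ≠ B → b ≠ A → b ≠ B → T.X (w 0) B a b = false →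
      T.X (w p) A a b = false → xe T A B s(a, b) = ds (fun y => z2 (inn T A (w p) B (w 0) y)) s(a, b) := by
    intro a b ab aA aB bA bB hc hd
    rw [xe_mk, ds_mk]
    apply sm_edge hX ab aA aB bA bB
    · rw [T.xs1]; exact hd
    · rw [T.xs1]; exact hc
  rcases he with ⟨t, ht, rfl⟩ | rfl
  · rw [mem_range] at ht
    have g := key (w (j + t)) (w (j + (t + 1))) (h.ne_w (by omega) (by omega) (by omega))
      (h.offA _ (by omega)) (h.offB _ (by omega)) (h.offA _ (by omega)) (h.offB _ (by omega))
      (h.unc (j + t) (by omega)) (h.und (j + t) (by omega))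
    exact g
  · have g := key (w (j + (k - j))) (w (j + 0)) (h.ne_w (by omega) (by omega) (by omega))
      (h.offA _ (by omega)) (h.offB _ (by omega)) (h.offA _ (by omega)) (h.offB _ (by omega))
      (by rw [T.xs2, Nat.add_zero, show j + (k - j) = k by omega]; exact hN.mc)
      (by rw [T.xs2, Nat.add_zero, show j + (k - j) = k by omega]; exact hN.md)
    exact g

private theorem oB (h : Room T w p A B) (hN : NCh T w p A B j k) : Off (oo w j k) B :=
  ooff h hN fun t _ h2 => h.offB t (by have := hN.le; omega)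

private theorem oA (h : Room T w p A B) (hN : NCh T w p A B j k) : Off (oo w j k) A :=
  ooff h hN fun t _ h2 => h.offA t (by have := hN.le; omega)

private theorem ow (h : Room T w p A B) (hN : NCh T w p A B j k) {t : ℕ} (ht : t ≤ p) (h1 : t < j ∨ k < t) :
    Off (oo w j k) (w t) :=
  ooff h hN fun t' g1 g2 => h.ne_w (by have := hN.le; omega) ht (by omega)

/-- (a) the lower part -/
private theorem walk_lo (h : Room T w p A B) (hN : NCh T w p A B j k) :
    ∀ t, t < j → pc T (oo w j k) (w t) B = 0 := by
  have g1 := hN.lt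
  have g2 := hN.le
  intro t
  induction t with
  | zero =>
    intro ht
    exact omiss h hN (fun t' _ h2 => h.unc t' (by omega)) hN.mc
  | succ t ih =>
    intro ht
    have e1 := ih (by omega)
    have e2 := pc_co (oclo h hN) (ow h hN (by omega : t ≤ p) (Or.inl (by omega)))
      (ow h hN (by omega : t + 1 ≤ p) (Or.inl (by omega))) (oB h hN) (T := T)
    rw [e1, oedge h hN (by omega), zero_add] at e2
    exact e2

/-- (a) the upper part -/
private theorem walk_hi (h : Room T w p A B) (hN : NCh T w p A B j k) :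
    ∀ n t, k < t → t + n = p → pc T (oo w j k) (w t) B = 0 := by
  have g1 := hN.lt
  have g2 := hN.le
  intro n
  induction n with
  | zero =>
    intro t ht hp
    rw [Nat.add_zero] at hp
    subst hp
    have e1 : pc T (oo w j k) (w t) A = 0 := omiss h hN (fun t' _ h2 => h.und t' (by omega)) hN.md
    have e2 := pc_co (oclo h hN) (ow h hN (le_refl t) (Or.inr ht)) (oA h hN) (oB h hN) (T := T)
    rw [oAB h hN, e1, add_zero] at e2
    exact e2
  | succ n ih =>
    intro t ht hp
    have e1 := ih (t + 1) (by omega) (by omega)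
    have e2 := pc_co (oclo h hN) (ow h hN (by omega : t ≤ p) (Or.inr (by omega)))
      (ow h hN (by omega : t + 1 ≤ p) (Or.inr (by omega))) (oB h hN) (T := T)
    rw [e1, oedge h hN (by omega), add_zero] at e2
    exact e2

/-- (b) at `w j` -/
private theorem at_j (h : Room T w p A B) (hN : NCh T w p A B j k) (hj : 0 < j) :
    pc T (oo w j k) (w j) B = al T (w j) (w (j + 1)) (w k) (w (j - 1)) B := by
  have g1 := hN.lt
  have g2 := hN.le
  have e1 := pc_one' (oclo h hN) (onbj h hN) (h.ne_w (by omega) (by omega) (by omega)) (h.offB j (by omega))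
    (ow h hN (by omega : j - 1 ≤ p) (Or.inl (by omega))) (oB h hN) (olpl h hN) (T := T)
  have e2 := oedge h hN (by omega : j - 1 < p)
  rw [show j - 1 + 1 = j by omega, pc_symm] at e2
  rw [e2, walk_lo h hN (j - 1) (by omega), zero_add, add_zero] at e1
  exact e1

/-- (b) at `w k` -/
private theorem at_k (h : Room T w p A B) (hN : NCh T w p A B j k) (hk : k < p) :
    pc T (oo w j k) (w k) B = al T (w k) (w (k - 1)) (w j) (w (k + 1)) B := by
  have g1 := hN.lt
  have g2 := hN.le
  have e1 := pc_one' (oclo h hN) (onbk h hN) (h.ne_w (by omega) (by omega) (by omega)) (h.offB k (by omega))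
    (ow h hN (by omega : k + 1 ≤ p) (Or.inr (by omega))) (oB h hN) (olpl h hN) (T := T)
  rw [oedge h hN hk, walk_hi h hN (p - (k + 1)) (k + 1) (by omega) (by omega), zero_add, add_zero] at e1
  exact e1

end

/-! ## five rays -/

private theorem al5 {u a k b v B : V} (au : a ≠ u) (ku : k ≠ u) (bu : b ≠ u) (vu : v ≠ u) (Bu : B ≠ u)
    (ak : a ≠ k) (ab : a ≠ b) (kb : k ≠ b) (va : v ≠ a) (vk : v ≠ k) (vb : v ≠ b) (Ba : B ≠ a) (Bk : B ≠ k)
    (Bb : B ≠ b) : al T u a k b B + al T u k b v B + al T u a b v B = al T u a k b v := by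
  have e1 := al_add (T := T) (u := u) (a := a) (b := k) (y := b) (z := v) (w := B) au.symm ku.symm ak bu
    ab.symm kb.symm vu va vk Bu Ba Bk
  by_cases vB : v = B
  · subst vB
    rw [al_self, al_self, add_zero, add_zero]
  have e2 := al_add (T := T) (u := u) (a := v) (b := B) (y := k) (z := a) (w := b) vu.symm Bu.symm vB ku
    vk.symm Bk.symm au va.symm Ba.symm bu vb.symm Bb.symm
  have f1 : al T u v B k b = al T u k b v B := by unfold al; rw [T.as4]
  have f2 : al T u v B a b = al T u a b v B := by unfold al; rw [T.as4]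
  have f3 : al T u v B k a = al T u a k v B := by unfold al; rw [T.as4, T.as1]
  rw [f1, f2, f3] at e2
  rw [← e1, add_assoc, e2]

private theorem al_case {u a k b v B : V} (au : a ≠ u) (ku : k ≠ u) (bu : b ≠ u) (vu : v ≠ u) (Bu : B ≠ u)
    (ak : a ≠ k) (ab : a ≠ b) (kb : k ≠ b) (va : v ≠ a) (vk : v ≠ k) (vb : v ≠ b) (Ba : B ≠ a) (Bk : B ≠ k)
    (Bb : B ≠ b) {R R' : ZMod 2} (h1 : R' + R = al T u a k b B) (h2 : R + al T u a b k B = 1)
    (h3 : R' + al T u k b v B = 1) : R + al T u a b v B = 1 := by
  have e1 := al5 (T := T) au ku bu vu Bu ak ab kb va vk vb Ba Bk Bb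
  have e2 := al_add (T := T) (u := u) (a := a) (b := b) (y := v) (z := k) (w := B) au.symm bu.symm ab vu va vb
    ku ak.symm kb Bu Ba Bb
  have e3 := (T.rot3 au ku bu vu ak ab va.symm kb vk.symm vb.symm).2
  have e4 : (T.alt u a k b v && T.alt u a b k v) = false := by
    have h9 : (!(T.alt u a k b v && T.alt u a b k v)) = true := e3
    cases q : (T.alt u a k b v && T.alt u a b k v) with
    | false => rfl
    | true => rw [q] at h9; cases h9
  have e5 : al T u a b v k = z2 (T.alt u a b k v) := by unfold al; rw [T.as2]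
  have e6 : al T u a k b v = z2 (T.alt u a k b v) := rfl
  rw [e5] at e2
  rw [e6] at e1
  -- by cases on the two booleans
  cases q1 : T.alt u a k b v <;> cases q2 : T.alt u a b k v <;> rw [q1] at e1 e4 <;> rw [q2] at e2 e4
  · rw [z2_false] at e1 e2
    linear_combination (norm := (ring_nf; reduce_mod_char)) h2 + e2
  · rw [z2_false] at e1
    rw [z2_true] at e2
    linear_combination (norm := (ring_nf; reduce_mod_char)) h1 + h3 + e1
  · rw [z2_true] at e1
    rw [z2_false] at e2
    linear_combination (norm := (ring_nf; reduce_mod_char)) h2 + e2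
  · cases e4

private theorem al_rem {u a k b B : V} (au : a ≠ u) (ku : k ≠ u) (bu : b ≠ u) (Bu : B ≠ u)
    (ak : a ≠ k) (ab : a ≠ b) (kb : k ≠ b) (Ba : B ≠ a) (Bk : B ≠ k)
    (Bb : B ≠ b) {R R' : ZMod 2} (h1 : R' + R = al T u a k b B) (h2 : R + al T u a b k B = 1) :
    R' + al T u k b a B = 0 := by
  have e1 := al_rot (T := T) au ku bu Bu ak ab Ba.symm kb Bk.symm Bb.symm
  have f1 : al T u a B k b = al T u k b a B := by unfold al; rw [T.as4]
  rw [f1] at e1
  linear_combination (norm := (ring_nf; reduce_mod_char)) h1 + h2 + e1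

section

variable {w' : ℕ → V} {p' j k : ℕ}

/-- (F) start sides -/
private theorem rf_sh (h : Room T w p A B) (hN : NCh T w p A B j k) (h' : Room T w' p' A B)
    (s : Sh w w' p p' j k) {i : ℕ} (i0 : 0 < i) (ip : i < p') {v : V} (vi : v ≠ w (ix j k i))
    (v1 : v ≠ w' (i + 1)) (v2 : v ≠ w' (i - 1)) (v3 : v ≠ w (ix j k i + 1)) (v4 : v ≠ w (ix j k i - 1))
    (hf : rf T w' p' A B i v = 1) : rf T w p A B (ix j k i) v = 1 := by
  have g1 := s.jk
  have g2 := s.kp
  have g3 := s.pp
  rcases lt_trichotomy i j with h4 | h4 | h4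
  · rw [ix_lo h4.le]
    have e1 := rs_three h hN h' s (w i)
    rw [walk_lo h hN i h4] at e1
    unfold rf at hf ⊢
    rw [s.lo i h4.le, s.lo (i + 1) h4, s.lo (i - 1) (by omega)] at hf
    linear_combination (norm := (ring_nf; reduce_mod_char)) e1 + hf
  · subst h4
    rw [ix_lo le_rfl] at vi v3 v4 ⊢
    have e1 := rs_three h hN h' s (w i)
    rw [at_j h hN i0] at e1
    have e2 := hN.l i0
    rw [s.mid] at v1
    unfold rf at hf e2 ⊢
    rw [s.lo i le_rfl, s.mid, s.lo (i - 1) (by omega)] at hf
    exact al_case (h.ne_w (by omega) (by omega) (by omega)) (h.ne_w (by omega) (by omega) (by omega))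
      (h.ne_w (by omega) (by omega) (by omega)) vi (h.offB _ (by omega)).symm
      (h.ne_w (by omega) (by omega) (by omega)) (h.ne_w (by omega) (by omega) (by omega))
      (h.ne_w (by omega) (by omega) (by omega)) v3 v1 v4 (h.offB _ (by omega)).symm
      (h.offB _ (by omega)).symm (h.offB _ (by omega)).symm e1 e2 hf
  · rw [ix_hi h4] at vi v3 v4 ⊢
    by_cases h5 : i = j + 1
    · subst h5
      have kp : k < p := by omega
      rw [show j + 1 + (k - j - 1) = k by omega] at vi v3 v4 ⊢
      have e1 := rs_three h hN h' s (w k)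
      rw [at_k h hN kp] at e1
      have e2 := hN.r kp
      have e5 := s.hi 1
      rw [show 1 + (j + 1) = j + 1 + 1 by omega, show 1 + k = k + 1 by omega] at e5
      rw [Nat.add_sub_cancel, s.lo j le_rfl] at v2
      unfold rf at hf e2 ⊢
      rw [s.mid, e5, Nat.add_sub_cancel, s.lo j le_rfl] at hf
      have f1 : ∀ y z : V, al T (w k) (w (k + 1)) (w j) y z = al T (w k) (w j) (w (k + 1)) y z := by
        intro y z
        unfold al
        rw [T.as1]
      have f2 : ∀ y z : V, al T (w k) (w (k + 1)) (w (k - 1)) y z = al T (w k) (w (k - 1)) (w (k + 1)) y z := by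
        intro y z
        unfold al
        rw [T.as1]
      rw [f1] at hf
      rw [f2] at e2 ⊢
      exact al_case (h.ne_w (by omega) (by omega) (by omega)) (h.ne_w (by omega) (by omega) (by omega))
        (h.ne_w (by omega) (by omega) (by omega)) vi (h.offB _ (by omega)).symm
        (h.ne_w (by omega) (by omega) (by omega)) (h.ne_w (by omega) (by omega) (by omega))
        (h.ne_w (by omega) (by omega) (by omega)) v4 v2 v3 (h.offB _ (by omega)).symm
        (h.offB _ (by omega)).symm (h.offB _ (by omega)).symm e1 e2 hf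
    · obtain ⟨t, rfl⟩ : ∃ t, i = t + 1 + (j + 1) := ⟨i - (j + 2), by omega⟩
      rw [show t + 1 + (j + 1) + (k - j - 1) = t + 1 + k by omega] at vi v3 v4 ⊢
      have e1 := rs_three h hN h' s (w (t + 1 + k))
      rw [walk_hi h hN (p - (t + 1 + k)) (t + 1 + k) (by omega) (by omega)] at e1
      have e5 := s.hi (t + 1)
      have e6 := s.hi (t + 2)
      have e7 := s.hi t
      rw [show t + 2 + (j + 1) = t + 1 + (j + 1) + 1 by omega, show t + 2 + k = t + 1 + k + 1 by omega] at e6
      rw [show t + (j + 1) = t + 1 + (j + 1) - 1 by omega, show t + k = t + 1 + k - 1 by omega] at e7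
      unfold rf at hf ⊢
      rw [e5, e6, e7] at hf
      linear_combination (norm := (ring_nf; reduce_mod_char)) e1 + hf

/-- the removed vertices are off the shorter path -/
private theorem off_sh (h : Room T w p A B) (s : Sh w w' p p' j k) {t : ℕ} (h1 : j < t) (h2 : t < k) :
    ∀ i ≤ p', w' i ≠ w t := by
  have g2 := s.kp
  intro i hi
  obtain ⟨t', ht', h3, e⟩ := s.vtx hi
  rw [e]
  exact h.ne_w ht' (by omega) (by omega)

private theorem mis_sh (h : Room T w p A B) (hN : NCh T w p A B j k) (s : Sh w w' p p' j k) {t : ℕ}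
    (ht : t < p) : ∀ i < p', T.X (w t) (w (t + 1)) (w' i) (w' (i + 1)) = false := by
  refine s.edge (P := fun a b => T.X (w t) (w (t + 1)) a b = false) ?_ ?_
  · rw [T.xs4]
    exact hN.mis t ht
  · intro t' ht' _
    exact h.plane t ht t' ht'

/-- (c) the removed vertices are outside the shorter room -/
private theorem rem0 (h : Room T w p A B) (hN : NCh T w p A B j k) (h0 : 0 < j ∨ k < p)
    (h' : Room T w' p' A B) (s : Sh w w' p p' j k) :
    ∀ t, j < t → t < k → rs T w' p' A B (w t) = 0 := by
  have g1 := s.jk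
  have g2 := s.kp
  have g3 := s.pp
  have const : ∀ n, j + 1 + n < k → rs T w' p' A B (w (j + 1 + n)) = rs T w' p' A B (w (j + 1)) := by
    intro n
    induction n with
    | zero => intro _; rfl
    | succ n ih =>
      intro hn
      rw [← ih (by omega)]
      symm
      apply h'.rs_eq (off_sh h s (by omega) (by omega)) (off_sh h s (by omega) (by omega))
      · rw [s.bot]; exact h.unc (j + 1 + n) (by omega)
      · rw [s.top]; exact h.und (j + 1 + n) (by omega)
      · exact mis_sh h hN s (t := j + 1 + n) (by omega)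
  have base : rs T w' p' A B (w (j + 1)) = 0 := by
    rcases Nat.eq_zero_or_pos j with hj | hj
    · have hk : k < p := by omega
      have e0 := const (k - 1 - (j + 1)) (by omega)
      rw [show j + 1 + (k - 1 - (j + 1)) = k - 1 by omega] at e0
      rw [← e0]
      have m1 := mis_sh h hN s (t := k - 1) (by omega)
      rw [show k - 1 + 1 = k by omega] at m1
      have e1 := h'.rf_ray (i := j + 1) (z := w (k - 1)) (by omega) (by omega)
        (off_sh h s (by omega) (by omega))
        (by rw [s.bot, s.mid, T.xs2]; have := h.unc (k - 1) (by omega); rwa [show k - 1 + 1 = k by omega] at this)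
        (by rw [s.top, s.mid, T.xs2]; have := h.und (k - 1) (by omega); rwa [show k - 1 + 1 = k by omega] at this)
      rw [s.mid, asum_unc (fun i _ hi => by rw [T.xs1]; exact m1 i hi), add_zero] at e1
      rw [← e1]
      have e2 := hN.r hk
      have e3 := rs_three h hN h' s (w k)
      rw [at_k h hN hk] at e3
      have e5 := s.hi 1
      rw [show 1 + (j + 1) = j + 1 + 1 by omega, show 1 + k = k + 1 by omega] at e5
      unfold rf at e2 ⊢
      rw [s.mid, e5, Nat.add_sub_cancel, s.lo j le_rfl]
      have f1 : al T (w k) (w (k + 1)) (w j) (w (k - 1)) B = al T (w k) (w j) (w (k + 1)) (w (k - 1)) B := by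
        unfold al
        rw [T.as1]
      have f2 : al T (w k) (w (k + 1)) (w (k - 1)) (w j) B = al T (w k) (w (k - 1)) (w (k + 1)) (w j) B := by
        unfold al
        rw [T.as1]
      rw [f2] at e2
      rw [f1]
      exact al_rem (h.ne_w (by omega) (by omega) (by omega)) (h.ne_w (by omega) (by omega) (by omega))
        (h.ne_w (by omega) (by omega) (by omega)) (h.offB _ (by omega)).symm
        (h.ne_w (by omega) (by omega) (by omega)) (h.ne_w (by omega) (by omega) (by omega))
        (h.ne_w (by omega) (by omega) (by omega)) (h.offB _ (by omega)).symm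
        (h.offB _ (by omega)).symm (h.offB _ (by omega)).symm e3 e2
    · have e1 := h'.rf_ray (i := j) (z := w (j + 1)) hj (by omega)
        (off_sh h s (by omega) (by omega))
        (by rw [s.bot, s.lo j le_rfl]; exact h.unc j (by omega))
        (by rw [s.top, s.lo j le_rfl]; exact h.und j (by omega))
      have m1 := mis_sh h hN s (t := j) (by omega)
      rw [s.lo j le_rfl, asum_unc (fun i _ hi => m1 i hi), add_zero] at e1
      rw [← e1]
      have e2 := hN.l hj
      have e3 := rs_three h hN h' s (w j)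
      rw [at_j h hN hj] at e3
      unfold rf at e2 ⊢
      rw [s.lo j le_rfl, s.mid, s.lo (j - 1) (by omega)]
      exact al_rem (h.ne_w (by omega) (by omega) (by omega)) (h.ne_w (by omega) (by omega) (by omega))
        (h.ne_w (by omega) (by omega) (by omega)) (h.offB _ (by omega)).symm
        (h.ne_w (by omega) (by omega) (by omega)) (h.ne_w (by omega) (by omega) (by omega))
        (h.ne_w (by omega) (by omega) (by omega)) (h.offB _ (by omega)).symm
        (h.offB _ (by omega)).symm (h.offB _ (by omega)).symm e3 e2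
  intro t h1 h2
  have e := const (t - (j + 1)) (by omega)
  rw [show j + 1 + (t - (j + 1)) = t by omega] at e
  rw [e, base]

/-- the path is not in the small triangle -/
private theorem inn_path (h : Room T w p A B) (hg : Mis T w p (w 0) (w p))
    (h1 : inn T (w 0) B (w p) A (w 1) = false) :
    ∀ i, 0 < i → i < p → inn T (w 0) B (w p) A (w i) = false := by
  intro i
  induction i with
  | zero => intro h3; omega
  | succ i ih =>
    intro _ h3
    by_cases i0 : i = 0
    · subst i0; exact h1
    have h4 := ih (by omega) (by omega)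
    have h5 := h.rcl (x := w i) (y := w (i + 1)) (h.ne_w (by omega) (by omega) (by omega))
      (h.ne_w (by omega) (by omega) (by omega)) (h.ne_w (by omega) (by omega) (by omega))
      (h.ne_w (by omega) (by omega) (by omega)) (h.ne_w (by omega) (by omega) (by omega))
      (h.unc i (by omega)) (h.und i (by omega))
    have h6 : x4 T (w i) (w (i + 1)) (w p) (w 0) = 0 := by
      rw [x4_4, x4_1]
      unfold x4
      rw [hg i (by omega)]
      rfl
    rw [h6, h4, z2_false, zero_add] at h5
    cases h7 : inn T (w 0) B (w p) A (w (i + 1)) with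
    | false => rfl
    | true =>
      rw [h7] at h5
      exact absurd h5 (by decide)

private theorem Sh.ixw (s : Sh w w' p p' j k) (i : ℕ) : w' i = w (ix j k i) := by
  have g1 := s.jk
  rcases Nat.lt_or_ge j i with h4 | h4
  · obtain ⟨t, rfl⟩ : ∃ t, i = t + (j + 1) := ⟨i - (j + 1), by omega⟩
    rw [s.hi, ix_hi h4, show t + (j + 1) + (k - j - 1) = t + k by omega]
  · rw [s.lo i h4, ix_lo h4]

private theorem ch_inn (h : Room T w p A B) (hN : NCh T w p A B j k) (h0 : 0 < j ∨ k < p)
    (h' : Room T w' p' A B) (s : Sh w w' p p' j k) (hc : NCh T w' p' A B 0 p') :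
    ∀ t, j < t → t < k → inn T (w 0) B (w p) A (w t) = false := by
  intro t h1 h2
  cases hq : inn T (w 0) B (w p) A (w t) with
  | false => rfl
  | true =>
    exfalso
    rw [← s.bot, ← s.top] at hq
    have e1 := sep_g h' hc.mis (hc.g rfl rfl) (off_sh h s h1 h2) hq
    rw [rem0 h hN h0 h' s t h1 h2] at e1
    exact absurd e1 (by decide)

/-- (d) a removed ray meets no chord with an inner end -/
private theorem no_ray (h' : Room T w' p' A B) {x y : ℕ} (hc : NCh T w' p' A B x y) (hxy : 0 < x ∨ y < p')
    {R R' : V} (hR : ∀ i ≤ p', w' i ≠ R) (hm : Mis T w' p' R R') (mc : T.X R R' (w' 0) B = false)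
    (md : T.X R R' (w' p') A = false) (h0 : rs T w' p' A B R = 0) :
    T.X (w' x) (w' y) R R' = false := by
  have g1 := hc.lt
  have g2 := hc.le
  cases hq : T.X (w' x) (w' y) R R' with
  | false => rfl
  | true =>
    exfalso
    by_cases x0 : 0 < x
    · have e1 := rsep_one h' (i := x) (v := w' y) x0 (by omega) hR (by rw [T.xs4]; exact hq) hm mc md hc.mis
        (by rw [T.xs4]; exact hc.mc) (by rw [T.xs4]; exact hc.md)
        (h'.ne_w (by omega) (by omega) (by omega)) (h'.ne_w (by omega) (by omega) (by omega))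
      rw [h0, hc.l x0] at e1
      exact absurd e1 (by decide)
    · have yp : y < p' := by omega
      have e1 := rsep_one h' (i := y) (v := w' x) (by omega) yp hR (by rw [T.xs4, T.xs1]; exact hq) hm mc md
        (fun t ht => by rw [T.xs1]; exact hc.mis t ht)
        (by rw [T.xs4, T.xs2]; exact hc.mc) (by rw [T.xs4, T.xs2]; exact hc.md)
        (h'.ne_w (by omega) (by omega) (by omega)) (h'.ne_w (by omega) (by omega) (by omega))
      rw [h0, hc.r yp] at e1
      exact absurd e1 (by decide)

/-- (d) the chords of the shorter room miss the removed edges -/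
private theorem ch_rem (h : Room T w p A B) (hN : NCh T w p A B j k) (h0 : 0 < j ∨ k < p)
    (h' : Room T w' p' A B) (s : Sh w w' p p' j k) {x y : ℕ} (hc : NCh T w' p' A B x y) :
    ∀ t, j ≤ t → t < k → T.X (w' x) (w' y) (w t) (w (t + 1)) = false := by
  have g1 := s.jk
  have g2 := s.kp
  have g3 := s.pp
  have g4 := hc.lt
  have g5 := hc.le
  intro t h1 h2
  have m1 := mis_sh h hN s (t := t) (by omega)
  by_cases hxy : 0 < x ∨ y < p'
  · rcases Nat.lt_or_ge j t with h3 | h3
    · exact no_ray h' hc hxy (off_sh h s h3 h2) m1 (by rw [s.bot, T.xs4]; exact h.unc t (by omega))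
        (by rw [s.top, T.xs4]; exact h.und t (by omega)) (rem0 h hN h0 h' s t h3 h2)
    · rw [T.xs2]
      exact no_ray h' hc hxy (off_sh h s (by omega) (by omega)) (fun i hi => by rw [T.xs1]; exact m1 i hi)
        (by rw [s.bot, T.xs4, T.xs2]; exact h.unc t (by omega))
        (by rw [s.top, T.xs4, T.xs2]; exact h.und t (by omega)) (rem0 h hN h0 h' s (t + 1) (by omega) (by omega))
  · obtain rfl : x = 0 := by omega
    obtain rfl : y = p' := by omega
    rw [s.bot, s.top]
    by_cases t0 : t = 0
    · subst t0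
      exact adjf T _ _ _
    by_cases tp : t + 1 = p
    · rw [tp, T.xs1, T.xs2]
      exact adjf T _ _ _
    have q1 : inn T (w 0) B (w p) A (w t) = false := by
      rcases Nat.lt_or_ge j t with h3 | h3
      · exact ch_inn h hN h0 h' s hc t h3 h2
      · obtain rfl : t = j := by omega
        have e := inn_path h' hc.mis (hc.g rfl rfl) t (by omega) (by omega)
        rw [s.bot, s.top, s.lo t le_rfl] at e
        exact e
    have q2 : inn T (w 0) B (w p) A (w (t + 1)) = false := by
      rcases Nat.lt_or_ge (t + 1) k with h3 | h3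
      · exact ch_inn h hN h0 h' s hc (t + 1) (by omega) h3
      · obtain rfl : t + 1 = k := by omega
        have e := inn_path h' hc.mis (hc.g rfl rfl) (j + 1) (by omega) (by omega)
        rw [s.bot, s.top, s.mid] at e
        exact e
    have e := h.rcl (x := w t) (y := w (t + 1)) (h.ne_w (by omega) (by omega) (by omega))
      (h.ne_w (by omega) (by omega) (by omega)) (h.ne_w (by omega) (by omega) (by omega))
      (h.ne_w (by omega) (by omega) (by omega)) (h.ne_w (by omega) (by omega) (by omega))
      (h.unc t (by omega)) (h.und t (by omega))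
    rw [q1, q2, z2_false, add_zero, x4_4, x4_1] at e
    unfold x4 at e
    cases hq : T.X (w 0) (w p) (w t) (w (t + 1)) with
    | false => rfl
    | true =>
      rw [hq] at e
      exact absurd e (by decide)

private theorem sh_nch (h : Room T w p A B) (hN : NCh T w p A B j k) (h0 : 0 < j ∨ k < p)
    (h' : Room T w' p' A B) (s : Sh w w' p p' j k) {x y : ℕ} (hc : NCh T w' p' A B x y) :
    NCh T w p A B (ix j k x) (ix j k y) := by
  have g1 := s.jk
  have g2 := s.kp
  have g3 := s.pp
  have g4 := hc.lt
  have g5 := hc.le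
  have a1 : ix j k x + 2 ≤ ix j k y := by
    unfold ix
    split_ifs <;> omega
  have a2 : ix j k y ≤ p := by
    unfold ix
    split_ifs <;> omega
  refine ⟨a1, a2, ?_, ?_, ?_, ?_, ?_, ?_⟩
  · intro t ht
    rw [← s.ixw x, ← s.ixw y]
    rcases Nat.lt_or_ge t j with h1 | h1
    · have e := hc.mis t (by omega)
      rw [s.lo t h1.le, s.lo (t + 1) h1] at e
      exact e
    · rcases Nat.lt_or_ge t k with h2 | h2
      · exact ch_rem h hN h0 h' s hc t h1 h2
      · obtain ⟨r, rfl⟩ : ∃ r, t = r + k := ⟨t - k, by omega⟩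
        have e := hc.mis (r + (j + 1)) (by omega)
        have e2 := s.hi (r + 1)
        rw [show r + 1 + (j + 1) = r + (j + 1) + 1 by omega, show r + 1 + k = r + k + 1 by omega] at e2
        rw [s.hi r, e2] at e
        exact e
  · rw [← s.ixw x, ← s.ixw y, ← s.bot]
    exact hc.mc
  · rw [← s.ixw x, ← s.ixw y, ← s.top]
    exact hc.md
  · intro i0
    have x0 : 0 < x := by
      unfold ix at i0
      split_ifs at i0 <;> omega
    apply rf_sh h hN h' s x0 (by omega)
    · exact h.ne_w a2 (by omega) (by omega)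
    · rw [← s.ixw y]; exact h'.ne_w (by omega) (by omega) (by omega)
    · rw [← s.ixw y]; exact h'.ne_w (by omega) (by omega) (by omega)
    · exact h.ne_w a2 (by omega) (by omega)
    · exact h.ne_w a2 (by omega) (by omega)
    · rw [← s.ixw y]; exact hc.l x0
  · intro ip
    have yp : y < p' := by
      unfold ix at ip
      split_ifs at ip <;> omega
    apply rf_sh h hN h' s (by omega) yp
    · exact h.ne_w (by omega) a2 (by omega)
    · rw [← s.ixw x]; exact h'.ne_w (by omega) (by omega) (by omega)
    · rw [← s.ixw x]; exact h'.ne_w (by omega) (by omega) (by omega)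
    · exact h.ne_w (by omega) (by omega) (by omega)
    · exact h.ne_w (by omega) (by omega) (by omega)
    · rw [← s.ixw x]; exact hc.r yp
  · intro i0 ip
    have x0 : x = 0 := by
      unfold ix at i0
      split_ifs at i0 <;> omega
    have yp : y = p' := by
      unfold ix at ip
      split_ifs at ip <;> omega
    subst x0
    subst yp
    rcases Nat.eq_zero_or_pos j with hj | hj
    · exact ch_inn h hN h0 h' s hc 1 (by omega) (by omega)
    · have e := hc.g rfl rfl
      rw [s.bot, s.top, s.lo 1 hj] at e
      exact e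

end

/-- (T1) the shorter room -/
theorem short_room (h : Room T w p A B) {j k : ℕ} (hN : NCh T w p A B j k) (h0 : 0 < j ∨ k < p) :
    Room T (fun t => w (ix j k t)) (p - (k - j - 1)) A B :=
  sh_room h hN h0 (sh_ix hN.lt hN.le)

/-- (T1) its chords are chords -/
theorem short_nch (h : Room T w p A B) {j k : ℕ} (hN : NCh T w p A B j k) (h0 : 0 < j ∨ k < p) {x y : ℕ}
    (hc : NCh T (fun t => w (ix j k t)) (p - (k - j - 1)) A B x y) : NCh T w p A B (ix j k x) (ix j k y) :=
  sh_nch h hN h0 (short_room h hN h0) (sh_ix hN.lt hN.le) hc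

/-! ## (G3), (G4): crossings of chords, the converse of `short_nch` -/

section

variable {w' : ℕ → V} {p' j k : ℕ}

/-- two vertices off the closed arc -/
private theorem oo_two (h : Room T w p A B) (hN : NCh T w p A B j k) {s t : ℕ} (hs : s ≤ p) (ht : t ≤ p)
    (h1 : s < j ∨ k < s) (h2 : t < j ∨ k < t) : pc T (oo w j k) (w s) (w t) = 0 := by
  have w1 : ∀ s, s ≤ p → (s < j ∨ k < s) → pc T (oo w j k) (w s) B = 0 := by
    intro s hs h1
    rcases h1 with h1 | h1
    · exact walk_lo h hN s h1
    · exact walk_hi h hN (p - s) s h1 (by omega)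
  have e := pc_co (oclo h hN) (ow h hN hs h1) (ow h hN ht h2) (oB h hN) (T := T)
  rw [w1 s hs h1, w1 t ht h2, add_zero] at e
  exact e.symm

private theorem onbm (h : Room T w p A B) (hN : NCh T w p A B j k) {x : ℕ} (h1 : j < x) (h2 : x < k) :
    Nb (oo w j k) (w x) (w (x + 1)) (w (x - 1)) := by
  have g1 := hN.lt
  have h3 := (oper h hN).nb (x - j)
  unfold oo
  rw [re_eq]
  rw [wc_of (by omega), wc_of (by omega), show x - j + (k - j + 1) - 1 = (x - j - 1) + (k - j + 1) by omega,
    (oper h hN).per, wc_of (by omega)] at h3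
  rw [show j + (x - j) = x by omega, show j + (x - j + 1) = x + 1 by omega,
    show j + (x - j - 1) = x - 1 by omega] at h3
  exact h3

end

/-- (G3) chords which do not interleave do not cross -/
theorem nch_nox (h : Room T w p A B) {i j x y : ℕ} (hN : NCh T w p A B i j) (hM : NCh T w p A B x y)
    (hx : x ≤ i ∨ j ≤ x) (hy : y ≤ i ∨ j ≤ y) : T.X (w i) (w j) (w x) (w y) = false := by
  have g1 := hN.lt
  have g2 := hN.le
  have g3 := hM.lt
  have g4 := hM.le
  cases hq : T.X (w i) (w j) (w x) (w y) with
  | false => rfl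
  | true =>
    exfalso
    obtain ⟨_, _, n1, n2, n3, n4⟩ := T.ne _ _ _ _ hq
    have m1 : i ≠ x := fun e => n1 (by rw [e])
    have m2 : i ≠ y := fun e => n2 (by rw [e])
    have m3 : j ≠ x := fun e => n3 (by rw [e])
    have m4 : j ≠ y := fun e => n4 (by rw [e])
    have e1 := oo_two h hN (s := x) (t := y) (by omega) g4 (by omega) (by omega)
    rw [opc h hN, asum_unc (fun t _ ht => hM.mis t (by omega)), zero_add, x4_4, x4_1] at e1
    unfold x4 at e1
    rw [hq] at e1
    exact absurd e1 (by decide)

/-- (G3) interleaving chords cross -/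
theorem nch_cross (h : Room T w p A B) {i j x y : ℕ} (hN : NCh T w p A B i j) (hM : NCh T w p A B x y)
    (h1 : i < x) (h2 : x < j) (h3 : j < y) : T.X (w i) (w j) (w x) (w y) = true := by
  have g1 := hN.lt
  have g2 := hN.le
  have g3 := hM.lt
  have g4 := hM.le
  have h0 : 0 < i ∨ j < p := Or.inr (by omega)
  have s : Sh w (fun t => w (ix i j t)) p (p - (j - i - 1)) i j := sh_ix hN.lt hN.le
  have h' := short_room h hN h0
  have e1 := rem0 h hN h0 h' s x h1 h2
  have e2 := rs_three h hN h' s (w x)
  rw [e1, zero_add] at e2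
  have e3 := pc_one' (oclo h hN) (onbm h hN h1 h2) (h.ne_w (by omega) (by omega) (by omega) : w x ≠ w y)
    (h.offB x (by omega)) (ow h hN g4 (Or.inr h3)) (oB h hN) (olpl h hN) (T := T)
  rw [walk_hi h hN (p - y) y h3 (by omega), add_zero, ← e2] at e3
  have e4 := hM.l (by omega)
  unfold rf at e4
  rw [opc h hN, asum_unc (fun t _ ht => hM.mis t (by omega)), zero_add, x4_4, x4_1] at e3
  have e5 : x4 T (w i) (w j) (w x) (w y) = 1 := by
    linear_combination (norm := (ring_nf; reduce_mod_char)) e3 + e4
  unfold x4 at e5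
  cases hq : T.X (w i) (w j) (w x) (w y) with
  | true => rfl
  | false =>
    rw [hq] at e5
    exact absurd e5 (by decide)

/-- (G3) -/
theorem nch_iff (h : Room T w p A B) {i j x y : ℕ} (hN : NCh T w p A B i j) (hM : NCh T w p A B x y) :
    T.X (w i) (w j) (w x) (w y) = true ↔ (i < x ∧ x < j ∧ j < y) ∨ (x < i ∧ i < y ∧ y < j) := by
  have g1 := hN.lt
  have g3 := hM.lt
  constructor
  · intro hq
    by_contra hcon
    by_cases c1 : (x ≤ i ∨ j ≤ x) ∧ (y ≤ i ∨ j ≤ y)
    · rw [nch_nox h hN hM c1.1 c1.2] at hq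
      cases hq
    · have c2 : (i ≤ x ∨ y ≤ i) ∧ (j ≤ x ∨ y ≤ j) := by omega
      rw [T.xs4, nch_nox h hM hN (by omega) (by omega)] at hq
      cases hq
  · rintro (⟨h1, h2, h3⟩ | ⟨h1, h2, h3⟩)
    · exact nch_cross h hN hM h1 h2 h3
    · rw [T.xs4]
      exact nch_cross h hM hN h1 h2 h3

section

variable {w' : ℕ → V} {p' j k : ℕ}

/-- start sides of chords agree -/
private theorem rf_sh2 (h : Room T w p A B) (hN : NCh T w p A B j k) (h' : Room T w' p' A B)
    (s : Sh w w' p p' j k) {i t : ℕ} (i0 : 0 < i) (ip : i < p') (ht : t ≤ p)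
    (hi : t + 2 ≤ ix j k i ∨ ix j k i + 2 ≤ t) (h2 : i = j ∨ i = j + 1 → t < j ∨ k < t)
    (hm : Mis T w p (w (ix j k i)) (w t)) : rf T w' p' A B i (w t) = rf T w p A B (ix j k i) (w t) := by
  have g1 := s.jk
  have g2 := s.kp
  have g3 := s.pp
  rcases lt_trichotomy i j with h4 | h4 | h4
  · rw [ix_lo h4.le]
    have e1 := rs_three h hN h' s (w i)
    rw [walk_lo h hN i h4] at e1
    unfold rf
    rw [s.lo i h4.le, s.lo (i + 1) h4, s.lo (i - 1) (by omega)]
    linear_combination (norm := (ring_nf; reduce_mod_char)) e1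
  · subst h4
    have h3 := h2 (Or.inl rfl)
    rw [ix_lo le_rfl] at hi hm ⊢
    have e1 := rs_three h hN h' s (w i)
    rw [at_j h hN i0] at e1
    have e2 := al5 (T := T) (u := w i) (a := w (i + 1)) (k := w k) (b := w (i - 1)) (v := w t) (B := B)
      (h.ne_w (by omega) (by omega) (by omega)) (h.ne_w (by omega) (by omega) (by omega))
      (h.ne_w (by omega) (by omega) (by omega)) (h.ne_w (by omega) (by omega) (by omega))
      (h.offB _ (by omega)).symm
      (h.ne_w (by omega) (by omega) (by omega)) (h.ne_w (by omega) (by omega) (by omega))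
      (h.ne_w (by omega) (by omega) (by omega)) (h.ne_w (by omega) (by omega) (by omega))
      (h.ne_w (by omega) (by omega) (by omega)) (h.ne_w (by omega) (by omega) (by omega))
      (h.offB _ (by omega)).symm (h.offB _ (by omega)).symm (h.offB _ (by omega)).symm
    have e3 := pc_one' (oclo h hN) (onbj h hN) (h.ne_w (by omega) (by omega) (by omega) : w i ≠ w (i - 1))
      (h.ne_w (by omega) (by omega) (by omega) : w i ≠ w t)
      (ow h hN (by omega : i - 1 ≤ p) (Or.inl (by omega))) (ow h hN ht h3) (olpl h hN) (T := T)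
    have e4 := oedge h hN (by omega : i - 1 < p)
    rw [show i - 1 + 1 = i by omega, pc_symm] at e4
    have e5 : pc T (oo w i k) (w i) (w t) = 0 := by
      rw [opc h hN, asum_unc (fun t' _ ht' => hm t' (by omega)), zero_add, x4_adj2]
    rw [e4, e5, oo_two h hN (by omega) ht (Or.inl (by omega)) h3, add_zero, add_zero] at e3
    unfold rf
    rw [s.lo i le_rfl, s.mid, s.lo (i - 1) (by omega)]
    linear_combination (norm := (ring_nf; reduce_mod_char)) e1 + e2 + e3
  · rw [ix_hi h4] at hi hm ⊢
    by_cases h5 : i = j + 1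
    · subst h5
      have h3 := h2 (Or.inr rfl)
      have kp : k < p := by omega
      rw [show j + 1 + (k - j - 1) = k by omega] at hi hm ⊢
      have e1 := rs_three h hN h' s (w k)
      rw [at_k h hN kp] at e1
      have e5 := s.hi 1
      rw [show 1 + (j + 1) = j + 1 + 1 by omega, show 1 + k = k + 1 by omega] at e5
      have e2 := al5 (T := T) (u := w k) (a := w (k - 1)) (k := w j) (b := w (k + 1)) (v := w t) (B := B)
        (h.ne_w (by omega) (by omega) (by omega)) (h.ne_w (by omega) (by omega) (by omega))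
        (h.ne_w (by omega) (by omega) (by omega)) (h.ne_w (by omega) (by omega) (by omega))
        (h.offB _ (by omega)).symm
        (h.ne_w (by omega) (by omega) (by omega)) (h.ne_w (by omega) (by omega) (by omega))
        (h.ne_w (by omega) (by omega) (by omega)) (h.ne_w (by omega) (by omega) (by omega))
        (h.ne_w (by omega) (by omega) (by omega)) (h.ne_w (by omega) (by omega) (by omega))
        (h.offB _ (by omega)).symm (h.offB _ (by omega)).symm (h.offB _ (by omega)).symm
      have e3 := pc_one' (oclo h hN) (onbk h hN) (h.ne_w (by omega) (by omega) (by omega) : w k ≠ w (k + 1))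
        (h.ne_w (by omega) (by omega) (by omega) : w k ≠ w t)
        (ow h hN (by omega : k + 1 ≤ p) (Or.inr (by omega))) (ow h hN ht h3) (olpl h hN) (T := T)
      have e6 : pc T (oo w j k) (w k) (w t) = 0 := by
        rw [opc h hN, asum_unc (fun t' _ ht' => hm t' (by omega)), zero_add, x4_adj1]
      rw [oedge h hN kp, e6, oo_two h hN (by omega) ht (Or.inr (by omega)) h3, add_zero, add_zero] at e3
      have f1 : al T (w k) (w (k + 1)) (w j) (w t) B = al T (w k) (w j) (w (k + 1)) (w t) B := by
        unfold al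
        rw [T.as1]
      have f2 : al T (w k) (w (k + 1)) (w (k - 1)) (w t) B = al T (w k) (w (k - 1)) (w (k + 1)) (w t) B := by
        unfold al
        rw [T.as1]
      unfold rf
      rw [s.mid, e5, Nat.add_sub_cancel, s.lo j le_rfl, f1, f2]
      linear_combination (norm := (ring_nf; reduce_mod_char)) e1 + e2 + e3
    · obtain ⟨r, rfl⟩ : ∃ r, i = r + 1 + (j + 1) := ⟨i - (j + 2), by omega⟩
      rw [show r + 1 + (j + 1) + (k - j - 1) = r + 1 + k by omega]
      have e1 := rs_three h hN h' s (w (r + 1 + k))
      rw [walk_hi h hN (p - (r + 1 + k)) (r + 1 + k) (by omega) (by omega)] at e1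
      have e5 := s.hi (r + 1)
      have e6 := s.hi (r + 2)
      have e7 := s.hi r
      rw [show r + 2 + (j + 1) = r + 1 + (j + 1) + 1 by omega, show r + 2 + k = r + 1 + k + 1 by omega] at e6
      rw [show r + (j + 1) = r + 1 + (j + 1) - 1 by omega, show r + k = r + 1 + k - 1 by omega] at e7
      unfold rf
      rw [e5, e6, e7]
      linear_combination (norm := (ring_nf; reduce_mod_char)) e1

private theorem sh_nch' (h : Room T w p A B) (hN : NCh T w p A B j k) (h0 : 0 < j ∨ k < p)
    (h' : Room T w' p' A B) (s : Sh w w' p p' j k) {x y : ℕ} (hxy : x + 2 ≤ y)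
    (hc : NCh T w p A B (ix j k x) (ix j k y)) : NCh T w' p' A B x y := by
  have g1 := s.jk
  have g2 := s.kp
  have g3 := s.pp
  have g4 := hc.lt
  have g5 := hc.le
  have a1 : y ≤ p' := by
    unfold ix at g5
    split_ifs at g5 <;> omega
  have a2 : ∀ i, ix j k i ≤ j ∨ k ≤ ix j k i := by
    intro i
    unfold ix
    split_ifs <;> omega
  have a3 : ∀ i, j < i → ix j k i = i + (k - j - 1) := fun i hi => ix_hi hi
  have a4 : ∀ i, i ≤ j → ix j k i = i := fun i hi => ix_lo hi
  have mis' : Mis T w p (w (ix j k y)) (w (ix j k x)) := fun t ht => by rw [T.xs1]; exact hc.mis t ht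
  refine ⟨hxy, a1, ?_, ?_, ?_, ?_, ?_, ?_⟩
  · rw [s.ixw x, s.ixw y]
    refine s.edge (P := fun a b => T.X (w (ix j k x)) (w (ix j k y)) a b = false) ?_ ?_
    · rw [T.xs4]
      exact nch_nox h hN hc (a2 x) (a2 y)
    · intro t ht _
      exact hc.mis t ht
  · rw [s.ixw x, s.ixw y, s.bot]
    exact hc.mc
  · rw [s.ixw x, s.ixw y, s.top]
    exact hc.md
  · intro x0
    rw [s.ixw y]
    rw [rf_sh2 h hN h' s x0 (by omega) g5 (Or.inr g4) ?_ hc.mis]
    · apply hc.l
      rcases Nat.lt_or_ge j x with q | q
      · rw [a3 x q]; omega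
      · rw [a4 x q]; omega
    · intro q
      rw [a3 y (by omega)]
      omega
  · intro yp
    rw [s.ixw x]
    rw [rf_sh2 h hN h' s (by omega) yp (by omega) (Or.inl g4) ?_ mis']
    · apply hc.r
      rcases Nat.lt_or_ge j y with q | q
      · rw [a3 y q]; omega
      · rw [a4 y q]; omega
    · intro q
      rw [a4 x (by omega)]
      omega
  · intro x0 yp
    subst x0
    subst yp
    have b1 : ix j k 0 = 0 := a4 0 (Nat.zero_le _)
    have b2 : ix j k y = p := by
      rw [a3 y (by omega)]
      omega
    rw [b1, b2] at hc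
    rw [s.bot, s.top]
    rcases Nat.eq_zero_or_pos j with hj | hj
    · subst hj
      have e := s.mid
      rw [Nat.zero_add] at e
      rw [e]
      exact inn_path h hc.mis (hc.g rfl rfl) k (by omega) (by omega)
    · rw [s.lo 1 hj]
      exact hc.g rfl rfl

end

/-- (G4) the converse of `short_nch` -/
theorem short_nch' (h : Room T w p A B) {j k : ℕ} (hN : NCh T w p A B j k) (h0 : 0 < j ∨ k < p) {x y : ℕ}
    (hxy : x + 2 ≤ y) (hc : NCh T w p A B (ix j k x) (ix j k y)) :
    NCh T (fun t => w (ix j k t)) (p - (k - j - 1)) A B x y :=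
  sh_nch' h hN h0 (short_room h hN h0) (sh_ix hN.lt hN.le) hxy hc

end H36L
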