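import Pool.Agent.Lib.H36L.NR

/-!
# H36L, file Rules: the three rules for chords of a path with a corner

`h : Room T w p A B`. A chord: an edge `(w s)(w t)`, `s + 2 ≤ t ≤ p`, which misses the path (it may cross `c` and `d`).
`sd i z`: the side of the ray `w i → z` (`1`: in the room), `0 ≤ i ≤ p`.

* `rule_R`: `s < x < t < y`: the two inner ends are on different sides;
* `rule_NE`: a chord strictly inside another chord has both ends on the same side;
* `rule_CM`, `rule_CM'`: two chords with a common end.
-/

set_option autoImplicit false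
set_option linter.unusedSectionVars false
set_option linter.unusedVariables false

namespace H36L

open H53P H30P H10S Finset

variable {V : Type*} [DecidableEq V] {T : Table V} {w : ℕ → V} {p : ℕ} {A B : V}

/-- the side of the ray `w i → z` -/
def sd (T : Table V) (w : ℕ → V) (p : ℕ) (A B : V) (i : ℕ) (z : V) : ZMod 2 :=
  if i = 0 then asum T w (w 0) A 0 p + al T (w 0) (w 1) B z A
  else if i = p then asum T w (w p) B 0 p + al T (w p) (w (p - 1)) A z B
  else rf T w p A B i z

theorem sd_in {i : ℕ} (h1 : 0 < i) (h2 : i < p) (z : V) : sd T w p A B i z = rf T w p A B i z := by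
  unfold sd
  rw [if_neg (by omega), if_neg (by omega)]

namespace Pol

variable {x m : ℕ} (h : Pol T w p A B x m)

include h

/-- room side and polygon side of a ray -/
theorem rfp {t : ℕ} (h1 : x < t) (h2 : t < x + m) (v : V) : rf T w p A B t v =
    pfl T (sub w x (m + 1)) (m + 1) B (t - x) v + DD T w p A B (E2 w x m) t := by
  unfold rf pfl DD E2
  rw [sub_of (by omega), sub_of (by omega), show t - x + (m + 1) - 1 = (t - x - 1) + (m + 1) by omega, sub_pe,
    sub_of (by omega), show x + (t - x) = t by omega, show x + (t - x + 1) = t + 1 by omega,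
    show x + (t - x - 1) = t - 1 by omega]
  have e := two_z (pc T (pe (sub w x (m + 1)) (m + 1)) (w t) B)
  linear_combination -e

/-- the side at the upper end of the polygon -/
theorem high (hz : x + m ≤ p) : pfl T (sub w x (m + 1)) (m + 1) B m (w (x + m + 1)) +
    DD T w p A B (E2 w x m) (x + m - 1) + rf T w p A B (x + m) (w x) = 1 := by
  have h2 := h.m2
  have e1 := h.i1 hz
  have e2 := al_rot (T := T) (u := w (x + m)) (a := w (x + m + 1)) (b := w x) (y := w (x + m - 1)) (z := B)
    (h.ne (by omega) (by omega) (by omega)) (h.ne (by omega) (by omega) (by omega))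
    (h.ne (by omega) (by omega) (by omega)) (h.neB (by omega)).symm (h.ne (by omega) (by omega) (by omega))
    (h.ne (by omega) (by omega) (by omega)) (h.neB (by omega)) (h.ne (by omega) (by omega) (by omega))
    (h.neB (by omega)) (h.neB (by omega))
  unfold pfl rf
  rw [sub_of le_rfl, sub_top, show m + (m + 1) - 1 = (m - 1) + (m + 1) by omega, sub_pe, sub_of (by omega),
    show x + (m - 1) = x + m - 1 by omega]
  rw [al4 T _ (w (x + m + 1)) B] at e2
  have e3 : DD T w p A B (E2 w x m) (x + m) = rs T w p A B (w (x + m)) +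
    pc T (pe (sub w x (m + 1)) (m + 1)) (w (x + m)) B := rfl
  linear_combination e1 + e2 - e3

end Pol

/-- `DD` -/
theorem Ext.pol (h : Ext T w p A B) {s t : ℕ} (h1 : s + 2 ≤ t) (h2 : t ≤ p + 1)
    (hm : ∀ k < p, T.X (w s) (w t) (w k) (w (k + 1)) = false) : Pol T w p A B s (t - s) where
  toExt := h
  m2 := by omega
  le := by omega
  mis k hk := by
    rw [show s + (t - s) = t by omega]
    exact hm k hk

/-- (R) for the long path -/
theorem eR (h : Ext T w p A B) {s x t y : ℕ} (h1 : s < x) (h2 : x < t) (h3 : t < y) (h4 : y ≤ p)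
    (m1 : Mis T w p (w s) (w t)) (m2 : Mis T w p (w x) (w y)) (hX : T.X (w x) (w y) (w s) (w t) = false) :
    rf T w p A B t (w s) + rf T w p A B x (w y) = 1 := by
  have hP := h.pol (s := s) (t := t) (by omega) (by omega) m1
  have e1 := hP.high (by omega)
  have e2 := hP.rfp h1 (by omega) (w y)
  have e3 := hP.c1' (s := x) (t := s + (t - s) - 1) h1 (by omega) (by omega)
  rw [show s + (t - s) = t by omega] at e1 e3
  have e4 := pfl_off hP.per' (h.offB' hP.le) (h.off' hP.le (y := t + 1) (by omega) (by omega)) (t - s) (T := T)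
  have e5 := pfl_off hP.per' (h.offB' hP.le) (h.off' hP.le (y := y) (by omega) (by omega)) (x - s) (T := T)
  rw [sub_of le_rfl, show s + (t - s) = t by omega] at e4
  rw [sub_of (by omega), show s + (x - s) = x by omega] at e5
  have e6 : pc T (pe (sub w s (t - s + 1)) (t - s + 1)) (w t) (w (t + 1)) = 0 := hP.pcz (by omega)
  have e7 : pc T (pe (sub w s (t - s + 1)) (t - s + 1)) (w x) (w y) = 0 := by
    apply pc_unc hP.per'
    apply unc_of
    · intro k k1 k2
      exact m2 k (by omega)
    · rw [show s + (t - s) = t by omega, T.xs2]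
      exact hX
  have e8 := arc_side (T := T) (c := w) hP.clo hP.offB2 (i := t + 1) (j := y) (by omega)
    (fun k k1 k2 => hP.off2 (by omega) (by omega)) (fun k k1 k2 => hP.pcz (by omega))
  unfold E2 at e8
  rw [e2, e3, e5, e7, ← e8]
  rw [e4, e6] at e1
  linear_combination e1

/-- (NE) for the long path -/
theorem eNE (h : Ext T w p A B) {s x y t : ℕ} (h1 : s < x) (h2 : x + 2 ≤ y) (h3 : y < t) (h4 : t ≤ p)
    (m1 : Mis T w p (w s) (w t)) (m2 : Mis T w p (w x) (w y)) (hX : T.X (w x) (w y) (w s) (w t) = false) :
    rf T w p A B x (w y) = rf T w p A B y (w x) := by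
  have hP := h.pol (s := s) (t := t) (by omega) (by omega) m1
  have e2 := hP.rfp h1 (by omega) (w y)
  have e3 := hP.rfp (t := y) (by omega) (by omega) (w x)
  have e4 := hP.c1' (s := x) (t := y) h1 (by omega) (by omega)
  have e5 := pfl_two hP.per' (h.offB' hP.le) (i := x - s) (j := y - s) (by omega) (by omega) (T := T)
  rw [sub_of (by omega), sub_of (by omega), show s + (x - s) = x by omega, show s + (y - s) = y by omega] at e5
  have e7 : pc T (pe (sub w s (t - s + 1)) (t - s + 1)) (w x) (w y) = 0 := by
    apply pc_unc hP.per'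
    apply unc_of
    · intro k k1 k2
      exact m2 k (by omega)
    · rw [show s + (t - s) = t by omega, T.xs2]
      exact hX
  rw [e7] at e5
  have t1 := two_z (pfl T (sub w s (t - s + 1)) (t - s + 1) B (y - s) (w x))
  rw [e2, e3, e4]
  linear_combination e5 - t1

/-- (CM') for the long path -/
theorem eCM (h : Ext T w p A B) {s x t : ℕ} (h1 : s < x) (h2 : x + 2 ≤ t) (h4 : t ≤ p)
    (m1 : Mis T w p (w s) (w t)) (m2 : Mis T w p (w x) (w t))
    (hne : rf T w p A B t (w s) ≠ rf T w p A B t (w x)) : rf T w p A B x (w t) = rf T w p A B t (w x) := by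
  have hP := h.pol (s := s) (t := t) (by omega) (by omega) m1
  have e1 := hP.high (by omega)
  have e2 := hP.rfp h1 (by omega) (w t)
  have e3 := hP.c1' (s := x) (t := s + (t - s) - 1) h1 (by omega) (by omega)
  rw [show s + (t - s) = t by omega] at e1 e3
  have e5 := pfl_two hP.per' (h.offB' hP.le) (i := x - s) (j := t - s) (by omega) (by omega) (T := T)
  rw [sub_of (by omega), sub_of (by omega), show s + (x - s) = x by omega, show s + (t - s) = t by omega] at e5
  have e7 : pc T (pe (sub w s (t - s + 1)) (t - s + 1)) (w x) (w t) = 0 := by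
    apply pc_unc hP.per'
    apply unc_of
    · intro k k1 k2
      exact m2 k (by omega)
    · rw [show s + (t - s) = t by omega]
      exact xa3 T _ _ _
  rw [e7] at e5
  -- alternation at `w t`
  have d1 : w (t + 1) ≠ w t := h.ne (by omega) (by omega) (by omega)
  have d2 : w (t - 1) ≠ w t := h.ne (by omega) (by omega) (by omega)
  have d3 : w x ≠ w t := h.ne (by omega) (by omega) (by omega)
  have d4 : w s ≠ w t := h.ne (by omega) (by omega) (by omega)
  have a1 := al_add (T := T) (u := w t) (a := w (t + 1)) (b := w (t - 1)) (y := w s) (z := w x) (w := B)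
    d1.symm d2.symm (h.ne (by omega) (by omega) (by omega)) d4 (h.ne (by omega) (by omega) (by omega))
    (h.ne (by omega) (by omega) (by omega)) d3 (h.ne (by omega) (by omega) (by omega))
    (h.ne (by omega) (by omega) (by omega)) (h.neB (by omega)).symm (h.neB (by omega)).symm
    (h.neB (by omega)).symm
  have a2 : al T (w t) (w (t + 1)) (w (t - 1)) (w s) (w x) = 1 := by
    rw [← a1]
    have := z2_ne hne
    unfold rf at this
    have t1 := two_z (al T (w t) (w (t + 1)) (w (t - 1)) (w x) B)
    linear_combination this + t1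
  have a3 := al_ex (T := T) (u := w t) (a := w (t - 1)) (b := w (t + 1)) (y := w s) (z := w x) d2 d1 d4 d3
    (h.ne (by omega) (by omega) (by omega)) (h.ne (by omega) (by omega) (by omega))
    (h.ne (by omega) (by omega) (by omega)) (h.ne (by omega) (by omega) (by omega))
    (h.ne (by omega) (by omega) (by omega)) (h.ne (by omega) (by omega) (by omega)) (by rw [al1]; exact a2)
  have a4 := al_add (T := T) (u := w t) (a := w s) (b := w (t - 1)) (y := w (t + 1)) (z := w x) (w := B)
    d4.symm d2.symm (h.ne (by omega) (by omega) (by omega)) d1 (h.ne (by omega) (by omega) (by omega))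
    (h.ne (by omega) (by omega) (by omega)) d3 (h.ne (by omega) (by omega) (by omega))
    (h.ne (by omega) (by omega) (by omega)) (h.neB (by omega)).symm (h.neB (by omega)).symm
    (h.neB (by omega)).symm
  rw [al1] at a3
  rw [a3] at a4
  have b1 : pfl T (sub w s (t - s + 1)) (t - s + 1) B (t - s) (w (t + 1)) =
      pfl T (sub w s (t - s + 1)) (t - s + 1) B (t - s) (w x) := by
    unfold pfl
    rw [sub_of le_rfl, sub_top, show t - s + (t - s + 1) - 1 = (t - s - 1) + (t - s + 1) by omega, sub_pe,
      sub_of (by omega), show s + (t - s) = t by omega, show s + (t - s - 1) = t - 1 by omega]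
    have t1 := two_z (al T (w t) (w s) (w (t - 1)) (w x) B)
    linear_combination a4 - t1
  rw [b1] at e1
  have b2 := z2_ne hne
  have t1 := two_z (pfl T (sub w s (t - s + 1)) (t - s + 1) B (t - s) (w x))
  have t2 := two_z (rf T w p A B t (w x))
  rw [e2, e3]
  linear_combination e5 - t1 + e1 - b2 - t2

/-! ## the rules for a room -/

theorem mis_ex {u v : V} (h : Mis T w p u v) : Mis T (ex w p A) p u v := by
  intro t ht
  rw [ex_of (by omega), ex_of (by omega)]
  exact h t ht

theorem sd_ext (h : Room T w p A B) {t : ℕ} (h1 : 0 < t) (h2 : t ≤ p) (v : V) :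
    rf T (ex w p A) p A B t v = sd T w p A B t v := by
  have h3 := h.two
  by_cases h4 : t = p
  · subst h4
    have h5 := ext_of h
    unfold sd
    rw [if_neg (by omega), if_pos rfl]
    unfold rf
    rw [rs_top h5.room, h5.room.rpc, x4_adj1]
    have e1 : asum T (ex w t A) (ex w t A t) B 0 t = asum T w (w t) B 0 t := by
      unfold asum
      apply sum_congr rfl
      intro k hk
      rw [mem_Ico] at hk
      rw [ex_of le_rfl, ex_of (by omega), ex_of (by omega)]
    rw [e1, ex_of le_rfl, ex_top, ex_of (by omega : t - 1 ≤ t), add_zero, al1]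
  · rw [sd_in h1 (by omega), rf_congr (fun s hs => ex_of hs) (by omega)]

/-- the reversed room -/
theorem sd_rev (h : Room T w p A B) {i : ℕ} (hi : i ≤ p) {z : V} (zi : z ≠ w i) (z1 : 0 < i → i < p → z ≠ w (i + 1))
    (z2' : 0 < i → i < p → z ≠ w (i - 1)) : sd T (rv' w p) p B A (p - i) z = sd T w p A B i z := by
  have h2 := h.two
  by_cases i0 : i = 0
  · subst i0
    unfold sd
    rw [if_neg (by omega), if_pos (by omega), if_pos rfl, asum_rev]
    unfold rv'
    rw [show p - (p - 1) = 1 by omega, Nat.sub_self]
  · by_cases ip : i = p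
    · subst ip
      unfold sd
      rw [if_pos (by omega), if_neg i0, if_pos rfl, asum_rev]
      unfold rv'
      rw [Nat.sub_zero]
    · rw [sd_in (by omega) (by omega), sd_in (by omega) (by omega)]
      exact rev_rf h (by omega) (by omega) zi (z1 (by omega) (by omega)) (z2' (by omega) (by omega))

theorem mis_rev {u v : V} (h : Mis T w p u v) : Mis T (rv' w p) p u v := by
  intro t ht
  unfold rv'
  have := h (p - (t + 1)) (by omega)
  rw [show p - (t + 1) + 1 = p - t by omega] at this
  rw [T.xs2]
  exact this

theorem mis_symm {u v : V} (h : Mis T w p u v) : Mis T w p v u := fun t ht => by rw [T.xs1]; exact h t ht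

/-- (R) two chords with `s < x < t < y`: the inner ends are on different sides -/
theorem rule_R (h : Room T w p A B) {s x t y : ℕ} (h1 : s < x) (h2 : x < t) (h3 : t < y) (h4 : y ≤ p)
    (m1 : Mis T w p (w s) (w t)) (m2 : Mis T w p (w x) (w y)) (hX : T.X (w s) (w t) (w x) (w y) = false) :
    sd T w p A B t (w s) + sd T w p A B x (w y) = 1 := by
  have e := ext_of h
  have hs : ex w p A s = w s := ex_of (by omega)
  have hx : ex w p A x = w x := ex_of (by omega)
  have ht : ex w p A t = w t := ex_of (by omega)
  have hy : ex w p A y = w y := ex_of (by omega)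
  have k := eR e h1 h2 h3 h4 (by rw [hs, ht]; exact mis_ex m1) (by rw [hx, hy]; exact mis_ex m2)
    (by rw [hs, hx, ht, hy, T.xs4]; exact hX)
  rw [sd_ext h (by omega) (by omega), sd_ext h (by omega) (by omega), hs, hy] at k
  exact k

/-- (NE) a chord strictly inside another chord -/
theorem rule_NE (h : Room T w p A B) {s x y t : ℕ} (h1 : s < x) (h2 : x + 2 ≤ y) (h3 : y < t) (h4 : t ≤ p)
    (m1 : Mis T w p (w s) (w t)) (m2 : Mis T w p (w x) (w y)) (hX : T.X (w s) (w t) (w x) (w y) = false) :
    sd T w p A B x (w y) = sd T w p A B y (w x) := by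
  have e := ext_of h
  have hs : ex w p A s = w s := ex_of (by omega)
  have hx : ex w p A x = w x := ex_of (by omega)
  have ht : ex w p A t = w t := ex_of (by omega)
  have hy : ex w p A y = w y := ex_of (by omega)
  have k := eNE e h1 h2 h3 h4 (by rw [hs, ht]; exact mis_ex m1) (by rw [hx, hy]; exact mis_ex m2)
    (by rw [hs, hx, ht, hy, T.xs4]; exact hX)
  rw [sd_ext h (by omega) (by omega), sd_ext h (by omega) (by omega), hx, hy] at k
  exact k

/-- (CM') two chords `(s, t)`, `(x, t)` with the upper end in common, `s < x` -/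
theorem rule_CM' (h : Room T w p A B) {s x t : ℕ} (h1 : s < x) (h2 : x + 2 ≤ t) (h4 : t ≤ p)
    (m1 : Mis T w p (w s) (w t)) (m2 : Mis T w p (w x) (w t))
    (hne : sd T w p A B t (w s) ≠ sd T w p A B t (w x)) : sd T w p A B x (w t) = sd T w p A B t (w x) := by
  have e := ext_of h
  have hs : ex w p A s = w s := ex_of (by omega)
  have hx : ex w p A x = w x := ex_of (by omega)
  have ht : ex w p A t = w t := ex_of (by omega)
  rw [← sd_ext h (by omega) (by omega), ← sd_ext h (by omega) (by omega)] at hne
  have k := eCM e h1 h2 h4 (by rw [hs, ht]; exact mis_ex m1) (by rw [hx, ht]; exact mis_ex m2)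
    (by rw [hs, hx]; exact hne)
  rw [sd_ext h (by omega) (by omega), sd_ext h (by omega) (by omega), hx, ht] at k
  exact k

/-- (CM) two chords `(s, t)`, `(s, y)` with the lower end in common, `y < t` -/
theorem rule_CM (h : Room T w p A B) {s y t : ℕ} (h1 : s + 2 ≤ y) (h2 : y < t) (h4 : t ≤ p)
    (m1 : Mis T w p (w s) (w t)) (m2 : Mis T w p (w s) (w y))
    (hne : sd T w p A B s (w t) ≠ sd T w p A B s (w y)) : sd T w p A B y (w s) = sd T w p A B s (w y) := by
  have ne : ∀ {i j : ℕ}, i ≤ p → j ≤ p → i ≠ j → w i ≠ w j := fun hi hj hij => h.ne_w hi hj hij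
  have r1 := sd_rev h (i := s) (z := w t) (by omega) (ne (by omega) (by omega) (by omega))
    (fun _ _ => ne (by omega) (by omega) (by omega)) (fun _ _ => ne (by omega) (by omega) (by omega))
  have r2 := sd_rev h (i := s) (z := w y) (by omega) (ne (by omega) (by omega) (by omega))
    (fun _ _ => ne (by omega) (by omega) (by omega)) (fun _ _ => ne (by omega) (by omega) (by omega))
  have r3 := sd_rev h (i := y) (z := w s) (by omega) (ne (by omega) (by omega) (by omega))
    (fun _ _ => ne (by omega) (by omega) (by omega)) (fun _ _ => ne (by omega) (by omega) (by omega))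
  have k := rule_CM' (rev_room h) (s := p - t) (x := p - y) (t := p - s) (by omega) (by omega) (by omega)
    (by rw [rv_at (by omega), rv_at (by omega)]; exact mis_rev (mis_symm m1))
    (by rw [rv_at (by omega), rv_at (by omega)]; exact mis_rev (mis_symm m2))
    (by rw [rv_at (by omega), rv_at (by omega), r1, r2]; exact hne)
  rw [rv_at (by omega), rv_at (by omega), r2, r3] at k
  exact k

end H36L
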