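import Pool.Agent.Lib.H36L.DF
import Pool.Agent.Lib.H30P.Pg

/-!
# H36L, file D1: convex polygons with a pole (tools for the DOOR lemma)
-/

set_option autoImplicit false
set_option linter.unusedSectionVars false

namespace H36L

open H53P H30P Finset

variable {V : Type*} {T : Table V} {c : ℕ → V} {n : ℕ} {k : V}

/-- a convex polygon and a point off it -/
structure CvP (T : Table V) (c : ℕ → V) (n : ℕ) (k : V) : Prop extends Per c n where
  cvx : Cvx T c n
  off : ∀ i, c i ≠ k

theorem Per.mod (h : Per c n) (i : ℕ) : c (i % n) = c i := by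
  have h1 : ∀ q, c (i % n + n * q) = c (i % n) := by
    intro q
    induction q with
    | zero => rw [Nat.mul_zero, Nat.add_zero]
    | succ q ih =>
      rw [Nat.mul_succ, ← Nat.add_assoc, h.per, ih]
  have h2 := h1 (i / n)
  rw [Nat.mod_add_div] at h2
  exact h2.symm

theorem Per.pos (h : Per c n) : 0 < n := by
  have := h.three
  omega

theorem Per.eq_iff (h : Per c n) (i j : ℕ) : c i = c j ↔ i % n = j % n := by
  constructor
  · intro h1
    rw [← Per.mod h i, ← Per.mod h j] at h1
    exact h.inj _ (Nat.mod_lt _ (Per.pos h)) _ (Nat.mod_lt _ (Per.pos h)) h1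
  · intro h1
    rw [← Per.mod h i, ← Per.mod h j, h1]

/-- every index has a representative in the window starting at `d` -/
theorem idx (h : Per c n) (d i : ℕ) : ∃ i', i' < n ∧ (i' + d) % n = i % n := by
  refine ⟨(i + (n - d % n)) % n, Nat.mod_lt _ (Per.pos h), ?_⟩
  have h1 : d % n < n := Nat.mod_lt _ (Per.pos h)
  have h2 : (i + (n - d % n)) % n + d ≡ (i + (n - d % n)) + d % n [MOD n] :=
    Nat.ModEq.add (Nat.mod_modEq _ _) (Nat.mod_modEq _ _).symm
  have h3 : (i + (n - d % n)) + d % n = i + n := by omega
  rw [h3] at h2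
  have h4 : i + n ≡ i [MOD n] := by
    unfold Nat.ModEq
    rw [Nat.add_mod_right]
  exact h2.trans h4

theorem Per.shift (h : Per c n) (d : ℕ) : Per (fun m => c (m + d)) n where
  three := h.three
  per := fun k => by
    have e : k + n + d = k + d + n := by omega
    change c (k + n + d) = c (k + d)
    rw [e, h.per]
  inj := fun i hi j hj hij => by
    have h1 : c (i + d) = c (j + d) := hij
    rw [Per.eq_iff h] at h1
    have h2 : i ≡ j [MOD n] := Nat.ModEq.add_right_cancel' d h1
    unfold Nat.ModEq at h2
    rwa [Nat.mod_eq_of_lt hi, Nat.mod_eq_of_lt hj] at h2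

theorem CvP.shift (h : CvP T c n k) (d : ℕ) : CvP T (fun m => c (m + d)) n k where
  toPer := Per.shift h.toPer d
  cvx := fun i j s t h1 h2 h3 h4 =>
    h.cvx (i + d) (j + d) (s + d) (t + d) (by omega) (by omega) (by omega) (by omega)
  off := fun i => h.off (i + d)

/-- points of the polygon in one window -/
theorem cp (h : CvP T c n k) {l : List ℕ} (hl : l.Pairwise (· < ·)) (hb : ∀ i ∈ l, i < n) :
    CP T k (l.map c) := by
  constructor
  · rw [List.nodup_cons]
    constructor
    · intro h1
      obtain ⟨i, -, hi⟩ := List.mem_map.1 h1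
      exact h.off i hi
    · refine List.Nodup.map_on ?_ (hl.imp (fun h => ne_of_lt h))
      intro i hi j hj hij
      exact h.inj i (hb i hi) j (hb j hj) hij
  · intro a b c' d hs
    obtain ⟨l', hl', he⟩ := List.sublist_map_iff.1 hs
    have h1 := hl.sublist hl'
    match l', he with
    | [i, j, s, t], he =>
      simp only [List.map_cons, List.map_nil, List.cons.injEq, and_true] at he
      obtain ⟨rfl, rfl, rfl, rfl⟩ := he
      simp only [List.pairwise_cons, List.mem_cons, List.not_mem_nil, or_false, forall_eq_or_imp,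
        forall_eq, List.Pairwise.nil, and_true, IsEmpty.forall_iff, implies_true] at h1
      have ht := hb t (hl'.subset (by simp))
      exact h.cvx i j s t h1.1.1 h1.2.1.1 h1.2.2 (by omega)

/-- `k` is in the triangle of the vertices `i, a, b` (relative to the other vertices) -/
def Tri (T : Table V) (c : ℕ → V) (k : V) (i a b : ℕ) : Prop :=
  ∀ m, c m ≠ c i → c m ≠ c a → c m ≠ c b → T.crT (c i) (c a) (c b) k (c m) = true

end H36L
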