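import Pool.Agent.Lib.H36L.D1

/-!
# H36L, file D2: the DOOR lemma, the cases
-/

set_option autoImplicit false
set_option linter.unusedSectionVars false
set_option linter.unusedVariables false

namespace H36L

open H53P H30P Finset

variable {V : Type*} {T : Table V} {c : ℕ → V} {n : ℕ} {k : V}

theorem CvP.nee (h : CvP T c n k) {i j : ℕ} (hi : i < n) (hj : j < n) (hij : i ≠ j) : c i ≠ c j :=
  fun h1 => hij (h.inj i hi j hj h1)

theorem CvP.cn (h : CvP T c n k) : c n = c 0 := by
  have := h.per 0
  rwa [Nat.zero_add] at this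


theorem d2_1_c (h : CvP T c n k) {x y v : ℕ}
    (hc : y = 0 ∧ v = x ∧ 1 < v ∧ v < (v + 1) ∧ (v + 1) < n)
    (hw : Tri T c k x 0 1) (h1 : T.X k (c x) (c 0) (c 1) = true)
    (h2 : T.X k (c y) (c v) (c (v + 1)) = true) (h3 : T.X k (c y) (c 0) (c 1) = false) : False := by
  obtain ⟨rfl, rfl, a0, a1, a2⟩ := hc
  exact d2_1_w (cp h (l := [0, 1, v, (v + 1)]) (by simp only [List.pairwise_cons, List.mem_cons, List.not_mem_nil, or_false, forall_eq_or_imp,
      forall_eq, List.Pairwise.nil, and_true, IsEmpty.forall_iff, implies_true] <;> omega) (by simp only [List.pairwise_cons, List.mem_cons, List.not_mem_nil, or_false, forall_eq_or_imp,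
      forall_eq, List.Pairwise.nil, and_true, IsEmpty.forall_iff, implies_true] <;> omega)) (hw _ (h.nee (by omega) (by omega) (by omega)) (h.nee (by omega) (by omega) (by omega)) (h.nee (by omega) (by omega) (by omega))) h1 h2

theorem d2_2_c (h : CvP T c n k) {x y v : ℕ}
    (hc : y = 0 ∧ 1 < x ∧ x < v ∧ v < (v + 1) ∧ (v + 1) < n)
    (hw : Tri T c k x 0 1) (h1 : T.X k (c x) (c 0) (c 1) = true)
    (h2 : T.X k (c y) (c v) (c (v + 1)) = true) (h3 : T.X k (c y) (c 0) (c 1) = false) : False := by
  obtain ⟨rfl, a0, a1, a2, a3⟩ := hc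
  exact d2_2_w (cp h (l := [0, 1, x, v, (v + 1)]) (by simp only [List.pairwise_cons, List.mem_cons, List.not_mem_nil, or_false, forall_eq_or_imp,
      forall_eq, List.Pairwise.nil, and_true, IsEmpty.forall_iff, implies_true] <;> omega) (by simp only [List.pairwise_cons, List.mem_cons, List.not_mem_nil, or_false, forall_eq_or_imp,
      forall_eq, List.Pairwise.nil, and_true, IsEmpty.forall_iff, implies_true] <;> omega)) (hw _ (h.nee (by omega) (by omega) (by omega)) (h.nee (by omega) (by omega) (by omega)) (h.nee (by omega) (by omega) (by omega))) h1 h2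

theorem d2_3_c (h : CvP T c n k) {x y v : ℕ}
    (hc : y = 1 ∧ v = x ∧ 1 < v ∧ v < (v + 1) ∧ (v + 1) < n)
    (hw : Tri T c k x 0 1) (h1 : T.X k (c x) (c 0) (c 1) = true)
    (h2 : T.X k (c y) (c v) (c (v + 1)) = true) (h3 : T.X k (c y) (c 0) (c 1) = false) : False := by
  obtain ⟨rfl, rfl, a0, a1, a2⟩ := hc
  exact d2_3_w (cp h (l := [0, 1, v, (v + 1)]) (by simp only [List.pairwise_cons, List.mem_cons, List.not_mem_nil, or_false, forall_eq_or_imp,
      forall_eq, List.Pairwise.nil, and_true, IsEmpty.forall_iff, implies_true] <;> omega) (by simp only [List.pairwise_cons, List.mem_cons, List.not_mem_nil, or_false, forall_eq_or_imp,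
      forall_eq, List.Pairwise.nil, and_true, IsEmpty.forall_iff, implies_true] <;> omega)) (hw _ (h.nee (by omega) (by omega) (by omega)) (h.nee (by omega) (by omega) (by omega)) (h.nee (by omega) (by omega) (by omega))) h1 h2

theorem d2_4_c (h : CvP T c n k) {x y v : ℕ}
    (hc : y = 1 ∧ 1 < x ∧ x < v ∧ v < (v + 1) ∧ (v + 1) < n)
    (hw : Tri T c k x 0 1) (h1 : T.X k (c x) (c 0) (c 1) = true)
    (h2 : T.X k (c y) (c v) (c (v + 1)) = true) (h3 : T.X k (c y) (c 0) (c 1) = false) : False := by
  obtain ⟨rfl, a0, a1, a2, a3⟩ := hc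
  exact d2_4_w (cp h (l := [0, 1, x, v, (v + 1)]) (by simp only [List.pairwise_cons, List.mem_cons, List.not_mem_nil, or_false, forall_eq_or_imp,
      forall_eq, List.Pairwise.nil, and_true, IsEmpty.forall_iff, implies_true] <;> omega) (by simp only [List.pairwise_cons, List.mem_cons, List.not_mem_nil, or_false, forall_eq_or_imp,
      forall_eq, List.Pairwise.nil, and_true, IsEmpty.forall_iff, implies_true] <;> omega)) (hw _ (h.nee (by omega) (by omega) (by omega)) (h.nee (by omega) (by omega) (by omega)) (h.nee (by omega) (by omega) (by omega))) h1 h2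

theorem d2_5_c (h : CvP T c n k) {x y v : ℕ}
    (hc : y = 1 ∧ v + 1 = n ∧ 1 < x ∧ x < v ∧ v < n)
    (hw : Tri T c k x 0 1) (h1 : T.X k (c x) (c 0) (c 1) = true)
    (h2 : T.X k (c y) (c v) (c (v + 1)) = true) (h3 : T.X k (c y) (c 0) (c 1) = false) : False := by
  obtain ⟨rfl, hvn, a0, a1, a2⟩ := hc
  rw [hvn, h.cn] at h2
  exact d2_5_w (cp h (l := [0, 1, x, v]) (by simp only [List.pairwise_cons, List.mem_cons, List.not_mem_nil, or_false, forall_eq_or_imp,
      forall_eq, List.Pairwise.nil, and_true, IsEmpty.forall_iff, implies_true] <;> omega) (by simp only [List.pairwise_cons, List.mem_cons, List.not_mem_nil, or_false, forall_eq_or_imp,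
      forall_eq, List.Pairwise.nil, and_true, IsEmpty.forall_iff, implies_true] <;> omega)) (hw _ (h.nee (by omega) (by omega) (by omega)) (h.nee (by omega) (by omega) (by omega)) (h.nee (by omega) (by omega) (by omega))) h1 h2

theorem d2_6_c (h : CvP T c n k) {x y v : ℕ}
    (hc : v = 1 ∧ x = 1 + 1 ∧ (1 + 1) < y ∧ y < n)
    (hw : Tri T c k x 0 1) (h1 : T.X k (c x) (c 0) (c 1) = true)
    (h2 : T.X k (c y) (c v) (c (v + 1)) = true) (h3 : T.X k (c y) (c 0) (c 1) = false) : False := by
  obtain ⟨rfl, rfl, a0, a1⟩ := hc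
  exact d2_6_w (cp h (l := [0, 1, (1 + 1), y]) (by simp only [List.pairwise_cons, List.mem_cons, List.not_mem_nil, or_false, forall_eq_or_imp,
      forall_eq, List.Pairwise.nil, and_true, IsEmpty.forall_iff, implies_true] <;> omega) (by simp only [List.pairwise_cons, List.mem_cons, List.not_mem_nil, or_false, forall_eq_or_imp,
      forall_eq, List.Pairwise.nil, and_true, IsEmpty.forall_iff, implies_true] <;> omega)) (hw _ (h.nee (by omega) (by omega) (by omega)) (h.nee (by omega) (by omega) (by omega)) (h.nee (by omega) (by omega) (by omega))) h1 h2 h3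

theorem d2_7_c (h : CvP T c n k) {x y v : ℕ}
    (hc : 1 < x ∧ x < y ∧ y < v ∧ v < (v + 1) ∧ (v + 1) < n)
    (hw : Tri T c k x 0 1) (h1 : T.X k (c x) (c 0) (c 1) = true)
    (h2 : T.X k (c y) (c v) (c (v + 1)) = true) (h3 : T.X k (c y) (c 0) (c 1) = false) : False := by
  obtain ⟨a0, a1, a2, a3, a4⟩ := hc
  exact d2_7_w (cp h (l := [0, 1, x, y, v, (v + 1)]) (by simp only [List.pairwise_cons, List.mem_cons, List.not_mem_nil, or_false, forall_eq_or_imp,
      forall_eq, List.Pairwise.nil, and_true, IsEmpty.forall_iff, implies_true] <;> omega) (by simp only [List.pairwise_cons, List.mem_cons, List.not_mem_nil, or_false, forall_eq_or_imp,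
      forall_eq, List.Pairwise.nil, and_true, IsEmpty.forall_iff, implies_true] <;> omega)) (hw _ (h.nee (by omega) (by omega) (by omega)) (h.nee (by omega) (by omega) (by omega)) (h.nee (by omega) (by omega) (by omega))) h1 h2 h3

theorem d2_8_c (h : CvP T c n k) {x y v : ℕ}
    (hc : v + 1 = n ∧ 1 < x ∧ x < y ∧ y < v ∧ v < n)
    (hw : Tri T c k x 0 1) (h1 : T.X k (c x) (c 0) (c 1) = true)
    (h2 : T.X k (c y) (c v) (c (v + 1)) = true) (h3 : T.X k (c y) (c 0) (c 1) = false) : False := by
  obtain ⟨hvn, a0, a1, a2, a3⟩ := hc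
  rw [hvn, h.cn] at h2
  exact d2_8_w (cp h (l := [0, 1, x, y, v]) (by simp only [List.pairwise_cons, List.mem_cons, List.not_mem_nil, or_false, forall_eq_or_imp,
      forall_eq, List.Pairwise.nil, and_true, IsEmpty.forall_iff, implies_true] <;> omega) (by simp only [List.pairwise_cons, List.mem_cons, List.not_mem_nil, or_false, forall_eq_or_imp,
      forall_eq, List.Pairwise.nil, and_true, IsEmpty.forall_iff, implies_true] <;> omega)) (hw _ (h.nee (by omega) (by omega) (by omega)) (h.nee (by omega) (by omega) (by omega)) (h.nee (by omega) (by omega) (by omega))) h1 h2 h3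

theorem d2_9_c (h : CvP T c n k) {x y v : ℕ}
    (hc : v = x ∧ 1 < v ∧ v < (v + 1) ∧ (v + 1) < y ∧ y < n)
    (hw : Tri T c k x 0 1) (h1 : T.X k (c x) (c 0) (c 1) = true)
    (h2 : T.X k (c y) (c v) (c (v + 1)) = true) (h3 : T.X k (c y) (c 0) (c 1) = false) : False := by
  obtain ⟨rfl, a0, a1, a2, a3⟩ := hc
  exact d2_9_w (cp h (l := [0, 1, v, (v + 1), y]) (by simp only [List.pairwise_cons, List.mem_cons, List.not_mem_nil, or_false, forall_eq_or_imp,
      forall_eq, List.Pairwise.nil, and_true, IsEmpty.forall_iff, implies_true] <;> omega) (by simp only [List.pairwise_cons, List.mem_cons, List.not_mem_nil, or_false, forall_eq_or_imp,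
      forall_eq, List.Pairwise.nil, and_true, IsEmpty.forall_iff, implies_true] <;> omega)) (hw _ (h.nee (by omega) (by omega) (by omega)) (h.nee (by omega) (by omega) (by omega)) (h.nee (by omega) (by omega) (by omega))) h1 h2 h3

theorem d2_10_c (h : CvP T c n k) {x y v : ℕ}
    (hc : 1 < x ∧ x < v ∧ v < (v + 1) ∧ (v + 1) < y ∧ y < n)
    (hw : Tri T c k x 0 1) (h1 : T.X k (c x) (c 0) (c 1) = true)
    (h2 : T.X k (c y) (c v) (c (v + 1)) = true) (h3 : T.X k (c y) (c 0) (c 1) = false) : False := by
  obtain ⟨a0, a1, a2, a3, a4⟩ := hc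
  exact d2_10_w (cp h (l := [0, 1, x, v, (v + 1), y]) (by simp only [List.pairwise_cons, List.mem_cons, List.not_mem_nil, or_false, forall_eq_or_imp,
      forall_eq, List.Pairwise.nil, and_true, IsEmpty.forall_iff, implies_true] <;> omega) (by simp only [List.pairwise_cons, List.mem_cons, List.not_mem_nil, or_false, forall_eq_or_imp,
      forall_eq, List.Pairwise.nil, and_true, IsEmpty.forall_iff, implies_true] <;> omega)) (hw _ (h.nee (by omega) (by omega) (by omega)) (h.nee (by omega) (by omega) (by omega)) (h.nee (by omega) (by omega) (by omega))) h1 h2 h3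

theorem d2_11_c (h : CvP T c n k) {x y v : ℕ}
    (hc : y = 0 ∧ v = 1 ∧ (1 + 1) < x ∧ x < n)
    (hw : Tri T c k x 0 1) (h1 : T.X k (c x) (c 0) (c 1) = true)
    (h2 : T.X k (c y) (c v) (c (v + 1)) = true) (h3 : T.X k (c y) (c 0) (c 1) = false) : False := by
  obtain ⟨rfl, rfl, a0, a1⟩ := hc
  exact d2_11_w (cp h (l := [0, 1, (1 + 1), x]) (by simp only [List.pairwise_cons, List.mem_cons, List.not_mem_nil, or_false, forall_eq_or_imp,
      forall_eq, List.Pairwise.nil, and_true, IsEmpty.forall_iff, implies_true] <;> omega) (by simp only [List.pairwise_cons, List.mem_cons, List.not_mem_nil, or_false, forall_eq_or_imp,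
      forall_eq, List.Pairwise.nil, and_true, IsEmpty.forall_iff, implies_true] <;> omega)) (hw _ (h.nee (by omega) (by omega) (by omega)) (h.nee (by omega) (by omega) (by omega)) (h.nee (by omega) (by omega) (by omega))) h1 h2

theorem d2_12_c (h : CvP T c n k) {x y v : ℕ}
    (hc : y = 0 ∧ x = v + 1 ∧ 1 < v ∧ v < (v + 1) ∧ (v + 1) < n)
    (hw : Tri T c k x 0 1) (h1 : T.X k (c x) (c 0) (c 1) = true)
    (h2 : T.X k (c y) (c v) (c (v + 1)) = true) (h3 : T.X k (c y) (c 0) (c 1) = false) : False := by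
  obtain ⟨rfl, rfl, a0, a1, a2⟩ := hc
  exact d2_12_w (cp h (l := [0, 1, v, (v + 1)]) (by simp only [List.pairwise_cons, List.mem_cons, List.not_mem_nil, or_false, forall_eq_or_imp,
      forall_eq, List.Pairwise.nil, and_true, IsEmpty.forall_iff, implies_true] <;> omega) (by simp only [List.pairwise_cons, List.mem_cons, List.not_mem_nil, or_false, forall_eq_or_imp,
      forall_eq, List.Pairwise.nil, and_true, IsEmpty.forall_iff, implies_true] <;> omega)) (hw _ (h.nee (by omega) (by omega) (by omega)) (h.nee (by omega) (by omega) (by omega)) (h.nee (by omega) (by omega) (by omega))) h1 h2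

theorem d2_13_c (h : CvP T c n k) {x y v : ℕ}
    (hc : y = 1 ∧ x = v + 1 ∧ 1 < v ∧ v < (v + 1) ∧ (v + 1) < n)
    (hw : Tri T c k x 0 1) (h1 : T.X k (c x) (c 0) (c 1) = true)
    (h2 : T.X k (c y) (c v) (c (v + 1)) = true) (h3 : T.X k (c y) (c 0) (c 1) = false) : False := by
  obtain ⟨rfl, rfl, a0, a1, a2⟩ := hc
  exact d2_13_w (cp h (l := [0, 1, v, (v + 1)]) (by simp only [List.pairwise_cons, List.mem_cons, List.not_mem_nil, or_false, forall_eq_or_imp,
      forall_eq, List.Pairwise.nil, and_true, IsEmpty.forall_iff, implies_true] <;> omega) (by simp only [List.pairwise_cons, List.mem_cons, List.not_mem_nil, or_false, forall_eq_or_imp,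
      forall_eq, List.Pairwise.nil, and_true, IsEmpty.forall_iff, implies_true] <;> omega)) (hw _ (h.nee (by omega) (by omega) (by omega)) (h.nee (by omega) (by omega) (by omega)) (h.nee (by omega) (by omega) (by omega))) h1 h2

theorem d2_14_c (h : CvP T c n k) {x y v : ℕ}
    (hc : v = x ∧ 1 < y ∧ y < v ∧ v < (v + 1) ∧ (v + 1) < n)
    (hw : Tri T c k x 0 1) (h1 : T.X k (c x) (c 0) (c 1) = true)
    (h2 : T.X k (c y) (c v) (c (v + 1)) = true) (h3 : T.X k (c y) (c 0) (c 1) = false) : False := by
  obtain ⟨rfl, a0, a1, a2, a3⟩ := hc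
  exact d2_14_w (cp h (l := [0, 1, y, v, (v + 1)]) (by simp only [List.pairwise_cons, List.mem_cons, List.not_mem_nil, or_false, forall_eq_or_imp,
      forall_eq, List.Pairwise.nil, and_true, IsEmpty.forall_iff, implies_true] <;> omega) (by simp only [List.pairwise_cons, List.mem_cons, List.not_mem_nil, or_false, forall_eq_or_imp,
      forall_eq, List.Pairwise.nil, and_true, IsEmpty.forall_iff, implies_true] <;> omega)) (hw _ (h.nee (by omega) (by omega) (by omega)) (h.nee (by omega) (by omega) (by omega)) (h.nee (by omega) (by omega) (by omega))) h1 h2 h3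

theorem d2_15_c (h : CvP T c n k) {x y v : ℕ}
    (hc : 1 < y ∧ y < x ∧ x < v ∧ v < (v + 1) ∧ (v + 1) < n)
    (hw : Tri T c k x 0 1) (h1 : T.X k (c x) (c 0) (c 1) = true)
    (h2 : T.X k (c y) (c v) (c (v + 1)) = true) (h3 : T.X k (c y) (c 0) (c 1) = false) : False := by
  obtain ⟨a0, a1, a2, a3, a4⟩ := hc
  exact d2_15_w (cp h (l := [0, 1, y, x, v, (v + 1)]) (by simp only [List.pairwise_cons, List.mem_cons, List.not_mem_nil, or_false, forall_eq_or_imp,
      forall_eq, List.Pairwise.nil, and_true, IsEmpty.forall_iff, implies_true] <;> omega) (by simp only [List.pairwise_cons, List.mem_cons, List.not_mem_nil, or_false, forall_eq_or_imp,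
      forall_eq, List.Pairwise.nil, and_true, IsEmpty.forall_iff, implies_true] <;> omega)) (hw _ (h.nee (by omega) (by omega) (by omega)) (h.nee (by omega) (by omega) (by omega)) (h.nee (by omega) (by omega) (by omega))) h1 h2 h3

theorem d2_16_c (h : CvP T c n k) {x y v : ℕ}
    (hc : v + 1 = n ∧ 1 < y ∧ y < x ∧ x < v ∧ v < n)
    (hw : Tri T c k x 0 1) (h1 : T.X k (c x) (c 0) (c 1) = true)
    (h2 : T.X k (c y) (c v) (c (v + 1)) = true) (h3 : T.X k (c y) (c 0) (c 1) = false) : False := by
  obtain ⟨hvn, a0, a1, a2, a3⟩ := hc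
  rw [hvn, h.cn] at h2
  exact d2_16_w (cp h (l := [0, 1, y, x, v]) (by simp only [List.pairwise_cons, List.mem_cons, List.not_mem_nil, or_false, forall_eq_or_imp,
      forall_eq, List.Pairwise.nil, and_true, IsEmpty.forall_iff, implies_true] <;> omega) (by simp only [List.pairwise_cons, List.mem_cons, List.not_mem_nil, or_false, forall_eq_or_imp,
      forall_eq, List.Pairwise.nil, and_true, IsEmpty.forall_iff, implies_true] <;> omega)) (hw _ (h.nee (by omega) (by omega) (by omega)) (h.nee (by omega) (by omega) (by omega)) (h.nee (by omega) (by omega) (by omega))) h1 h2 h3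

theorem d2_17_c (h : CvP T c n k) {x y v : ℕ}
    (hc : v = 1 ∧ (1 + 1) < x ∧ x < y ∧ y < n)
    (hw : Tri T c k x 0 1) (h1 : T.X k (c x) (c 0) (c 1) = true)
    (h2 : T.X k (c y) (c v) (c (v + 1)) = true) (h3 : T.X k (c y) (c 0) (c 1) = false) : False := by
  obtain ⟨rfl, a0, a1, a2⟩ := hc
  exact d2_17_w (cp h (l := [0, 1, (1 + 1), x, y]) (by simp only [List.pairwise_cons, List.mem_cons, List.not_mem_nil, or_false, forall_eq_or_imp,
      forall_eq, List.Pairwise.nil, and_true, IsEmpty.forall_iff, implies_true] <;> omega) (by simp only [List.pairwise_cons, List.mem_cons, List.not_mem_nil, or_false, forall_eq_or_imp,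
      forall_eq, List.Pairwise.nil, and_true, IsEmpty.forall_iff, implies_true] <;> omega)) (hw _ (h.nee (by omega) (by omega) (by omega)) (h.nee (by omega) (by omega) (by omega)) (h.nee (by omega) (by omega) (by omega))) h1 h2 h3

theorem d2_18_c (h : CvP T c n k) {x y v : ℕ}
    (hc : x = v + 1 ∧ 1 < v ∧ v < (v + 1) ∧ (v + 1) < y ∧ y < n)
    (hw : Tri T c k x 0 1) (h1 : T.X k (c x) (c 0) (c 1) = true)
    (h2 : T.X k (c y) (c v) (c (v + 1)) = true) (h3 : T.X k (c y) (c 0) (c 1) = false) : False := by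
  obtain ⟨rfl, a0, a1, a2, a3⟩ := hc
  exact d2_18_w (cp h (l := [0, 1, v, (v + 1), y]) (by simp only [List.pairwise_cons, List.mem_cons, List.not_mem_nil, or_false, forall_eq_or_imp,
      forall_eq, List.Pairwise.nil, and_true, IsEmpty.forall_iff, implies_true] <;> omega) (by simp only [List.pairwise_cons, List.mem_cons, List.not_mem_nil, or_false, forall_eq_or_imp,
      forall_eq, List.Pairwise.nil, and_true, IsEmpty.forall_iff, implies_true] <;> omega)) (hw _ (h.nee (by omega) (by omega) (by omega)) (h.nee (by omega) (by omega) (by omega)) (h.nee (by omega) (by omega) (by omega))) h1 h2 h3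

theorem d2_19_c (h : CvP T c n k) {x y v : ℕ}
    (hc : y = 0 ∧ 1 < v ∧ v < (v + 1) ∧ (v + 1) < x ∧ x < n)
    (hw : Tri T c k x 0 1) (h1 : T.X k (c x) (c 0) (c 1) = true)
    (h2 : T.X k (c y) (c v) (c (v + 1)) = true) (h3 : T.X k (c y) (c 0) (c 1) = false) : False := by
  obtain ⟨rfl, a0, a1, a2, a3⟩ := hc
  exact d2_19_w (cp h (l := [0, 1, v, (v + 1), x]) (by simp only [List.pairwise_cons, List.mem_cons, List.not_mem_nil, or_false, forall_eq_or_imp,
      forall_eq, List.Pairwise.nil, and_true, IsEmpty.forall_iff, implies_true] <;> omega) (by simp only [List.pairwise_cons, List.mem_cons, List.not_mem_nil, or_false, forall_eq_or_imp,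
      forall_eq, List.Pairwise.nil, and_true, IsEmpty.forall_iff, implies_true] <;> omega)) (hw _ (h.nee (by omega) (by omega) (by omega)) (h.nee (by omega) (by omega) (by omega)) (h.nee (by omega) (by omega) (by omega))) h1 h2

theorem d2_20_c (h : CvP T c n k) {x y v : ℕ}
    (hc : y = 1 ∧ 1 < v ∧ v < (v + 1) ∧ (v + 1) < x ∧ x < n)
    (hw : Tri T c k x 0 1) (h1 : T.X k (c x) (c 0) (c 1) = true)
    (h2 : T.X k (c y) (c v) (c (v + 1)) = true) (h3 : T.X k (c y) (c 0) (c 1) = false) : False := by
  obtain ⟨rfl, a0, a1, a2, a3⟩ := hc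
  exact d2_20_w (cp h (l := [0, 1, v, (v + 1), x]) (by simp only [List.pairwise_cons, List.mem_cons, List.not_mem_nil, or_false, forall_eq_or_imp,
      forall_eq, List.Pairwise.nil, and_true, IsEmpty.forall_iff, implies_true] <;> omega) (by simp only [List.pairwise_cons, List.mem_cons, List.not_mem_nil, or_false, forall_eq_or_imp,
      forall_eq, List.Pairwise.nil, and_true, IsEmpty.forall_iff, implies_true] <;> omega)) (hw _ (h.nee (by omega) (by omega) (by omega)) (h.nee (by omega) (by omega) (by omega)) (h.nee (by omega) (by omega) (by omega))) h1 h2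

theorem d2_21_c (h : CvP T c n k) {x y v : ℕ}
    (hc : x = v + 1 ∧ 1 < y ∧ y < v ∧ v < (v + 1) ∧ (v + 1) < n)
    (hw : Tri T c k x 0 1) (h1 : T.X k (c x) (c 0) (c 1) = true)
    (h2 : T.X k (c y) (c v) (c (v + 1)) = true) (h3 : T.X k (c y) (c 0) (c 1) = false) : False := by
  obtain ⟨rfl, a0, a1, a2, a3⟩ := hc
  exact d2_21_w (cp h (l := [0, 1, y, v, (v + 1)]) (by simp only [List.pairwise_cons, List.mem_cons, List.not_mem_nil, or_false, forall_eq_or_imp,
      forall_eq, List.Pairwise.nil, and_true, IsEmpty.forall_iff, implies_true] <;> omega) (by simp only [List.pairwise_cons, List.mem_cons, List.not_mem_nil, or_false, forall_eq_or_imp,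
      forall_eq, List.Pairwise.nil, and_true, IsEmpty.forall_iff, implies_true] <;> omega)) (hw _ (h.nee (by omega) (by omega) (by omega)) (h.nee (by omega) (by omega) (by omega)) (h.nee (by omega) (by omega) (by omega))) h1 h2 h3

theorem d2_22_c (h : CvP T c n k) {x y v : ℕ}
    (hc : v = 1 ∧ (1 + 1) < y ∧ y < x ∧ x < n)
    (hw : Tri T c k x 0 1) (h1 : T.X k (c x) (c 0) (c 1) = true)
    (h2 : T.X k (c y) (c v) (c (v + 1)) = true) (h3 : T.X k (c y) (c 0) (c 1) = false) : False := by
  obtain ⟨rfl, a0, a1, a2⟩ := hc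
  exact d2_22_w (cp h (l := [0, 1, (1 + 1), y, x]) (by simp only [List.pairwise_cons, List.mem_cons, List.not_mem_nil, or_false, forall_eq_or_imp,
      forall_eq, List.Pairwise.nil, and_true, IsEmpty.forall_iff, implies_true] <;> omega) (by simp only [List.pairwise_cons, List.mem_cons, List.not_mem_nil, or_false, forall_eq_or_imp,
      forall_eq, List.Pairwise.nil, and_true, IsEmpty.forall_iff, implies_true] <;> omega)) (hw _ (h.nee (by omega) (by omega) (by omega)) (h.nee (by omega) (by omega) (by omega)) (h.nee (by omega) (by omega) (by omega))) h1 h2 h3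

theorem d2_23_c (h : CvP T c n k) {x y v : ℕ}
    (hc : 1 < v ∧ v < (v + 1) ∧ (v + 1) < x ∧ x < y ∧ y < n)
    (hw : Tri T c k x 0 1) (h1 : T.X k (c x) (c 0) (c 1) = true)
    (h2 : T.X k (c y) (c v) (c (v + 1)) = true) (h3 : T.X k (c y) (c 0) (c 1) = false) : False := by
  obtain ⟨a0, a1, a2, a3, a4⟩ := hc
  exact d2_23_w (cp h (l := [0, 1, v, (v + 1), x, y]) (by simp only [List.pairwise_cons, List.mem_cons, List.not_mem_nil, or_false, forall_eq_or_imp,
      forall_eq, List.Pairwise.nil, and_true, IsEmpty.forall_iff, implies_true] <;> omega) (by simp only [List.pairwise_cons, List.mem_cons, List.not_mem_nil, or_false, forall_eq_or_imp,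
      forall_eq, List.Pairwise.nil, and_true, IsEmpty.forall_iff, implies_true] <;> omega)) (hw _ (h.nee (by omega) (by omega) (by omega)) (h.nee (by omega) (by omega) (by omega)) (h.nee (by omega) (by omega) (by omega))) h1 h2 h3

theorem d2_24_c (h : CvP T c n k) {x y v : ℕ}
    (hc : 1 < y ∧ y < v ∧ v < (v + 1) ∧ (v + 1) < x ∧ x < n)
    (hw : Tri T c k x 0 1) (h1 : T.X k (c x) (c 0) (c 1) = true)
    (h2 : T.X k (c y) (c v) (c (v + 1)) = true) (h3 : T.X k (c y) (c 0) (c 1) = false) : False := by
  obtain ⟨a0, a1, a2, a3, a4⟩ := hc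
  exact d2_24_w (cp h (l := [0, 1, y, v, (v + 1), x]) (by simp only [List.pairwise_cons, List.mem_cons, List.not_mem_nil, or_false, forall_eq_or_imp,
      forall_eq, List.Pairwise.nil, and_true, IsEmpty.forall_iff, implies_true] <;> omega) (by simp only [List.pairwise_cons, List.mem_cons, List.not_mem_nil, or_false, forall_eq_or_imp,
      forall_eq, List.Pairwise.nil, and_true, IsEmpty.forall_iff, implies_true] <;> omega)) (hw _ (h.nee (by omega) (by omega) (by omega)) (h.nee (by omega) (by omega) (by omega)) (h.nee (by omega) (by omega) (by omega))) h1 h2 h3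

theorem d2_25_c (h : CvP T c n k) {x y v : ℕ}
    (hc : 1 < v ∧ v < (v + 1) ∧ (v + 1) < y ∧ y < x ∧ x < n)
    (hw : Tri T c k x 0 1) (h1 : T.X k (c x) (c 0) (c 1) = true)
    (h2 : T.X k (c y) (c v) (c (v + 1)) = true) (h3 : T.X k (c y) (c 0) (c 1) = false) : False := by
  obtain ⟨a0, a1, a2, a3, a4⟩ := hc
  exact d2_25_w (cp h (l := [0, 1, v, (v + 1), y, x]) (by simp only [List.pairwise_cons, List.mem_cons, List.not_mem_nil, or_false, forall_eq_or_imp,
      forall_eq, List.Pairwise.nil, and_true, IsEmpty.forall_iff, implies_true] <;> omega) (by simp only [List.pairwise_cons, List.mem_cons, List.not_mem_nil, or_false, forall_eq_or_imp,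
      forall_eq, List.Pairwise.nil, and_true, IsEmpty.forall_iff, implies_true] <;> omega)) (hw _ (h.nee (by omega) (by omega) (by omega)) (h.nee (by omega) (by omega) (by omega)) (h.nee (by omega) (by omega) (by omega))) h1 h2 h3

theorem d2_26_c (h : CvP T c n k) {x y v : ℕ}
    (hc : v = x ∧ v + 1 = n ∧ 1 < y ∧ y < v ∧ v < n)
    (hw : Tri T c k x 0 1) (h1 : T.X k (c x) (c 0) (c 1) = true)
    (h2 : T.X k (c y) (c v) (c (v + 1)) = true) (h3 : T.X k (c y) (c 0) (c 1) = false) : False := by
  obtain ⟨rfl, hvn, a0, a1, a2⟩ := hc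
  rw [hvn, h.cn] at h2
  exact d2_26_w (cp h (l := [0, 1, y, v]) (by simp only [List.pairwise_cons, List.mem_cons, List.not_mem_nil, or_false, forall_eq_or_imp,
      forall_eq, List.Pairwise.nil, and_true, IsEmpty.forall_iff, implies_true] <;> omega) (by simp only [List.pairwise_cons, List.mem_cons, List.not_mem_nil, or_false, forall_eq_or_imp,
      forall_eq, List.Pairwise.nil, and_true, IsEmpty.forall_iff, implies_true] <;> omega)) (hw _ (h.nee (by omega) (by omega) (by omega)) (h.nee (by omega) (by omega) (by omega)) (h.nee (by omega) (by omega) (by omega))) h1 h2 h3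

theorem d5_1_c (h : CvP T c n k) {x y v : ℕ}
    (hc : 1 < x ∧ x < y ∧ y < v ∧ v < (v + 1) ∧ (v + 1) < n)
    (hw : Tri T c k x 0 1) (hv : Tri T c k y v (v + 1)) (h1 : T.X k (c x) (c 0) (c 1) = true)
    (h2 : T.X k (c x) (c v) (c (v + 1)) = true) (h3 : T.X k (c y) (c v) (c (v + 1)) = true)
    (h4 : T.X k (c y) (c 0) (c 1) = true) : False := by
  obtain ⟨a0, a1, a2, a3, a4⟩ := hc
  exact d5_1_w (cp h (l := [0, 1, x, y, v, (v + 1)]) (by simp only [List.pairwise_cons, List.mem_cons, List.not_mem_nil, or_false, forall_eq_or_imp,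
      forall_eq, List.Pairwise.nil, and_true, IsEmpty.forall_iff, implies_true] <;> omega) (by simp only [List.pairwise_cons, List.mem_cons, List.not_mem_nil, or_false, forall_eq_or_imp,
      forall_eq, List.Pairwise.nil, and_true, IsEmpty.forall_iff, implies_true] <;> omega)) (hw _ (h.nee (by omega) (by omega) (by omega)) (h.nee (by omega) (by omega) (by omega)) (h.nee (by omega) (by omega) (by omega))) (hv _ (h.nee (by omega) (by omega) (by omega)) (h.nee (by omega) (by omega) (by omega)) (h.nee (by omega) (by omega) (by omega))) h1 h2 h3 h4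

theorem d5_2_c (h : CvP T c n k) {x y v : ℕ}
    (hc : v + 1 = n ∧ 1 < x ∧ x < y ∧ y < v ∧ v < n)
    (hw : Tri T c k x 0 1) (hv : Tri T c k y v (v + 1)) (h1 : T.X k (c x) (c 0) (c 1) = true)
    (h2 : T.X k (c x) (c v) (c (v + 1)) = true) (h3 : T.X k (c y) (c v) (c (v + 1)) = true)
    (h4 : T.X k (c y) (c 0) (c 1) = true) : False := by
  obtain ⟨hvn, a0, a1, a2, a3⟩ := hc
  unfold Tri at hv
  rw [hvn, h.cn] at h2 h3 hv
  exact d5_2_w (cp h (l := [0, 1, x, y, v]) (by simp only [List.pairwise_cons, List.mem_cons, List.not_mem_nil, or_false, forall_eq_or_imp,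
      forall_eq, List.Pairwise.nil, and_true, IsEmpty.forall_iff, implies_true] <;> omega) (by simp only [List.pairwise_cons, List.mem_cons, List.not_mem_nil, or_false, forall_eq_or_imp,
      forall_eq, List.Pairwise.nil, and_true, IsEmpty.forall_iff, implies_true] <;> omega)) (hw _ (h.nee (by omega) (by omega) (by omega)) (h.nee (by omega) (by omega) (by omega)) (h.nee (by omega) (by omega) (by omega))) (hv _ (h.nee (by omega) (by omega) (by omega)) (h.nee (by omega) (by omega) (by omega)) (h.nee (by omega) (by omega) (by omega))) h1 h2 h3 h4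

theorem d5_3_c (h : CvP T c n k) {x y v : ℕ}
    (hc : 1 < x ∧ x < v ∧ v < (v + 1) ∧ (v + 1) < y ∧ y < n)
    (hw : Tri T c k x 0 1) (hv : Tri T c k y v (v + 1)) (h1 : T.X k (c x) (c 0) (c 1) = true)
    (h2 : T.X k (c x) (c v) (c (v + 1)) = true) (h3 : T.X k (c y) (c v) (c (v + 1)) = true)
    (h4 : T.X k (c y) (c 0) (c 1) = true) : False := by
  obtain ⟨a0, a1, a2, a3, a4⟩ := hc
  exact d5_3_w (cp h (l := [0, 1, x, v, (v + 1), y]) (by simp only [List.pairwise_cons, List.mem_cons, List.not_mem_nil, or_false, forall_eq_or_imp,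
      forall_eq, List.Pairwise.nil, and_true, IsEmpty.forall_iff, implies_true] <;> omega) (by simp only [List.pairwise_cons, List.mem_cons, List.not_mem_nil, or_false, forall_eq_or_imp,
      forall_eq, List.Pairwise.nil, and_true, IsEmpty.forall_iff, implies_true] <;> omega)) (hw _ (h.nee (by omega) (by omega) (by omega)) (h.nee (by omega) (by omega) (by omega)) (h.nee (by omega) (by omega) (by omega))) (hv _ (h.nee (by omega) (by omega) (by omega)) (h.nee (by omega) (by omega) (by omega)) (h.nee (by omega) (by omega) (by omega))) h1 h2 h3 h4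

theorem d5_4_c (h : CvP T c n k) {x y v : ℕ}
    (hc : 1 < y ∧ y < x ∧ x < v ∧ v < (v + 1) ∧ (v + 1) < n)
    (hw : Tri T c k x 0 1) (hv : Tri T c k y v (v + 1)) (h1 : T.X k (c x) (c 0) (c 1) = true)
    (h2 : T.X k (c x) (c v) (c (v + 1)) = true) (h3 : T.X k (c y) (c v) (c (v + 1)) = true)
    (h4 : T.X k (c y) (c 0) (c 1) = true) : False := by
  obtain ⟨a0, a1, a2, a3, a4⟩ := hc
  exact d5_4_w (cp h (l := [0, 1, y, x, v, (v + 1)]) (by simp only [List.pairwise_cons, List.mem_cons, List.not_mem_nil, or_false, forall_eq_or_imp,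
      forall_eq, List.Pairwise.nil, and_true, IsEmpty.forall_iff, implies_true] <;> omega) (by simp only [List.pairwise_cons, List.mem_cons, List.not_mem_nil, or_false, forall_eq_or_imp,
      forall_eq, List.Pairwise.nil, and_true, IsEmpty.forall_iff, implies_true] <;> omega)) (hw _ (h.nee (by omega) (by omega) (by omega)) (h.nee (by omega) (by omega) (by omega)) (h.nee (by omega) (by omega) (by omega))) (hv _ (h.nee (by omega) (by omega) (by omega)) (h.nee (by omega) (by omega) (by omega)) (h.nee (by omega) (by omega) (by omega))) h1 h2 h3 h4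

theorem d5_5_c (h : CvP T c n k) {x y v : ℕ}
    (hc : v + 1 = n ∧ 1 < y ∧ y < x ∧ x < v ∧ v < n)
    (hw : Tri T c k x 0 1) (hv : Tri T c k y v (v + 1)) (h1 : T.X k (c x) (c 0) (c 1) = true)
    (h2 : T.X k (c x) (c v) (c (v + 1)) = true) (h3 : T.X k (c y) (c v) (c (v + 1)) = true)
    (h4 : T.X k (c y) (c 0) (c 1) = true) : False := by
  obtain ⟨hvn, a0, a1, a2, a3⟩ := hc
  unfold Tri at hv
  rw [hvn, h.cn] at h2 h3 hv
  exact d5_5_w (cp h (l := [0, 1, y, x, v]) (by simp only [List.pairwise_cons, List.mem_cons, List.not_mem_nil, or_false, forall_eq_or_imp,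
      forall_eq, List.Pairwise.nil, and_true, IsEmpty.forall_iff, implies_true] <;> omega) (by simp only [List.pairwise_cons, List.mem_cons, List.not_mem_nil, or_false, forall_eq_or_imp,
      forall_eq, List.Pairwise.nil, and_true, IsEmpty.forall_iff, implies_true] <;> omega)) (hw _ (h.nee (by omega) (by omega) (by omega)) (h.nee (by omega) (by omega) (by omega)) (h.nee (by omega) (by omega) (by omega))) (hv _ (h.nee (by omega) (by omega) (by omega)) (h.nee (by omega) (by omega) (by omega)) (h.nee (by omega) (by omega) (by omega))) h1 h2 h3 h4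

theorem d5_6_c (h : CvP T c n k) {x y v : ℕ}
    (hc : 1 < y ∧ y < v ∧ v < (v + 1) ∧ (v + 1) < x ∧ x < n)
    (hw : Tri T c k x 0 1) (hv : Tri T c k y v (v + 1)) (h1 : T.X k (c x) (c 0) (c 1) = true)
    (h2 : T.X k (c x) (c v) (c (v + 1)) = true) (h3 : T.X k (c y) (c v) (c (v + 1)) = true)
    (h4 : T.X k (c y) (c 0) (c 1) = true) : False := by
  obtain ⟨a0, a1, a2, a3, a4⟩ := hc
  exact d5_6_w (cp h (l := [0, 1, y, v, (v + 1), x]) (by simp only [List.pairwise_cons, List.mem_cons, List.not_mem_nil, or_false, forall_eq_or_imp,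
      forall_eq, List.Pairwise.nil, and_true, IsEmpty.forall_iff, implies_true] <;> omega) (by simp only [List.pairwise_cons, List.mem_cons, List.not_mem_nil, or_false, forall_eq_or_imp,
      forall_eq, List.Pairwise.nil, and_true, IsEmpty.forall_iff, implies_true] <;> omega)) (hw _ (h.nee (by omega) (by omega) (by omega)) (h.nee (by omega) (by omega) (by omega)) (h.nee (by omega) (by omega) (by omega))) (hv _ (h.nee (by omega) (by omega) (by omega)) (h.nee (by omega) (by omega) (by omega)) (h.nee (by omega) (by omega) (by omega))) h1 h2 h3 h4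

theorem d5_7_c (h : CvP T c n k) {x y v : ℕ}
    (hc : 1 < v ∧ v < (v + 1) ∧ (v + 1) < x ∧ x < y ∧ y < n)
    (hw : Tri T c k x 0 1) (hv : Tri T c k y v (v + 1)) (h1 : T.X k (c x) (c 0) (c 1) = true)
    (h2 : T.X k (c x) (c v) (c (v + 1)) = true) (h3 : T.X k (c y) (c v) (c (v + 1)) = true)
    (h4 : T.X k (c y) (c 0) (c 1) = true) : False := by
  obtain ⟨a0, a1, a2, a3, a4⟩ := hc
  exact d5_7_w (cp h (l := [0, 1, v, (v + 1), x, y]) (by simp only [List.pairwise_cons, List.mem_cons, List.not_mem_nil, or_false, forall_eq_or_imp,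
      forall_eq, List.Pairwise.nil, and_true, IsEmpty.forall_iff, implies_true] <;> omega) (by simp only [List.pairwise_cons, List.mem_cons, List.not_mem_nil, or_false, forall_eq_or_imp,
      forall_eq, List.Pairwise.nil, and_true, IsEmpty.forall_iff, implies_true] <;> omega)) (hw _ (h.nee (by omega) (by omega) (by omega)) (h.nee (by omega) (by omega) (by omega)) (h.nee (by omega) (by omega) (by omega))) (hv _ (h.nee (by omega) (by omega) (by omega)) (h.nee (by omega) (by omega) (by omega)) (h.nee (by omega) (by omega) (by omega))) h1 h2 h3 h4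

theorem d5_8_c (h : CvP T c n k) {x y v : ℕ}
    (hc : v = 1 ∧ (1 + 1) < x ∧ x < y ∧ y < n)
    (hw : Tri T c k x 0 1) (hv : Tri T c k y v (v + 1)) (h1 : T.X k (c x) (c 0) (c 1) = true)
    (h2 : T.X k (c x) (c v) (c (v + 1)) = true) (h3 : T.X k (c y) (c v) (c (v + 1)) = true)
    (h4 : T.X k (c y) (c 0) (c 1) = true) : False := by
  obtain ⟨rfl, a0, a1, a2⟩ := hc
  exact d5_8_w (cp h (l := [0, 1, (1 + 1), x, y]) (by simp only [List.pairwise_cons, List.mem_cons, List.not_mem_nil, or_false, forall_eq_or_imp,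
      forall_eq, List.Pairwise.nil, and_true, IsEmpty.forall_iff, implies_true] <;> omega) (by simp only [List.pairwise_cons, List.mem_cons, List.not_mem_nil, or_false, forall_eq_or_imp,
      forall_eq, List.Pairwise.nil, and_true, IsEmpty.forall_iff, implies_true] <;> omega)) (hw _ (h.nee (by omega) (by omega) (by omega)) (h.nee (by omega) (by omega) (by omega)) (h.nee (by omega) (by omega) (by omega))) (hv _ (h.nee (by omega) (by omega) (by omega)) (h.nee (by omega) (by omega) (by omega)) (h.nee (by omega) (by omega) (by omega))) h1 h2 h3 h4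

theorem d5_9_c (h : CvP T c n k) {x y v : ℕ}
    (hc : 1 < v ∧ v < (v + 1) ∧ (v + 1) < y ∧ y < x ∧ x < n)
    (hw : Tri T c k x 0 1) (hv : Tri T c k y v (v + 1)) (h1 : T.X k (c x) (c 0) (c 1) = true)
    (h2 : T.X k (c x) (c v) (c (v + 1)) = true) (h3 : T.X k (c y) (c v) (c (v + 1)) = true)
    (h4 : T.X k (c y) (c 0) (c 1) = true) : False := by
  obtain ⟨a0, a1, a2, a3, a4⟩ := hc
  exact d5_9_w (cp h (l := [0, 1, v, (v + 1), y, x]) (by simp only [List.pairwise_cons, List.mem_cons, List.not_mem_nil, or_false, forall_eq_or_imp,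
      forall_eq, List.Pairwise.nil, and_true, IsEmpty.forall_iff, implies_true] <;> omega) (by simp only [List.pairwise_cons, List.mem_cons, List.not_mem_nil, or_false, forall_eq_or_imp,
      forall_eq, List.Pairwise.nil, and_true, IsEmpty.forall_iff, implies_true] <;> omega)) (hw _ (h.nee (by omega) (by omega) (by omega)) (h.nee (by omega) (by omega) (by omega)) (h.nee (by omega) (by omega) (by omega))) (hv _ (h.nee (by omega) (by omega) (by omega)) (h.nee (by omega) (by omega) (by omega)) (h.nee (by omega) (by omega) (by omega))) h1 h2 h3 h4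

theorem d5_10_c (h : CvP T c n k) {x y v : ℕ}
    (hc : v = 1 ∧ (1 + 1) < y ∧ y < x ∧ x < n)
    (hw : Tri T c k x 0 1) (hv : Tri T c k y v (v + 1)) (h1 : T.X k (c x) (c 0) (c 1) = true)
    (h2 : T.X k (c x) (c v) (c (v + 1)) = true) (h3 : T.X k (c y) (c v) (c (v + 1)) = true)
    (h4 : T.X k (c y) (c 0) (c 1) = true) : False := by
  obtain ⟨rfl, a0, a1, a2⟩ := hc
  exact d5_10_w (cp h (l := [0, 1, (1 + 1), y, x]) (by simp only [List.pairwise_cons, List.mem_cons, List.not_mem_nil, or_false, forall_eq_or_imp,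
      forall_eq, List.Pairwise.nil, and_true, IsEmpty.forall_iff, implies_true] <;> omega) (by simp only [List.pairwise_cons, List.mem_cons, List.not_mem_nil, or_false, forall_eq_or_imp,
      forall_eq, List.Pairwise.nil, and_true, IsEmpty.forall_iff, implies_true] <;> omega)) (hw _ (h.nee (by omega) (by omega) (by omega)) (h.nee (by omega) (by omega) (by omega)) (h.nee (by omega) (by omega) (by omega))) (hv _ (h.nee (by omega) (by omega) (by omega)) (h.nee (by omega) (by omega) (by omega)) (h.nee (by omega) (by omega) (by omega))) h1 h2 h3 h4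

end H36L
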