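import Pool.Agent.Lib.H36L.D2

/-!
# H36L, file D3: the DOOR lemma with the door at 0, 1
-/

set_option autoImplicit false
set_option linter.unusedSectionVars false
set_option linter.unusedVariables false

namespace H36L

open H53P H30P Finset

variable {V : Type*} {T : Table V} {c : ℕ → V} {n : ℕ} {k : V}

theorem one3 {a b c' d : V} (h : T.X a b c' d = true) : T.X a d b c' = false := by
  rw [T.xs2] at h
  exact T.one _ _ _ _ h

/-- the ray `k x` crosses its wedge edge `0 1`: every ray which crosses the polygon crosses `0 1` -/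
theorem door0 (h : CvP T c n k) {x y v : ℕ} (hx : 2 ≤ x) (hxn : x < n) (hw : Tri T c k x 0 1)
    (h1 : T.X k (c x) (c 0) (c 1) = true) (hy : y < n) (hv : 1 ≤ v) (hvn : v < n)
    (h2 : T.X k (c y) (c v) (c (v + 1)) = true) (h3 : T.X k (c y) (c 0) (c 1) = false) : False := by
  have hne := T.ne _ _ _ _ h2
  have hyv : y ≠ v := fun e => hne.2.2.2.2.1 (by rw [e])
  have hyv' : y ≠ v + 1 := fun e => hne.2.2.2.2.2 (by rw [e])
  have hy0 : v + 1 = n → y ≠ 0 := fun e e0 => hne.2.2.2.2.2 (by rw [e, h.cn, e0])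
  have hyx : y ≠ x := fun e => by
    rw [e, h1] at h3
    exact absurd h3 (by decide)
  have s1 : ¬ (y = 0 ∧ v = 1 ∧ x = 2) := by
    rintro ⟨rfl, rfl, rfl⟩
    have h4 := one3 h2
    rw [h1] at h4
    exact absurd h4 (by decide)
  have s2 : ¬ (y = 1 ∧ v = x ∧ v + 1 = n) := by
    rintro ⟨rfl, rfl, h5⟩
    rw [h5, h.cn, T.xs2] at h2
    have h4 := one3 h2
    rw [T.xs2] at h4
    rw [h1] at h4
    exact absurd h4 (by decide)
  have A : y = 0 ∨ y = 1 ∨ 2 ≤ y := by omega
  have B : v = 1 ∨ (2 ≤ v ∧ v + 1 < n) ∨ v + 1 = n := by omega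
  have C : x < v ∨ x = v ∨ x = v + 1 ∨ v + 1 < x := by omega
  have D : y < v ∨ v + 1 < y := by omega
  have E : x < y ∨ y < x := by omega
  rcases A with A | A | A <;> rcases B with B | B | B <;> rcases C with C | C | C | C <;>
    rcases D with D | D <;> rcases E with E | E <;>
    first
    | omega
    | exact d2_1_c h (by omega) hw h1 h2 h3
    | exact d2_2_c h (by omega) hw h1 h2 h3
    | exact d2_3_c h (by omega) hw h1 h2 h3
    | exact d2_4_c h (by omega) hw h1 h2 h3
    | exact d2_5_c h (by omega) hw h1 h2 h3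
    | exact d2_6_c h (by omega) hw h1 h2 h3
    | exact d2_7_c h (by omega) hw h1 h2 h3
    | exact d2_8_c h (by omega) hw h1 h2 h3
    | exact d2_9_c h (by omega) hw h1 h2 h3
    | exact d2_10_c h (by omega) hw h1 h2 h3
    | exact d2_11_c h (by omega) hw h1 h2 h3
    | exact d2_12_c h (by omega) hw h1 h2 h3
    | exact d2_13_c h (by omega) hw h1 h2 h3
    | exact d2_14_c h (by omega) hw h1 h2 h3
    | exact d2_15_c h (by omega) hw h1 h2 h3
    | exact d2_16_c h (by omega) hw h1 h2 h3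
    | exact d2_17_c h (by omega) hw h1 h2 h3
    | exact d2_18_c h (by omega) hw h1 h2 h3
    | exact d2_19_c h (by omega) hw h1 h2 h3
    | exact d2_20_c h (by omega) hw h1 h2 h3
    | exact d2_21_c h (by omega) hw h1 h2 h3
    | exact d2_22_c h (by omega) hw h1 h2 h3
    | exact d2_23_c h (by omega) hw h1 h2 h3
    | exact d2_24_c h (by omega) hw h1 h2 h3
    | exact d2_25_c h (by omega) hw h1 h2 h3
    | exact d2_26_c h (by omega) hw h1 h2 h3

/-- the door is the wedge edge of every ray which crosses it -/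
theorem door5 (h : CvP T c n k) {x y v : ℕ} (hx : 2 ≤ x) (hxn : x < n) (hw : Tri T c k x 0 1)
    (h1 : T.X k (c x) (c 0) (c 1) = true) (hy : y < n) (hyx : y ≠ x) (hv1 : 1 ≤ v) (hvn : v < n)
    (hv : Tri T c k y v (v + 1)) (h2 : T.X k (c x) (c v) (c (v + 1)) = true)
    (h3 : T.X k (c y) (c v) (c (v + 1)) = true) (h4 : T.X k (c y) (c 0) (c 1) = true) : False := by
  have hne := T.ne _ _ _ _ h3
  have hyv : y ≠ v := fun e => hne.2.2.2.2.1 (by rw [e])
  have hyv' : y ≠ v + 1 := fun e => hne.2.2.2.2.2 (by rw [e])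
  have hne4 := T.ne _ _ _ _ h4
  have hy0 : y ≠ 0 := fun e => hne4.2.2.2.2.1 (by rw [e])
  have hy1 : y ≠ 1 := fun e => hne4.2.2.2.2.2 (by rw [e])
  have hne2 := T.ne _ _ _ _ h2
  have hxv : x ≠ v := fun e => hne2.2.2.2.2.1 (by rw [e])
  have hxv' : x ≠ v + 1 := fun e => hne2.2.2.2.2.2 (by rw [e])
  have B : v = 1 ∨ (2 ≤ v ∧ v + 1 < n) ∨ v + 1 = n := by omega
  have C : x < v ∨ v + 1 < x := by omega
  have D : y < v ∨ v + 1 < y := by omega
  have E : x < y ∨ y < x := by omega
  rcases B with B | B | B <;> rcases C with C | C <;>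
    rcases D with D | D <;> rcases E with E | E <;>
    first
    | omega
    | exact d5_1_c h (by omega) hw hv h1 h2 h3 h4
    | exact d5_2_c h (by omega) hw hv h1 h2 h3 h4
    | exact d5_3_c h (by omega) hw hv h1 h2 h3 h4
    | exact d5_4_c h (by omega) hw hv h1 h2 h3 h4
    | exact d5_5_c h (by omega) hw hv h1 h2 h3 h4
    | exact d5_6_c h (by omega) hw hv h1 h2 h3 h4
    | exact d5_7_c h (by omega) hw hv h1 h2 h3 h4
    | exact d5_8_c h (by omega) hw hv h1 h2 h3 h4
    | exact d5_9_c h (by omega) hw hv h1 h2 h3 h4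
    | exact d5_10_c h (by omega) hw hv h1 h2 h3 h4

end H36L
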