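import Pool.Agent.Lib.H36L.D3
import Pool.Agent.Lib.H30P.Il

/-!
# H36L, file D4: the wedge triangle of a point on the chord side of a convex polygon
-/

set_option autoImplicit false
set_option linter.unusedSectionVars false
set_option linter.unusedVariables false

namespace H36L

open H53P H30P Finset

variable {V : Type*} {T : Table V} {c : ℕ → V} {n : ℕ} {k : V}

/-- the other vertices are on the same side of a triangle of the polygon -/
theorem refch (h : CvP T c n k) {a b m m' : ℕ} (ha : 0 < a) (hab : a < b) (hbn : b < n) (hm : m < n)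
    (hm' : m' < n) (m0 : m ≠ 0) (ma : m ≠ a) (mb : m ≠ b) (m0' : m' ≠ 0) (ma' : m' ≠ a) (mb' : m' ≠ b) :
    T.crT (c 0) (c a) (c b) k (c m) = T.crT (c 0) (c a) (c b) k (c m') := by
  wlog hlt : m < m' generalizing m m' with H
  · rcases Nat.lt_or_ge m' m with h1 | h1
    · exact (H hm' hm m0' ma' mb' m0 ma mb h1).symm
    · have : m = m' := by omega
      rw [this]
  · apply xfalse
    intro h1
    have C : (b < m) ∨ (m < a ∧ b < m') ∨ (m' < a) ∨ (a < m ∧ m < b ∧ b < m') ∨
        (m < a ∧ a < m' ∧ m' < b) ∨ (a < m ∧ m' < b) := by omega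
    rcases C with C | C | C | C | C | C
    · exact m_1_w (cp h (l := [0, a, b, m, m']) (by simp only [List.pairwise_cons, List.mem_cons, List.not_mem_nil, or_false, forall_eq_or_imp,
      forall_eq, List.Pairwise.nil, and_true, IsEmpty.forall_iff, implies_true] <;> omega) (by simp only [List.pairwise_cons, List.mem_cons, List.not_mem_nil, or_false, forall_eq_or_imp,
      forall_eq, List.Pairwise.nil, and_true, IsEmpty.forall_iff, implies_true] <;> omega)) h1
    · exact m_2_w (cp h (l := [0, m, a, b, m']) (by simp only [List.pairwise_cons, List.mem_cons, List.not_mem_nil, or_false, forall_eq_or_imp,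
      forall_eq, List.Pairwise.nil, and_true, IsEmpty.forall_iff, implies_true] <;> omega) (by simp only [List.pairwise_cons, List.mem_cons, List.not_mem_nil, or_false, forall_eq_or_imp,
      forall_eq, List.Pairwise.nil, and_true, IsEmpty.forall_iff, implies_true] <;> omega)) h1
    · exact m_3_w (cp h (l := [0, m, m', a, b]) (by simp only [List.pairwise_cons, List.mem_cons, List.not_mem_nil, or_false, forall_eq_or_imp,
      forall_eq, List.Pairwise.nil, and_true, IsEmpty.forall_iff, implies_true] <;> omega) (by simp only [List.pairwise_cons, List.mem_cons, List.not_mem_nil, or_false, forall_eq_or_imp,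
      forall_eq, List.Pairwise.nil, and_true, IsEmpty.forall_iff, implies_true] <;> omega)) h1
    · exact m_4_w (cp h (l := [0, a, m, b, m']) (by simp only [List.pairwise_cons, List.mem_cons, List.not_mem_nil, or_false, forall_eq_or_imp,
      forall_eq, List.Pairwise.nil, and_true, IsEmpty.forall_iff, implies_true] <;> omega) (by simp only [List.pairwise_cons, List.mem_cons, List.not_mem_nil, or_false, forall_eq_or_imp,
      forall_eq, List.Pairwise.nil, and_true, IsEmpty.forall_iff, implies_true] <;> omega)) h1
    · exact m_5_w (cp h (l := [0, m, a, m', b]) (by simp only [List.pairwise_cons, List.mem_cons, List.not_mem_nil, or_false, forall_eq_or_imp,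
      forall_eq, List.Pairwise.nil, and_true, IsEmpty.forall_iff, implies_true] <;> omega) (by simp only [List.pairwise_cons, List.mem_cons, List.not_mem_nil, or_false, forall_eq_or_imp,
      forall_eq, List.Pairwise.nil, and_true, IsEmpty.forall_iff, implies_true] <;> omega)) h1
    · exact m_6_w (cp h (l := [0, a, m, m', b]) (by simp only [List.pairwise_cons, List.mem_cons, List.not_mem_nil, or_false, forall_eq_or_imp,
      forall_eq, List.Pairwise.nil, and_true, IsEmpty.forall_iff, implies_true] <;> omega) (by simp only [List.pairwise_cons, List.mem_cons, List.not_mem_nil, or_false, forall_eq_or_imp,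
      forall_eq, List.Pairwise.nil, and_true, IsEmpty.forall_iff, implies_true] <;> omega)) h1

theorem tri_of (h : CvP T c n k) {a b m : ℕ} (ha : 0 < a) (hab : a < b) (hbn : b < n) (hm : m < n)
    (m0 : m ≠ 0) (ma : m ≠ a) (mb : m ≠ b) (hc : T.crT (c 0) (c a) (c b) k (c m) = true) :
    Tri T c k 0 a b := by
  intro i h0 h1 h2
  obtain ⟨i', hi', he⟩ := idx h.toPer 0 i
  have e : c i = c i' := (Per.eq_iff h.toPer _ _).2 (by rw [← he, Nat.add_zero])
  rw [e] at h0 h1 h2 ⊢
  rw [← refch h ha hab hbn hm hi' m0 ma mb (fun e => h0 (by rw [e])) (fun e => h1 (by rw [e]))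
    (fun e => h2 (by rw [e]))]
  exact hc

theorem hull (h : CvP T c n k) {j m : ℕ} (hj : 0 < j) (hjn : j + 1 < n) (hm : m < n) (m0 : m ≠ 0)
    (mj : m ≠ j) (mj' : m ≠ j + 1) : T.X (c j) (c (j + 1)) (c 0) (c m) = false := by
  rw [T.xs4]
  rcases Nat.lt_or_ge m j with h1 | h1
  · exact T.one _ _ _ _ (h.cvx 0 m j (j + 1) (by omega) (by omega) (by omega) (by omega))
  · have h2 := h.cvx 0 j (j + 1) m (by omega) (by omega) (by omega) (by omega)
    have h3 := one3 h2
    rw [T.xs2]
    exact h3

/-- refinement of a triangle at `0` -/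
theorem refine0 (h : CvP T c n k) : ∀ (l a b : ℕ), b = a + l + 1 → 0 < a → b < n → Tri T c k 0 a b →
    ∃ j, a ≤ j ∧ j + 1 ≤ b ∧ Tri T c k 0 j (j + 1) := by
  intro l
  induction l with
  | zero =>
    intro a b hb ha hbn ht
    refine ⟨a, le_refl a, by omega, ?_⟩
    have : b = a + 1 := by omega
    rw [← this]
    exact ht
  | succ l ih =>
    intro a b hb ha hbn ht
    have h1 := ht (a + 1) (h.nee (by omega) (by omega) (by omega)) (h.nee (by omega) (by omega) (by omega))
      (h.nee (by omega) (by omega) (by omega))
    by_cases h2 : T.crT (c 0) (c a) (c (a + 1)) k (c b) = true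
    · exact ⟨a, le_refl a, by omega, tri_of h ha (by omega) (by omega) hbn (by omega) (by omega) (by omega) h2⟩
    · by_cases h3 : T.crT (c 0) (c (a + 1)) (c b) k (c a) = true
      · obtain ⟨j, hj1, hj2, hj3⟩ := ih (a + 1) b (by omega) (by omega) hbn
          (tri_of h (by omega) (by omega) hbn (by omega : a < n) (by omega) (by omega) (by omega) h3)
        exact ⟨j, by omega, hj2, hj3⟩
      · rw [Bool.not_eq_true] at h2 h3
        exact (sp_1_w (cp h (l := [0, a, a + 1, b]) (by simp only [List.pairwise_cons, List.mem_cons, List.not_mem_nil, or_false, forall_eq_or_imp,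
      forall_eq, List.Pairwise.nil, and_true, IsEmpty.forall_iff, implies_true] <;> omega) (by simp only [List.pairwise_cons, List.mem_cons, List.not_mem_nil, or_false, forall_eq_or_imp,
      forall_eq, List.Pairwise.nil, and_true, IsEmpty.forall_iff, implies_true] <;> omega)) h1 h2 h3).elim

theorem crT_rot (T : Table V) (a b d x y : V) : T.crT a b d x y = T.crT b d a x y := by
  unfold Table.crT crTX
  cases T.X x y a b <;> cases T.X x y b d <;> cases T.X x y d a <;> rfl

/-- the wedges at all vertices from the wedge at `0` (in the shifted sequence) -/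
theorem base (h : CvP T c n k) (h4 : 4 ≤ n) {j : ℕ} (hj : 0 < j) (hjn : j + 1 < n)
    (ht : Tri T c k 0 j (j + 1)) {i : ℕ} (hi : i < n) :
    ∃ t, 1 ≤ t ∧ t + 1 < n ∧ Tri T (fun m => c (m + i)) k 0 t (t + 1) := by
  have hs := h.shift i
  have hper := h.per
  have e0 : ∀ m, c (m + n - i + i) = c m := fun m => by
    have : m + n - i + i = m + n := by omega
    rw [this, hper]
  have fin : ∀ a b, 0 < a → a < b → b < n → Tri T (fun m => c (m + i)) k 0 a b →
      ∃ t, 1 ≤ t ∧ t + 1 < n ∧ Tri T (fun m => c (m + i)) k 0 t (t + 1) := by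
    intro a b h1 h2 h3 h5
    obtain ⟨t, ht1, ht2, ht3⟩ := refine0 hs (b - a - 1) a b (by omega) h1 h3 h5
    exact ⟨t, by omega, by omega, ht3⟩
  have C : i = 0 ∨ (0 < i ∧ i < j) ∨ i = j ∨ i = j + 1 ∨ j + 1 < i := by omega
  rcases C with C | C | C | C | C
  · subst C
    exact ⟨j, hj, hjn, ht⟩
  · -- order 0, i, j, j+1
    have h1 := ht i (h.nee (by omega) (by omega) (by omega)) (h.nee (by omega) (by omega) (by omega))
      (h.nee (by omega) (by omega) (by omega))
    have ej : c (j - i + i) = c j := by congr 1; omega
    have ej' : c (j + 1 - i + i) = c (j + 1) := by congr 1; omega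
    have e00 : c (0 + n - i + i) = c 0 := e0 0
    by_cases h2 : T.crT (c i) (c j) (c (j + 1)) k (c 0) = true
    · refine fin (j - i) (j + 1 - i) (by omega) (by omega) (by omega)
        (tri_of hs (by omega) (by omega) (by omega) (m := 0 + n - i) (by omega) (by omega) (by omega) (by omega) ?_)
      show T.crT (c (0 + i)) (c (j - i + i)) (c (j + 1 - i + i)) k (c (0 + n - i + i)) = true
      rw [ej, ej', e00, Nat.zero_add]
      exact h2
    · by_cases h3 : T.crT (c i) (c (j + 1)) (c 0) k (c j) = true
      · refine fin (j + 1 - i) (0 + n - i) (by omega) (by omega) (by omega)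
          (tri_of hs (by omega) (by omega) (by omega) (m := j - i) (by omega) (by omega) (by omega) (by omega) ?_)
        show T.crT (c (0 + i)) (c (j + 1 - i + i)) (c (0 + n - i + i)) k (c (j - i + i)) = true
        rw [ej, ej', e00, Nat.zero_add]
        exact h3
      · rw [Bool.not_eq_true] at h2 h3
        exact (bc_2_w (cp h (l := [0, i, j, j + 1]) (by simp only [List.pairwise_cons, List.mem_cons, List.not_mem_nil, or_false, forall_eq_or_imp,
      forall_eq, List.Pairwise.nil, and_true, IsEmpty.forall_iff, implies_true] <;> omega) (by simp only [List.pairwise_cons, List.mem_cons, List.not_mem_nil, or_false, forall_eq_or_imp,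
      forall_eq, List.Pairwise.nil, and_true, IsEmpty.forall_iff, implies_true] <;> omega)) h1 h2 h3).elim
  · -- i = j
    subst C
    refine fin 1 (0 + n - i) (by omega) (by omega) (by omega) ?_
    intro m h1 h2 h3
    show T.crT (c (0 + i)) (c (1 + i)) (c (0 + n - i + i)) k (c (m + i)) = true
    have e1 : c (0 + n - i + i) = c 0 := e0 0
    have e2 : c (1 + i) = c (i + 1) := by congr 1; omega
    have h1' : c (m + i) ≠ c (0 + i) := h1
    have h2' : c (m + i) ≠ c (1 + i) := h2
    have h3' : c (m + i) ≠ c (0 + n - i + i) := h3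
    rw [Nat.zero_add] at h1'
    rw [e2] at h2'
    rw [e1] at h3'
    rw [e1, e2, Nat.zero_add, ← crT_rot]
    exact ht (m + i) h3' h1' h2'
  · -- i = j + 1
    subst C
    refine fin (0 + n - (j + 1)) (n - 1) (by omega) (by omega) (by omega) ?_
    intro m h1 h2 h3
    show T.crT (c (0 + (j + 1))) (c (0 + n - (j + 1) + (j + 1))) (c (n - 1 + (j + 1))) k (c (m + (j + 1))) = true
    have e1 : c (0 + n - (j + 1) + (j + 1)) = c 0 := e0 0
    have e2 : c (n - 1 + (j + 1)) = c j := by
      have : n - 1 + (j + 1) = j + n := by omega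
      rw [this, hper]
    have h1' : c (m + (j + 1)) ≠ c (0 + (j + 1)) := h1
    have h2' : c (m + (j + 1)) ≠ c (0 + n - (j + 1) + (j + 1)) := h2
    have h3' : c (m + (j + 1)) ≠ c (n - 1 + (j + 1)) := h3
    rw [Nat.zero_add] at h1'
    rw [e1] at h2'
    rw [e2] at h3'
    rw [e1, e2, Nat.zero_add, crT_rot]
    exact ht (m + (j + 1)) h2' h3' h1'
  · -- order 0, j, j+1, i
    have h1 := ht i (h.nee (by omega) (by omega) (by omega)) (h.nee (by omega) (by omega) (by omega))
      (h.nee (by omega) (by omega) (by omega))
    have ej : c (j + n - i + i) = c j := e0 j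
    have ej' : c (j + 1 + n - i + i) = c (j + 1) := e0 (j + 1)
    have e00 : c (0 + n - i + i) = c 0 := e0 0
    by_cases h2 : T.crT (c i) (c j) (c (j + 1)) k (c 0) = true
    · refine fin (j + n - i) (j + 1 + n - i) (by omega) (by omega) (by omega)
        (tri_of hs (by omega) (by omega) (by omega) (m := 0 + n - i) (by omega) (by omega) (by omega) (by omega) ?_)
      show T.crT (c (0 + i)) (c (j + n - i + i)) (c (j + 1 + n - i + i)) k (c (0 + n - i + i)) = true
      rw [ej, ej', e00, Nat.zero_add]
      exact h2
    · by_cases h3 : T.crT (c i) (c 0) (c j) k (c (j + 1)) = true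
      · refine fin (0 + n - i) (j + n - i) (by omega) (by omega) (by omega)
          (tri_of hs (by omega) (by omega) (by omega) (m := j + 1 + n - i) (by omega) (by omega) (by omega) (by omega) ?_)
        show T.crT (c (0 + i)) (c (0 + n - i + i)) (c (j + n - i + i)) k (c (j + 1 + n - i + i)) = true
        rw [ej, ej', e00, Nat.zero_add]
        exact h3
      · rw [Bool.not_eq_true] at h2 h3
        exact (bc_1_w (cp h (l := [0, j, j + 1, i]) (by simp only [List.pairwise_cons, List.mem_cons, List.not_mem_nil, or_false, forall_eq_or_imp,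
      forall_eq, List.Pairwise.nil, and_true, IsEmpty.forall_iff, implies_true] <;> omega) (by simp only [List.pairwise_cons, List.mem_cons, List.not_mem_nil, or_false, forall_eq_or_imp,
      forall_eq, List.Pairwise.nil, and_true, IsEmpty.forall_iff, implies_true] <;> omega)) h1 h2 h3).elim

end H36L
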