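import Pool.Agent.Lib.H36L.D4

/-!
# H36L, file D5: a point on the chord side of a convex polygon lies in a wedge triangle
-/

set_option autoImplicit false
set_option linter.unusedSectionVars false
set_option linter.unusedVariables false

namespace H36L

open H53P H30P Finset

variable {V : Type*} {T : Table V} {c : ℕ → V} {n : ℕ} {k : V}

theorem z2_crT (T : Table V) (a b d x y : V) : z2 (T.crT a b d x y) = tt T a b d x y := by
  unfold Table.crT crTX tt
  rw [z2_xor, z2_xor, x4_4 T a b x y, x4_4 T b d x y, x4_4 T d a x y]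
  rfl

theorem al_x4 (T : Table V) (u a b x y : V) : al T u a b x y =
    x4 T u a x y + x4 T u b x y + x4 T a b u x + x4 T a b u y + x4 T a b x y := by
  unfold al Table.alt altX
  rw [z2_xor, z2_xor, z2_xor, z2_xor]
  rfl

theorem al_comm (T : Table V) (u a b x y : V) : al T u a b x y = al T u x y a b := by
  rw [al_x4, al_x4, x4_4 T u x a b, x4_4 T u y a b, x4_4 T x y u a, x4_4 T x y u b, x4_4 T x y a b]
  ring

theorem al_sw (T : Table V) (u a b x y : V) : al T u a b x y = al T u b a x y := by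
  rw [al_x4, al_x4, x4_1 T b a u x, x4_1 T b a u y, x4_1 T b a x y]
  ring

variable [DecidableEq V]

/-- EXISTENCE of the wedge, base `0` -/
theorem wedge0 (h : CvP T c n k) (h4 : 4 ≤ n) (hs : pfl T c n k 0 (c 2) = 0) :
    ∃ j, 1 ≤ j ∧ j + 1 < n ∧ Tri T c k 0 j (j + 1) := by
  by_contra hcon
  have hk : ∀ i, k ≠ c i := fun i => (h.off i).symm
  have F : ∀ j, 1 ≤ j → j + 1 < n → ∀ m, m < n → m ≠ 0 → m ≠ j → m ≠ j + 1 →
      T.crT (c 0) (c j) (c (j + 1)) k (c m) = false := by
    intro j h1 h2 m h3 h5 h6 h7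
    by_contra h8
    rw [Bool.not_eq_false] at h8
    exact hcon ⟨j, h1, h2, tri_of h (by omega) (by omega) h2 h3 h5 h6 h7 h8⟩
  have A : ∀ j, 1 ≤ j → j + 1 < n → ∀ m, m < n → m ≠ 0 → m ≠ j → m ≠ j + 1 →
      x4 T (c 0) k (c j) (c (j + 1)) = al T (c 0) k (c m) (c j) (c (j + 1)) := by
    intro j h1 h2 m h3 h5 h6 h7
    rw [al_eq, ← z2_crT, F j h1 h2 m h3 h5 h6 h7, z2_false, zero_add]
    have h8 : x4 T (c j) (c (j + 1)) (c 0) (c m) = 0 := by
      unfold x4
      rw [hull h (by omega) h2 h3 h5 h6 h7, z2_false]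
    rw [h8, add_zero, x4_4]
  have ne : ∀ {i j : ℕ}, i < n → j < n → i ≠ j → c i ≠ c j := fun h1 h2 h3 => h.nee h1 h2 h3
  -- the sum over the arc 2 .. n - 1
  have B : ∀ t, 2 ≤ t → t + 1 ≤ n → asum T c (c 0) k 2 t = al T (c 0) k (c 1) (c 2) (c t) := by
    intro t ht
    induction t, ht using Nat.le_induction with
    | base =>
      intro _
      rw [al_self]
      unfold asum
      rw [Ico_self, sum_empty]
    | succ t ht ih =>
      intro h1
      rw [asum_split T c (c 0) k ht (Nat.le_succ t), ih (by omega)]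
      have e1 : asum T c (c 0) k t (t + 1) = x4 T (c 0) k (c t) (c (t + 1)) := by
        unfold asum
        rw [Nat.Ico_succ_singleton, sum_singleton]
      rw [e1, A t (by omega) (by omega) 1 (by omega) (by omega) (by omega) (by omega)]
      by_cases h2 : t = 2
      · subst h2
        rw [al_self, zero_add]
      have h3 := al_add (T := T) (u := c 0) (a := k) (b := c 1) (y := c 2) (z := c (t + 1)) (w := c t)
        (hk 0).symm (ne (by omega) (by omega) (by omega)) (hk 1) (ne (by omega) (by omega) (by omega))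
        (hk 2).symm (ne (by omega) (by omega) (by omega)) (ne (by omega) (by omega) (by omega))
        (hk _).symm (ne (by omega) (by omega) (by omega)) (ne (by omega) (by omega) (by omega))
        (hk _).symm (ne (by omega) (by omega) (by omega))
      have h10 : al T (c 0) k (c 1) (c t) (c (t + 1)) = al T (c 0) k (c 1) (c (t + 1)) (c t) := by
        rw [al_comm, al_sw, al_comm]
      rw [← h3, h10]
  have e01 : asum T c (c 0) k 0 1 = 0 := by
    unfold asum
    rw [Nat.Ico_succ_singleton, sum_singleton, x4_adj1]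
  have e12 : asum T c (c 0) k 1 2 = al T (c 0) k (c (n - 1)) (c 1) (c 2) := by
    unfold asum
    rw [Nat.Ico_succ_singleton, sum_singleton]
    exact A 1 (by omega) (by omega) (n - 1) (by omega) (by omega) (by omega) (by omega)
  have en : asum T c (c 0) k (n - 1) n = 0 := by
    have e : Ico (n - 1) n = {n - 1} := by
      ext t
      rw [mem_Ico, mem_singleton]
      omega
    unfold asum
    rw [e, sum_singleton, show n - 1 + 1 = n by omega, h.cn, x4_adj2]
  have hS : pc T (pe c n) (c 0) k = al T (c 0) k (c (n - 1)) (c 1) (c 2) +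
      al T (c 0) k (c 1) (c 2) (c (n - 1)) := by
    rw [pc_pe h.toPer, asum_split T c _ _ (by omega : 0 ≤ 1) (by omega : 1 ≤ n),
      asum_split T c _ _ (by omega : 1 ≤ 2) (by omega : 2 ≤ n),
      asum_split T c _ _ (by omega : 2 ≤ n - 1) (by omega : n - 1 ≤ n), e01, e12, en,
      B (n - 1) (by omega) (by omega)]
    ring
  have h5 := al_rot (T := T) (u := c 0) (a := k) (b := c 1) (y := c 2) (z := c (n - 1)) (hk 0)
    (ne (by omega) (by omega) (by omega)) (ne (by omega) (by omega) (by omega))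
    (ne (by omega) (by omega) (by omega)) (hk _) (hk _) (hk _) (ne (by omega) (by omega) (by omega))
    (ne (by omega) (by omega) (by omega)) (ne (by omega) (by omega) (by omega))
  have h6 : pfl T c n k 0 (c 2) = pc T (pe c n) (c 0) k + al T (c 0) (c 1) (c (n - 1)) (c 2) k := by
    unfold pfl
    rw [Nat.zero_add, Nat.zero_add]
  have h7 : al T (c 0) (c 1) (c (n - 1)) (c 2) k = al T (c 0) k (c 2) (c 1) (c (n - 1)) := by
    rw [al_comm, al_sw]
  have h8 : al T (c 0) k (c (n - 1)) (c 1) (c 2) = al T (c 0) k (c (n - 1)) (c 1) (c 2) := rfl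
  rw [h6, h7, hS] at hs
  have h9 : (1 : ZMod 2) = 0 := by
    rw [← h5]
    linear_combination hs
  exact absurd h9 (by decide)

/-- the start side of a chord does not depend on the chord -/
theorem pfl_chord0 (h : CvP T c n k) {j : ℕ} (hj : 2 ≤ j) (hjn : j + 2 ≤ n) :
    pfl T c n k 0 (c j) = pfl T c n k 0 (c 2) := by
  by_cases h2 : j = 2
  · rw [h2]
  have hk : ∀ i, k ≠ c i := fun i => (h.off i).symm
  have ne : ∀ {i j : ℕ}, i < n → j < n → i ≠ j → c i ≠ c j := fun h1 h2 h3 => h.nee h1 h2 h3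
  unfold pfl
  rw [Nat.zero_add, Nat.zero_add]
  have h3 := al_add (T := T) (u := c 0) (a := c 1) (b := c (n - 1)) (y := c j) (z := c 2) (w := k)
    (ne (by omega) (by omega) (by omega)) (ne (by omega) (by omega) (by omega))
    (ne (by omega) (by omega) (by omega)) (ne (by omega) (by omega) (by omega))
    (ne (by omega) (by omega) (by omega)) (ne (by omega) (by omega) (by omega))
    (ne (by omega) (by omega) (by omega)) (ne (by omega) (by omega) (by omega))
    (ne (by omega) (by omega) (by omega)) (hk _) (hk _) (hk _)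
  have h5 : al T (c 0) (c 1) (c (n - 1)) (c j) (c 2) = 0 := by
    have h6 : T.alt (c 0) (c 1) (c (n - 1)) (c 2) (c j) = false := by
      apply bf
      intro h7
      exact al_1_w (cp h (l := [0, 1, 2, j, n - 1]) (by simp only [List.pairwise_cons, List.mem_cons, List.not_mem_nil, or_false, forall_eq_or_imp,
      forall_eq, List.Pairwise.nil, and_true, IsEmpty.forall_iff, implies_true] <;> omega) (by simp only [List.pairwise_cons, List.mem_cons, List.not_mem_nil, or_false, forall_eq_or_imp,
      forall_eq, List.Pairwise.nil, and_true, IsEmpty.forall_iff, implies_true] <;> omega)) h7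
    rw [al_comm, al_sw, al_comm]
    unfold al
    rw [h6, z2_false]
  rw [h5] at h3
  have h6 := two_z (al T (c 0) (c 1) (c (n - 1)) (c 2) k)
  linear_combination h3 - h6

/-- EXISTENCE of the wedges at all vertices, from the side of one chord -/
theorem wedge (h : CvP T c n k) (h4 : 4 ≤ n) {i₀ j₀ : ℕ} (h1 : i₀ + 2 ≤ j₀) (h2 : j₀ + 2 ≤ i₀ + n)
    (hs : pfl T c n k i₀ (c j₀) = 0) (i : ℕ) :
    ∃ t, 1 ≤ t ∧ t + 1 < n ∧ Tri T (fun m => c (m + i)) k 0 t (t + 1) := by
  have hs' := h.shift i₀
  have e1 : pfl T (fun m => c (m + i₀)) n k 0 (c (j₀ - i₀ + i₀)) = 0 := by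
    rw [← hs]
    unfold pfl
    rw [H30P.Per.pe_shift h.toPer i₀]
    show pc T (pe c n) (c (0 + i₀)) k + al T (c (0 + i₀)) (c (0 + 1 + i₀)) (c (0 + n - 1 + i₀))
      (c (j₀ - i₀ + i₀)) k = _
    rw [show 0 + i₀ = i₀ by omega, show 0 + 1 + i₀ = i₀ + 1 by omega,
      show 0 + n - 1 + i₀ = i₀ + n - 1 by omega, show j₀ - i₀ + i₀ = j₀ by omega]
  have e2 : pfl T (fun m => c (m + i₀)) n k 0 ((fun m => c (m + i₀)) 2) = 0 := by
    rw [← pfl_chord0 hs' (by omega : 2 ≤ j₀ - i₀) (by omega)]
    exact e1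
  obtain ⟨j, hj1, hj2, hj3⟩ := wedge0 hs' h4 e2
  obtain ⟨i', hi', he⟩ := idx h.toPer i₀ i
  obtain ⟨t, ht1, ht2, ht3⟩ := base hs' h4 hj1 hj2 hj3 hi'
  refine ⟨t, ht1, ht2, ?_⟩
  have e3 : (fun m => c (m + i)) = fun m => (fun m => c (m + i₀)) (m + i') := by
    funext m
    show c (m + i) = c (m + i' + i₀)
    rw [Per.eq_iff h.toPer]
    rw [show m + i' + i₀ = m + (i' + i₀) by omega]
    exact Nat.ModEq.add_left m he.symm
  rw [e3]
  exact ht3

end H36L
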