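import Pool.Agent.Lib.H36L.D5

/-!
# H36L, file D6: the DOOR lemma

`door`: `c` a convex polygon (`H30P.Cvx`) of a drawing (crossing table), `k` a point off it on the chord side
(`H30P.pfl T c n k i (c j) = 0` for one chord). There is an edge `c d, c (d + 1)` (the door of `k`) with
* `all`: every ray `k (c i)` which crosses an edge of the polygon crosses the door,
* `tri`: then `k` is in the triangle `c i, c d, c (d + 1)` (on the other side than all other vertices),
* `two`: and the ray crosses at most one more edge.
`door3`: the same for triangles, any `k`.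
-/

set_option autoImplicit false
set_option linter.unusedSectionVars false
set_option linter.unusedVariables false

namespace H36L

open H53P H30P Finset

variable {V : Type*} {T : Table V} {c : ℕ → V} {n : ℕ} {k : V}

/-- the ray from `k` to `0` crosses an edge: it crosses the wedge edge -/
theorem f10 (h : CvP T c n k) {j e : ℕ} (hj : 1 ≤ j) (hjn : j + 1 < n) (ht : Tri T c k 0 j (j + 1))
    (he : 1 ≤ e) (hen : e + 1 < n) (hX : T.X k (c 0) (c e) (c (e + 1)) = true) :
    T.X k (c 0) (c j) (c (j + 1)) = true := by
  apply bt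
  intro h2
  have C : j + 1 < e ∨ e = j + 1 ∨ e = j ∨ e + 1 = j ∨ e + 1 < j := by omega
  rcases C with C | C | C | C | C
  · exact f1_1_w (cp h (l := [0, j, j + 1, e, e + 1]) (by simp only [List.pairwise_cons, List.mem_cons, List.not_mem_nil, or_false, forall_eq_or_imp,
      forall_eq, List.Pairwise.nil, and_true, IsEmpty.forall_iff, implies_true] <;> omega) (by simp only [List.pairwise_cons, List.mem_cons, List.not_mem_nil, or_false, forall_eq_or_imp,
      forall_eq, List.Pairwise.nil, and_true, IsEmpty.forall_iff, implies_true] <;> omega))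
      (ht _ (h.nee (by omega) (by omega) (by omega)) (h.nee (by omega) (by omega) (by omega))
        (h.nee (by omega) (by omega) (by omega))) hX h2
  · subst C
    exact f1_2_w (cp h (l := [0, j, j + 1, j + 1 + 1]) (by simp only [List.pairwise_cons, List.mem_cons, List.not_mem_nil, or_false, forall_eq_or_imp,
      forall_eq, List.Pairwise.nil, and_true, IsEmpty.forall_iff, implies_true] <;> omega) (by simp only [List.pairwise_cons, List.mem_cons, List.not_mem_nil, or_false, forall_eq_or_imp,
      forall_eq, List.Pairwise.nil, and_true, IsEmpty.forall_iff, implies_true] <;> omega))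
      (ht _ (h.nee (by omega) (by omega) (by omega)) (h.nee (by omega) (by omega) (by omega))
        (h.nee (by omega) (by omega) (by omega))) hX h2
  · subst C
    rw [hX] at h2
    exact absurd h2 (by decide)
  · subst C
    exact f1_4_w (cp h (l := [0, e, e + 1, e + 1 + 1]) (by simp only [List.pairwise_cons, List.mem_cons, List.not_mem_nil, or_false, forall_eq_or_imp,
      forall_eq, List.Pairwise.nil, and_true, IsEmpty.forall_iff, implies_true] <;> omega) (by simp only [List.pairwise_cons, List.mem_cons, List.not_mem_nil, or_false, forall_eq_or_imp,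
      forall_eq, List.Pairwise.nil, and_true, IsEmpty.forall_iff, implies_true] <;> omega))
      (ht _ (h.nee (by omega) (by omega) (by omega)) (h.nee (by omega) (by omega) (by omega))
        (h.nee (by omega) (by omega) (by omega))) hX h2
  · exact f1_3_w (cp h (l := [0, e, e + 1, j, j + 1]) (by simp only [List.pairwise_cons, List.mem_cons, List.not_mem_nil, or_false, forall_eq_or_imp,
      forall_eq, List.Pairwise.nil, and_true, IsEmpty.forall_iff, implies_true] <;> omega) (by simp only [List.pairwise_cons, List.mem_cons, List.not_mem_nil, or_false, forall_eq_or_imp,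
      forall_eq, List.Pairwise.nil, and_true, IsEmpty.forall_iff, implies_true] <;> omega))
      (ht _ (h.nee (by omega) (by omega) (by omega)) (h.nee (by omega) (by omega) (by omega))
        (h.nee (by omega) (by omega) (by omega))) hX h2

/-- the wedge is unique -/
theorem uniq0 (h : CvP T c n k) {j e : ℕ} (hj : 1 ≤ j) (hjn : j + 1 < n) (ht : Tri T c k 0 j (j + 1))
    (he : 1 ≤ e) (hen : e + 1 < n) (ht' : Tri T c k 0 e (e + 1)) : e = j := by
  wlog hlt : j < e generalizing j e with H
  · rcases Nat.lt_or_ge e j with h1 | h1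
    · exact (H he hen ht' hj hjn ht h1).symm
    · omega
  · exfalso
    by_cases C : e = j + 1
    · subst C
      exact u_2_w (cp h (l := [0, j, j + 1, j + 1 + 1]) (by simp only [List.pairwise_cons, List.mem_cons, List.not_mem_nil, or_false, forall_eq_or_imp,
      forall_eq, List.Pairwise.nil, and_true, IsEmpty.forall_iff, implies_true] <;> omega) (by simp only [List.pairwise_cons, List.mem_cons, List.not_mem_nil, or_false, forall_eq_or_imp,
      forall_eq, List.Pairwise.nil, and_true, IsEmpty.forall_iff, implies_true] <;> omega))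
        (ht _ (h.nee (by omega) (by omega) (by omega)) (h.nee (by omega) (by omega) (by omega))
          (h.nee (by omega) (by omega) (by omega)))
        (ht' _ (h.nee (by omega) (by omega) (by omega)) (h.nee (by omega) (by omega) (by omega))
          (h.nee (by omega) (by omega) (by omega)))
    · exact u_1_w (cp h (l := [0, j, j + 1, e, e + 1]) (by simp only [List.pairwise_cons, List.mem_cons, List.not_mem_nil, or_false, forall_eq_or_imp,
      forall_eq, List.Pairwise.nil, and_true, IsEmpty.forall_iff, implies_true] <;> omega) (by simp only [List.pairwise_cons, List.mem_cons, List.not_mem_nil, or_false, forall_eq_or_imp,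
      forall_eq, List.Pairwise.nil, and_true, IsEmpty.forall_iff, implies_true] <;> omega))
        (ht _ (h.nee (by omega) (by omega) (by omega)) (h.nee (by omega) (by omega) (by omega))
          (h.nee (by omega) (by omega) (by omega)))
        (ht' _ (h.nee (by omega) (by omega) (by omega)) (h.nee (by omega) (by omega) (by omega))
          (h.nee (by omega) (by omega) (by omega)))

/-- outside its wedge the ray crosses at most one edge -/
theorem two0 (h : CvP T c n k) {j e f : ℕ} (hj : 1 ≤ j) (hjn : j + 1 < n) (ht : Tri T c k 0 j (j + 1))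
    (he : 1 ≤ e) (hen : e + 1 < n) (hf : 1 ≤ f) (hfn : f + 1 < n) (hej : e ≠ j) (hfj : f ≠ j)
    (h1 : T.X k (c 0) (c e) (c (e + 1)) = true) (h2 : T.X k (c 0) (c f) (c (f + 1)) = true) : e = f := by
  wlog hlt : e < f generalizing e f with H
  · rcases Nat.lt_or_ge f e with h3 | h3
    · exact (H hf hfn he hen hfj hej h2 h1 h3).symm
    · omega
  · exfalso
    have g : ∀ {a : ℕ}, 1 ≤ a → a + 1 < n → a ≠ j → ∀ m, m < n → m ≠ 0 → m ≠ a → m ≠ a + 1 →
        T.crT (c 0) (c a) (c (a + 1)) k (c m) = false := by
      intro a ha han haj m hm m0 ma ma'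
      apply bf
      intro h3
      exact haj (uniq0 h hj hjn ht ha han (tri_of h (by omega) (by omega) han hm m0 ma ma' h3))
    by_cases C : f = e + 1
    · subst C
      exact f3_2_w (cp h (l := [0, e, e + 1, e + 1 + 1]) (by simp only [List.pairwise_cons, List.mem_cons, List.not_mem_nil, or_false, forall_eq_or_imp,
      forall_eq, List.Pairwise.nil, and_true, IsEmpty.forall_iff, implies_true] <;> omega) (by simp only [List.pairwise_cons, List.mem_cons, List.not_mem_nil, or_false, forall_eq_or_imp,
      forall_eq, List.Pairwise.nil, and_true, IsEmpty.forall_iff, implies_true] <;> omega)) h1 h2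
        (g he hen hej _ (by omega) (by omega) (by omega) (by omega))
        (g hf hfn hfj _ (by omega) (by omega) (by omega) (by omega))
    · exact f3_1_w (cp h (l := [0, e, e + 1, f, f + 1]) (by simp only [List.pairwise_cons, List.mem_cons, List.not_mem_nil, or_false, forall_eq_or_imp,
      forall_eq, List.Pairwise.nil, and_true, IsEmpty.forall_iff, implies_true] <;> omega) (by simp only [List.pairwise_cons, List.mem_cons, List.not_mem_nil, or_false, forall_eq_or_imp,
      forall_eq, List.Pairwise.nil, and_true, IsEmpty.forall_iff, implies_true] <;> omega)) h1 h2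
        (g he hen hej _ (by omega) (by omega) (by omega) (by omega))
        (g hf hfn hfj _ (by omega) (by omega) (by omega) (by omega))

theorem Tri.congr {i a b i' a' b' : ℕ} (h : Tri T c k i a b) (hi : c i = c i') (ha : c a = c a')
    (hb : c b = c b') : Tri T c k i' a' b' := by
  intro m h1 h2 h3
  rw [← hi] at h1
  rw [← ha] at h2
  rw [← hb] at h3
  rw [← hi, ← ha, ← hb]
  exact h m h1 h2 h3

theorem Tri.sh {i a b : ℕ} (d : ℕ) (h : Tri T c k (i + d) (a + d) (b + d)) :
    Tri T (fun m => c (m + d)) k i a b := fun m h1 h2 h3 => h (m + d) h1 h2 h3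

theorem Tri.ush (hp : Per c n) {i a b : ℕ} (d : ℕ) (h : Tri T (fun m => c (m + d)) k i a b) :
    Tri T c k (i + d) (a + d) (b + d) := by
  intro m h1 h2 h3
  obtain ⟨m', _, he⟩ := idx hp d m
  have e : c m = c (m' + d) := (Per.eq_iff hp _ _).2 he.symm
  rw [e] at h1 h2 h3 ⊢
  exact h m' h1 h2 h3

/-- representatives of an edge and of a vertex -/
theorem rep (hp : Per c n) (d t : ℕ) : ∃ t', t' < n ∧ c (t' + d) = c t ∧ c (t' + 1 + d) = c (t + 1) ∧
    (t' + d) % n = t % n := by
  obtain ⟨t', ht', he⟩ := idx hp d t
  refine ⟨t', ht', (Per.eq_iff hp _ _).2 he, (Per.eq_iff hp _ _).2 ?_, he⟩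
  rw [show t' + 1 + d = t' + d + 1 by omega]
  exact Nat.ModEq.add_right 1 he

/-- every crossing ray crosses the wedge edge of a crossing ray -/
theorem core (h : CvP T c n k) {x j : ℕ} (hxj : x < j) (hjx : j + 1 < x + n) (ht : Tri T c k x j (j + 1))
    (hX : T.X k (c x) (c j) (c (j + 1)) = true) {i t : ℕ} (hi : T.X k (c i) (c t) (c (t + 1)) = true) :
    T.X k (c i) (c j) (c (j + 1)) = true := by
  have hs := h.shift j
  obtain ⟨y, hy, ey, _, _⟩ := rep h.toPer j i
  obtain ⟨v, hv, ev, ev', _⟩ := rep h.toPer j t
  have ex : c (x + n - j + j) = c x := by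
    rw [show x + n - j + j = x + n by omega, h.per]
  have e0 : c (0 + j) = c j := by rw [Nat.zero_add]
  have e1 : c (1 + j) = c (j + 1) := by rw [Nat.add_comm]
  by_cases hv0 : v = 0
  · subst hv0
    have ev0 : c (0 + 1 + j) = c (t + 1) := ev'
    rw [show 0 + 1 + j = j + 1 by omega] at ev0
    rw [← ev0, ← ev, e0] at hi
    exact hi
  · apply bt
    intro h3
    refine door0 hs (x := x + n - j) (y := y) (v := v) (by omega) (by omega) ?_ ?_ hy (by omega) hv ?_ ?_
    · apply Tri.sh
      exact ht.congr ex.symm e0.symm e1.symm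
    · show T.X k (c (x + n - j + j)) (c (0 + j)) (c (1 + j)) = true
      rw [ex, e0, e1]
      exact hX
    · show T.X k (c (y + j)) (c (v + j)) (c (v + 1 + j)) = true
      rw [ey, ev, ev']
      exact hi
    · show T.X k (c (y + j)) (c (0 + j)) (c (1 + j)) = false
      rw [ey, e0, e1]
      exact h3

/-- the door of `k` -/
structure Door (T : Table V) (c : ℕ → V) (k : V) (d : ℕ) : Prop where
  all : ∀ i t, T.X k (c i) (c t) (c (t + 1)) = true → T.X k (c i) (c d) (c (d + 1)) = true
  tri : ∀ i, T.X k (c i) (c d) (c (d + 1)) = true → Tri T c k i d (d + 1)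
  two : ∀ i t t', T.X k (c i) (c t) (c (t + 1)) = true → T.X k (c i) (c t') (c (t' + 1)) = true →
    c t = c d ∨ c t' = c d ∨ c t = c t'

variable [DecidableEq V]

/-- wedge of a vertex, and the crossed wedge edge -/
theorem wedge' (h : CvP T c n k) (h4 : 4 ≤ n) {i₀ j₀ : ℕ} (h1 : i₀ + 2 ≤ j₀) (h2 : j₀ + 2 ≤ i₀ + n)
    (hs : pfl T c n k i₀ (c j₀) = 0) {i t : ℕ} (hX : T.X k (c i) (c t) (c (t + 1)) = true) :
    ∃ j, i < j ∧ j + 1 < i + n ∧ Tri T c k i j (j + 1) ∧ T.X k (c i) (c j) (c (j + 1)) = true := by
  obtain ⟨s, hs1, hs2, hs3⟩ := wedge h h4 h1 h2 hs i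
  have hsh := h.shift i
  obtain ⟨e, he, ee, ee', _⟩ := rep h.toPer i t
  have hne := T.ne _ _ _ _ hX
  have e0 : e ≠ 0 := by
    rintro rfl
    rw [Nat.zero_add] at ee
    exact hne.2.2.2.2.1 ee
  have e1 : e + 1 ≠ n := by
    intro h5
    rw [h5, Nat.add_comm n i, h.per] at ee'
    exact hne.2.2.2.2.2 ee'
  have h6 := f10 hsh hs1 hs2 hs3 (e := e) (by omega) (by omega) (by
    show T.X k (c (0 + i)) (c (e + i)) (c (e + 1 + i)) = true
    rw [Nat.zero_add, ee, ee']
    exact hX)
  have h7 := hs3.ush h.toPer
  have h6' : T.X k (c (0 + i)) (c (s + i)) (c (s + 1 + i)) = true := h6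
  rw [Nat.zero_add] at h6'
  rw [show s + 1 + i = s + i + 1 by omega] at h6' h7
  refine ⟨s + i, by omega, by omega, ?_, h6'⟩
  exact h7.congr (by rw [Nat.zero_add]) rfl rfl

/-- DOOR LEMMA -/
theorem door (h : CvP T c n k) (h4 : 4 ≤ n) {i₀ j₀ : ℕ} (h1 : i₀ + 2 ≤ j₀) (h2 : j₀ + 2 ≤ i₀ + n)
    (hs : pfl T c n k i₀ (c j₀) = 0) : ∃ d, Door T c k d := by
  by_cases hex : ∃ x t, T.X k (c x) (c t) (c (t + 1)) = true
  · obtain ⟨x, t₀, hx0⟩ := hex
    obtain ⟨d, hd1, hd2, hd3, hd4⟩ := wedge' h h4 h1 h2 hs hx0
    have hall : ∀ i t, T.X k (c i) (c t) (c (t + 1)) = true → T.X k (c i) (c d) (c (d + 1)) = true :=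
      fun i t hi => core h hd1 hd2 hd3 hd4 hi
    have htri : ∀ i, T.X k (c i) (c d) (c (d + 1)) = true → Tri T c k i d (d + 1) := by
      intro i hi
      by_cases hix : c i = c x
      · exact hd3.congr hix.symm rfl rfl
      obtain ⟨j, hj1, hj2, hj3, hj4⟩ := wedge' h h4 h1 h2 hs hi
      have hsd := h.shift d
      obtain ⟨y, hy, ey, _, _⟩ := rep h.toPer d i
      obtain ⟨v, hv, ev, ev', _⟩ := rep h.toPer d j
      have ex : c (x + n - d + d) = c x := by
        rw [show x + n - d + d = x + n by omega, h.per]
      have e0 : c (0 + d) = c d := by rw [Nat.zero_add]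
      have e1 : c (1 + d) = c (d + 1) := by rw [Nat.add_comm]
      by_cases hv0 : v = 0
      · subst hv0
        have ev0 : c (0 + 1 + d) = c (j + 1) := ev'
        rw [show 0 + 1 + d = d + 1 by omega] at ev0
        exact hj3.congr rfl (ev.symm.trans e0) ev0.symm
      · exfalso
        have hyx : y ≠ x + n - d := by
          intro h5
          apply hix
          rw [← ey, h5, ex]
        refine door5 hsd (x := x + n - d) (y := y) (v := v) (by omega) (by omega) ?_ ?_ hy hyx (by omega) hv
          ?_ ?_ ?_ ?_
        · apply Tri.sh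
          exact hd3.congr ex.symm e0.symm e1.symm
        · show T.X k (c (x + n - d + d)) (c (0 + d)) (c (1 + d)) = true
          rw [ex, e0, e1]
          exact hd4
        · apply Tri.sh
          exact hj3.congr ey.symm ev.symm ev'.symm
        · show T.X k (c (x + n - d + d)) (c (v + d)) (c (v + 1 + d)) = true
          rw [ex, ev, ev']
          exact core h hj1 hj2 hj3 hj4 hd4
        · show T.X k (c (y + d)) (c (v + d)) (c (v + 1 + d)) = true
          rw [ey, ev, ev']
          exact hj4
        · show T.X k (c (y + d)) (c (0 + d)) (c (1 + d)) = true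
          rw [ey, e0, e1]
          exact hi
    refine ⟨d, hall, htri, ?_⟩
    intro i t t' ht ht'
    have hXd := hall i t ht
    have hT := htri i hXd
    have hsi := h.shift i
    have wd : ∀ s, T.X k (c i) (c s) (c (s + 1)) = true → ∃ e, 1 ≤ e ∧ e + 1 < n ∧ c (e + i) = c s ∧
        c (e + 1 + i) = c (s + 1) := by
      intro s hX
      obtain ⟨e, he, ee, ee', _⟩ := rep h.toPer i s
      have hne := T.ne _ _ _ _ hX
      have e0 : e ≠ 0 := by
        rintro rfl
        rw [Nat.zero_add] at ee
        exact hne.2.2.2.2.1 ee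
      have e1 : e + 1 ≠ n := by
        intro h5
        rw [h5, Nat.add_comm n i, h.per] at ee'
        exact hne.2.2.2.2.2 ee'
      exact ⟨e, by omega, by omega, ee, ee'⟩
    obtain ⟨a, a1, a2, a3, a4⟩ := wd d hXd
    obtain ⟨b, b1, b2, b3, b4⟩ := wd t ht
    obtain ⟨b', b1', b2', b3', b4'⟩ := wd t' ht'
    by_cases hba : b = a
    · left
      rw [← b3, hba, a3]
    by_cases hba' : b' = a
    · right
      left
      rw [← b3', hba', a3]
    right
    right
    have h5 : b = b' := by
      refine two0 hsi a1 a2 ?_ b1 b2 b1' b2' hba hba' ?_ ?_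
      · apply Tri.sh
        exact hT.congr (by rw [Nat.zero_add]) a3.symm a4.symm
      · show T.X k (c (0 + i)) (c (b + i)) (c (b + 1 + i)) = true
        rw [Nat.zero_add, b3, b4]
        exact ht
      · show T.X k (c (0 + i)) (c (b' + i)) (c (b' + 1 + i)) = true
        rw [Nat.zero_add, b3', b4']
        exact ht'
    rw [← b3, h5, b3']
  · exact ⟨0, fun i t ht => absurd ⟨i, t, ht⟩ hex, fun i hi => absurd ⟨i, 0, hi⟩ hex,
      fun i t t' ht => absurd ⟨i, t, ht⟩ hex⟩

/-- DOOR LEMMA for triangles -/
theorem door3 (h : Per c 3) (hk : ∀ i, c i ≠ k) : ∃ d, Door T c k d := by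
  by_cases hex : ∃ x t, T.X k (c x) (c t) (c (t + 1)) = true
  · obtain ⟨x, t, hx⟩ := hex
    have third : ∀ y s, T.X k (c y) (c s) (c (s + 1)) = true → c y = c (s + 2) := by
      intro y s hy
      have hne := T.ne _ _ _ _ hy
      have h1 := hne.2.2.2.2.1
      have h2 := hne.2.2.2.2.2
      rw [Ne, Per.eq_iff h] at h1 h2
      rw [Per.eq_iff h]
      omega
    have key : ∀ y s, T.X k (c y) (c s) (c (s + 1)) = true → c s = c t := by
      intro y s hy
      by_contra hst
      have e1 := third x t hx
      have e2 := third y s hy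
      rw [e1] at hx
      rw [e2] at hy
      have h5 : s % 3 ≠ t % 3 := fun h5 => hst ((Per.eq_iff h _ _).2 h5)
      have h6 : s % 3 = (t + 1) % 3 ∨ s % 3 = (t + 2) % 3 := by omega
      have h7 := T.one _ _ _ _ hx
      have h8 := one3 hx
      rcases h6 with h6 | h6
      · have a1 : c s = c (t + 1) := (Per.eq_iff h _ _).2 h6
        have a2 : c (s + 1) = c (t + 2) := (Per.eq_iff h _ _).2 (by omega)
        have a3 : c (s + 2) = c t := (Per.eq_iff h _ _).2 (by omega)
        rw [a1, a2, a3, T.xs2] at hy
        rw [h7] at hy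
        exact absurd hy (by decide)
      · have a1 : c s = c (t + 2) := (Per.eq_iff h _ _).2 h6
        have a2 : c (s + 1) = c t := (Per.eq_iff h _ _).2 (by omega)
        have a3 : c (s + 2) = c (t + 1) := (Per.eq_iff h _ _).2 (by omega)
        rw [a1, a2, a3] at hy
        rw [h8] at hy
        exact absurd hy (by decide)
    refine ⟨t, ?_, ?_, ?_⟩
    · intro i s hi
      have h1 := key i s hi
      have h2 : c (s + 1) = c (t + 1) := by
        rw [Per.eq_iff h] at h1 ⊢
        omega
      rw [h1, h2] at hi
      exact hi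
    · intro i hi m h1 h2 h3
      exfalso
      have h5 := third i t hi
      rw [h5] at h1
      rw [Ne, Per.eq_iff h] at h1 h2 h3
      omega
    · intro i s s' hs _
      exact Or.inl (key i s hs)
  · exact ⟨0, fun i t ht => absurd ⟨i, t, ht⟩ hex, fun i hi => absurd ⟨i, 0, hi⟩ hex,
      fun i t t' ht => absurd ⟨i, t, ht⟩ hex⟩

end H36L
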