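import Pool.Agent.Lib.H10S.RSep

/-!
# H36L, file NC: chords in a room (definitions)

`h : Room T w p A B`: path `w 0, .., w p`, `c = (w 0) B`, `d = (w p) A` cross at `o`.

* `NCh i j`: the edge `(w i)(w j)` is a chord in the room;
* `ACh j`: the edge `(w j) A` misses the path and starts in the room (it leaves it through `[w 0, o]`);
* `ix j k`: the positions without `j + 1, .., k - 1`.
-/

set_option autoImplicit false

namespace H36L

open H53P H30P H10S Finset

variable {V : Type*} [DecidableEq V]

/-- a chord in the room -/
structure NCh (T : Table V) (w : ℕ → V) (p : ℕ) (A B : V) (i j : ℕ) : Prop where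
  lt : i + 2 ≤ j
  le : j ≤ p
  mis : Mis T w p (w i) (w j)
  mc : T.X (w 0) B (w i) (w j) = false
  md : T.X (w p) A (w i) (w j) = false
  l : 0 < i → rf T w p A B i (w j) = 1
  r : j < p → rf T w p A B j (w i) = 1
  g : i = 0 → j = p → inn T (w 0) B (w p) A (w 1) = false

/-- an `A`-chord -/
structure ACh (T : Table V) (w : ℕ → V) (p : ℕ) (A B : V) (j : ℕ) : Prop where
  pos : 0 < j
  lt : j < p
  mis : Mis T w p (w j) A
  st : rf T w p A B j A = 1

/-- the positions which are left when `j + 1, .., k - 1` are dropped -/
def ix (j k t : ℕ) : ℕ := if t ≤ j then t else t + (k - j - 1)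

end H36L
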