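import Pool.Agent.Lib.H36L.Rules

/-!
# H36L, file NG: chords in a room cross iff they interleave (G3); short rooms (G4')
-/

set_option autoImplicit false
set_option linter.unusedSectionVars false
set_option linter.unusedVariables false

namespace H36L

open H53P H30P H10S Finset

variable {V : Type*} [DecidableEq V] {T : Table V} {w : ℕ → V} {p : ℕ} {A B : V}

namespace Pol

variable {x m : ℕ} (h : Pol T w p A B x m)

include h

/-- crossings with the polygon -/
theorem pce (u v : V) : pc T (E2 w x m) u v = asum T w u v x (x + m) + x4 T u v (w (x + m)) (w x) := by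
  unfold E2
  rw [pc_pe h.per']
  unfold asum
  rw [← range_eq_Ico, sum_range_succ, sub_of le_rfl, sub_top]
  congr 1
  rw [sum_Ico_eq_sum_range, Nat.add_sub_cancel_left]
  apply sum_congr rfl
  intro k hk
  rw [mem_range] at hk
  rw [sub_of (by omega), sub_of (by omega), show x + (k + 1) = x + k + 1 by ring]

end Pol

theorem x4_of {a b c d : V} (h : T.X a b c d = false) : x4 T a b c d = 0 := by
  unfold x4
  rw [h]
  rfl

theorem x4_t {a b c d : V} (h : T.X a b c d = true) : x4 T a b c d = 1 := by
  unfold x4
  rw [h]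
  rfl

/-- nested chords with equal flags do not cross -/
theorem e_in (h : Ext T w p A B) {s x y t : ℕ} (h1 : s < x) (h2 : x + 2 ≤ y) (h3 : y < t) (h4 : t ≤ p)
    (m1 : Mis T w p (w s) (w t)) (m2 : Mis T w p (w x) (w y))
    (hr : rf T w p A B x (w y) = rf T w p A B y (w x)) : T.X (w s) (w t) (w x) (w y) = false := by
  have hP := h.pol (s := s) (t := t) (by omega) (by omega) m1
  have e2 := hP.rfp h1 (by omega) (w y)
  have e3 := hP.rfp (t := y) (by omega) (by omega) (w x)
  have e4 := hP.c1' (s := x) (t := y) h1 (by omega) (by omega)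
  have e5 := pfl_two hP.per' (h.offB' hP.le) (i := x - s) (j := y - s) (by omega) (by omega) (T := T)
  rw [sub_of (by omega), sub_of (by omega), show s + (x - s) = x by omega, show s + (y - s) = y by omega] at e5
  have e6 := hP.pce (w x) (w y)
  unfold E2 at e6
  rw [asum_unc (c := w) (fun k k1 k2 => m2 k (by omega)), zero_add, show s + (t - s) = t by omega, ← e5] at e6
  cases hX : T.X (w s) (w t) (w x) (w y) with
  | false => rfl
  | true =>
    exfalso
    rw [T.xs6] at hX
    have e7 := x4_t hX
    rw [e2, e3, e4] at hr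
    have e8 : pfl T (sub w s (t - s + 1)) (t - s + 1) B (x - s) (w y) =
      pfl T (sub w s (t - s + 1)) (t - s + 1) B (y - s) (w x) := by linear_combination hr
    rw [e8, two_z] at e6
    rw [← e6] at e7
    exact absurd e7 (by decide)

/-- chords beside each other do not cross -/
theorem e_out (h : Ext T w p A B) {s t x y : ℕ} (h0 : s + 2 ≤ t) (h1 : t < x) (h2 : x + 2 ≤ y) (h4 : y ≤ p)
    (m1 : Mis T w p (w s) (w t)) (m2 : Mis T w p (w x) (w y)) : T.X (w s) (w t) (w x) (w y) = false := by
  have hP := h.pol (s := s) (t := t) (by omega) (by omega) m1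
  have e8 := arc_side (T := T) (c := w) hP.clo hP.offB2 (i := x) (j := y) (by omega)
    (fun k k1 k2 => hP.off2 (by omega) (by omega)) (fun k k1 k2 => hP.pcz (by omega))
  have e9 := pc_co hP.clo (hP.off2 (y := x) (by omega) (by omega)) (hP.off2 (y := y) (by omega) (by omega))
    hP.offB2 (T := T)
  have e6 := hP.pce (w x) (w y)
  rw [asum_unc (c := w) (fun k k1 k2 => m2 k (by omega)), zero_add, show s + (t - s) = t by omega, ← e9, e8,
    two_z] at e6
  cases hX : T.X (w s) (w t) (w x) (w y) with
  | false => rfl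
  | true =>
    exfalso
    rw [T.xs6] at hX
    have e7 := x4_t hX
    rw [← e6] at e7
    exact absurd e7 (by decide)

/-- interleaving chords with inner flags `1` cross -/
theorem e_x (h : Ext T w p A B) {s x t y : ℕ} (h1 : s < x) (h2 : x < t) (h3 : t < y) (h4 : y ≤ p)
    (m1 : Mis T w p (w s) (w t)) (m2 : Mis T w p (w x) (w y)) (r1 : rf T w p A B t (w s) = 1)
    (r2 : rf T w p A B x (w y) = 1) : T.X (w s) (w t) (w x) (w y) = true := by
  cases hX : T.X (w s) (w t) (w x) (w y) with
  | true => rfl
  | false =>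
    exfalso
    rw [T.xs4] at hX
    have := eR h h1 h2 h3 h4 m1 m2 hX
    rw [r1, r2] at this
    exact absurd this (by decide)

/-- chords of the extended sequence -/
theorem NCh.ex' (h : Room T w p A B) {i j : ℕ} (hc : NCh T w p A B i j) :
    Mis T (ex w p A) p (ex w p A i) (ex w p A j) ∧
    (0 < i → rf T (ex w p A) p A B i (ex w p A j) = 1) ∧ (j < p → rf T (ex w p A) p A B j (ex w p A i) = 1) := by
  have hl := hc.lt
  have hle := hc.le
  rw [ex_of hle, ex_of (by omega : i ≤ p)]
  refine ⟨mis_ex hc.mis, fun h0 => ?_, fun h0 => ?_⟩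
  · rw [rf_congr (fun s hs => ex_of hs) (by omega)]
    exact hc.l h0
  · rw [rf_congr (fun s hs => ex_of hs) h0]
    exact hc.r h0

/-- (G3) two chords in a room cross iff they interleave -/
theorem nch_x (h : Room T w p A B) {i j x y : ℕ} (h1 : NCh T w p A B i j) (h2 : NCh T w p A B x y) :
    T.X (w i) (w j) (w x) (w y) = true ↔ (i < x ∧ x < j ∧ j < y) ∨ (x < i ∧ i < y ∧ y < j) := by
  have he := ext_of h
  obtain ⟨m1, l1, r1⟩ := h1.ex' h
  obtain ⟨m2, l2, r2⟩ := h2.ex' h
  have a1 := h1.lt
  have a2 := h1.le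
  have b1 := h2.lt
  have b2 := h2.le
  have ei : ex w p A i = w i := ex_of (by omega)
  have ej : ex w p A j = w j := ex_of (by omega)
  have exx : ex w p A x = w x := ex_of (by omega)
  have ey : ex w p A y = w y := ex_of (by omega)
  rw [← ei, ← ej, ← exx, ← ey]
  constructor
  · intro hX
    by_contra hn
    have hne := T.ne _ _ _ _ hX
    have q1 : i ≠ x := fun e => hne.2.2.1 (by rw [e])
    have q2 : i ≠ y := fun e => hne.2.2.2.1 (by rw [e])
    have q3 : j ≠ x := fun e => hne.2.2.2.2.1 (by rw [e])
    have q4 : j ≠ y := fun e => hne.2.2.2.2.2 (by rw [e])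
    rcases Nat.lt_or_ge i x with c1 | c1
    · rcases Nat.lt_or_ge j x with c2 | c2
      · have := e_out he a1 c2 b1 b2 m1 m2
        rw [this] at hX
        cases hX
      · have c3 : y < j := by omega
        have := e_in he c1 b1 c3 a2 m1 m2 (by rw [l2 (by omega), r2 (by omega)])
        rw [this] at hX
        cases hX
    · rcases Nat.lt_or_ge y i with c2 | c2
      · have := e_out he b1 c2 a1 a2 m2 m1
        rw [T.xs4, this] at hX
        cases hX
      · have c3 : j < y := by omega
        have := e_in he (by omega : x < i) a1 c3 b2 m2 m1 (by rw [l1 (by omega), r1 (by omega)])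
        rw [T.xs4, this] at hX
        cases hX
  · rintro (⟨c1, c2, c3⟩ | ⟨c1, c2, c3⟩)
    · exact e_x he c1 c2 c3 b2 m1 m2 (r1 (by omega)) (l2 (by omega))
    · rw [T.xs4]
      exact e_x he c1 c2 c3 a2 m2 m1 (r2 (by omega)) (l1 (by omega))

end H36L
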