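import Pool.Agent.Lib.H36L.NC
import Pool.Agent.Lib.H36L.SPf
import Pool.Agent.Lib.H30P.E

/-!
# H36L, file NK: rooms and the polygons on consecutive vertices

`w (p + 1) = A`, so that `d = (w p)(w (p + 1))` is the last edge of the path. For `x + m ≤ p + 1`, `2 ≤ m`:
`sub w x (m + 1)` is the closed sequence `w x, .., w (x + m)`; `E2` its edges. Between the side `rf` (room) and the
side `pfl` (polygon) at `w t`, `x < t < x + m`, the difference is the constant `DD t = rs (w t) + pc E2 (w t) B`.
-/

set_option autoImplicit false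
set_option linter.unusedSectionVars false
set_option linter.unusedVariables false

namespace H36L

open H53P H30P H10S Finset

variable {V : Type*} [DecidableEq V] {T : Table V} {w : ℕ → V} {p : ℕ} {A B : V}

theorem al1 (T : Table V) (u a b c d : V) : al T u a b c d = al T u b a c d := by
  unfold al
  rw [T.as1]

theorem al2 (T : Table V) (u a b c d : V) : al T u a b c d = al T u a b d c := by
  unfold al
  rw [T.as2]

theorem al4 (T : Table V) (u a b c d : V) : al T u a b c d = al T u c d a b := by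
  unfold al
  rw [T.as4]

theorem al_same (T : Table V) (u a c d : V) : al T u a a c d = 0 := by
  rw [al4, al_self]

theorem xa1 (T : Table V) (a b d : V) : T.X a b a d = false := by
  cases h : T.X a b a d with
  | false => rfl
  | true => exact absurd rfl (T.ne _ _ _ _ h).2.2.1

theorem xa2 (T : Table V) (a b d : V) : T.X a b d a = false := by
  rw [T.xs2, xa1]

theorem xa3 (T : Table V) (a b d : V) : T.X a b b d = false := by
  rw [T.xs1, xa1]

theorem xa4 (T : Table V) (a b d : V) : T.X a b d b = false := by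
  rw [T.xs1, xa2]

/-- exactly one of three pairings alternates -/
theorem al_ex {u a b y z : V} (au : a ≠ u) (bu : b ≠ u) (yu : y ≠ u) (zu : z ≠ u) (ab : a ≠ b) (ay : a ≠ y)
    (az : a ≠ z) (by_ : b ≠ y) (bz : b ≠ z) (yz : y ≠ z) (h : al T u a b y z = 1) : al T u a y b z = 0 := by
  have h1 := (T.rot3 au bu yu zu ab ay az by_ bz yz).2
  unfold al at h ⊢
  have h2 : T.alt u a b y z = true := by
    cases h3 : T.alt u a b y z with
    | true => rfl
    | false => rw [h3] at h; exact absurd h (by decide)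
  change (!(T.alt u a b y z && T.alt u a y b z)) = true at h1
  rw [h2] at h1
  cases h3 : T.alt u a y b z with
  | false => rfl
  | true => rw [h3] at h1; exact absurd h1 (by decide)

/-- (DL) two closed sets with a common edge -/
theorem dl {E1 E2 : Finset (Sym2 V)} (h1 : Clo E1) (h2 : Clo E2) {x y w a1 b1 a2 b2 : V}
    (x1 : Nb E1 x y a1) (y1 : Nb E1 y b1 x) (x2 : Nb E2 x y a2) (y2 : Nb E2 y b2 x) (xy : x ≠ y)
    (o1 : Off E1 w) (o2 : Off E2 w) (l1 : Lpl E1) (l2 : Lpl E2) :
    pc T E1 x w + pc T E2 x w + (pc T E1 y w + pc T E2 y w) =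
      pc T E1 x y + pc T E2 x y + al T x a1 a2 y w + al T y b1 b2 x w := by
  have key : ∀ {E : Finset (Sym2 V)} {a b : V}, Nb E x y a → Nb E y b x → Off E w → Lpl E →
      x ≠ w ∧ y ≠ w ∧ a ≠ x ∧ b ≠ y ∧ a ≠ y ∧ b ≠ x ∧ a ≠ w ∧ b ≠ w := by
    intro E a b hx hy hw hl
    refine ⟨fun h => hw y (h ▸ hx.m1), fun h => hw b (h ▸ hy.m1), fun h => hl x (by have := hx.m2; rwa [h] at this),
      fun h => hl y (by have := hy.m1; rwa [h] at this), hx.ne.symm, hy.ne,
      fun h => hw x (by rw [Sym2.eq_swap]; exact h ▸ hx.m2), fun h => hw y (by rw [Sym2.eq_swap]; exact h ▸ hy.m1)⟩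
  obtain ⟨xw, yw, a1x, b1y, a1y, b1x, a1w, b1w⟩ := key x1 y1 o1 l1
  obtain ⟨-, -, a2x, b2y, a2y, b2x, a2w, b2w⟩ := key x2 y2 o2 l2
  have e1 := pc_adj h1 x1 y1 xy o1 l1 (T := T)
  have e2 := pc_adj h2 x2 y2 xy o2 l2 (T := T)
  have t1 := tt_tri T xy yw xw.symm b1x b1y b1w a1x a1y a1w a2x a2y a2w
  have t2 := tt_tri T xy yw xw.symm b2x b2y b2w b1x b1y b1w a2x a2y a2w
  rw [al_eq, al_eq, tt_swap T y x w, tt_symm T x y w b1 b2, x4_1 T y w x a1, x4_1 T y w x a2]
  rw [pc_symm T E1 w y] at e1
  rw [pc_symm T E2 w y] at e2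
  linear_combination (norm := (ring_nf; reduce_mod_char)) e1 + e2 + t1 + t2

/-- `w 0, .., w p` is the path of the room, `w (p + 1) = A` -/
structure Ext (T : Table V) (w : ℕ → V) (p : ℕ) (A B : V) : Prop where
  room : Room T w p A B
  top : w (p + 1) = A

theorem sub_of {x m k : ℕ} (h : k ≤ m) : sub w x (m + 1) k = w (x + k) := by
  unfold sub
  rw [Nat.mod_eq_of_lt (by omega)]

theorem sub_top {x m : ℕ} : sub w x (m + 1) (m + 1) = w x := by
  unfold sub
  rw [Nat.mod_self, Nat.add_zero]

theorem sub_pe {x m k : ℕ} : sub w x (m + 1) (k + (m + 1)) = sub w x (m + 1) k := by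
  unfold sub
  rw [Nat.add_mod_right]

namespace Ext

variable (h : Ext T w p A B)

include h

theorem neB {i : ℕ} (hi : i ≤ p + 1) : w i ≠ B := by
  by_cases h1 : i ≤ p
  · exact h.room.offB i h1
  · rw [show i = p + 1 by omega, h.top]
    exact (T.ne _ _ _ _ h.room.crs).2.2.2.2.2.symm

theorem inj {i j : ℕ} (hi : i ≤ p + 1) (hj : j ≤ p + 1) (hij : w i = w j) : i = j := by
  by_cases h1 : i ≤ p
  · by_cases h2 : j ≤ p
    · exact h.room.inj i h1 j h2 hij
    · rw [show j = p + 1 by omega, h.top] at hij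
      exact absurd hij (h.room.offA i h1)
  · by_cases h2 : j ≤ p
    · rw [show i = p + 1 by omega, h.top] at hij
      exact absurd hij.symm (h.room.offA j h2)
    · omega

theorem ne {i j : ℕ} (hi : i ≤ p + 1) (hj : j ≤ p + 1) (hij : i ≠ j) : w i ≠ w j := fun e => hij (h.inj hi hj e)

/-- the long path is plane -/
theorem pl {i j : ℕ} (hi : i ≤ p) (hj : j ≤ p) : T.X (w i) (w (i + 1)) (w j) (w (j + 1)) = false := by
  by_cases h1 : i = p
  · by_cases h2 : j = p
    · rw [h1, h2]
      exact xa1 T _ _ _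
    · rw [h1, h.top]
      exact h.room.und j (by omega)
  · by_cases h2 : j = p
    · rw [h2, h.top, T.xs4]
      exact h.room.und i (by omega)
    · exact h.room.plane i (by omega) j (by omega)

/-- `c` crosses only the last edge -/
theorem cc {t : ℕ} (ht : t < p) : T.X (w 0) B (w t) (w (t + 1)) = false := h.room.unc t ht

theorem per {x m : ℕ} (h1 : 2 ≤ m) (h2 : x + m ≤ p + 1) : Per (sub w x (m + 1)) (m + 1) where
  three := by omega
  per k := sub_pe
  inj i hi j hj hij := by
    rw [sub_of (by omega), sub_of (by omega)] at hij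
    have := h.inj (by omega) (by omega) hij
    omega

theorem offB' {x m : ℕ} (h2 : x + m ≤ p + 1) (k : ℕ) : sub w x (m + 1) k ≠ B := by
  unfold sub
  have := Nat.mod_lt k (by omega : 0 < m + 1)
  exact h.neB (by omega)

theorem off' {x m y : ℕ} (h2 : x + m ≤ p + 1) (hy : y ≤ p + 1) (h3 : y < x ∨ x + m < y) (k : ℕ) :
    sub w x (m + 1) k ≠ w y := by
  unfold sub
  have := Nat.mod_lt k (by omega : 0 < m + 1)
  exact h.ne (by omega) hy (by omega)

end Ext

/-- crossings with the polygon -/
theorem unc_of {x m : ℕ} {u v : V} (h1 : ∀ t, x ≤ t → t < x + m → T.X u v (w t) (w (t + 1)) = false)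
    (h2 : T.X u v (w (x + m)) (w x) = false) : Unc T (sub w x (m + 1)) u v := by
  intro k
  have hk := Nat.mod_lt k (by omega : 0 < m + 1)
  have e1 : sub w x (m + 1) k = w (x + k % (m + 1)) := rfl
  by_cases h3 : k % (m + 1) = m
  · have e2 : sub w x (m + 1) (k + 1) = w x := by
      unfold sub
      rw [← Nat.mod_add_mod, h3, Nat.mod_self, Nat.add_zero]
    rw [e1, e2, h3]
    exact h2
  · have e2 : sub w x (m + 1) (k + 1) = w (x + k % (m + 1) + 1) := by
      unfold sub
      rw [← Nat.mod_add_mod, Nat.mod_eq_of_lt (by omega : k % (m + 1) + 1 < m + 1)]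
      rfl
    rw [e1, e2]
    exact h1 _ (by omega) (by omega)

theorem of_unc {x m : ℕ} {u v : V} (hu : Unc T (sub w x (m + 1)) u v) :
    (∀ t, x ≤ t → t < x + m → T.X u v (w t) (w (t + 1)) = false) ∧ T.X u v (w (x + m)) (w x) = false := by
  refine ⟨fun t h1 h2 => ?_, ?_⟩
  · have := hu (t - x)
    rw [sub_of (by omega), sub_of (by omega), show x + (t - x) = t by omega,
      show x + (t - x + 1) = t + 1 by omega] at this
    exact this
  · have := hu m
    rw [sub_of le_rfl, sub_top] at this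
    exact this

end H36L
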