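import Pool.Agent.Lib.H36L.NK2

/-!
# H36L, file NR: the reversed room, change of the sequence beyond `p`
-/

set_option autoImplicit false
set_option linter.unusedSectionVars false
set_option linter.unusedVariables false

namespace H36L

open H53P H30P H10S Finset

variable {V : Type*} [DecidableEq V] {T : Table V} {w : ℕ → V} {p : ℕ} {A B : V}

/-- the reversed sequence -/
def rv' (w : ℕ → V) (p : ℕ) : ℕ → V := fun t => w (p - t)

theorem asum_rev (x y : V) : asum T (rv' w p) x y 0 p = asum T w x y 0 p := by
  unfold asum rv'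
  rw [← range_eq_Ico, ← Finset.sum_range_reflect]
  apply sum_congr rfl
  intro t ht
  rw [mem_range] at ht
  rw [show p - (p - 1 - t) = t + 1 by omega, show p - (p - 1 - t + 1) = t by omega, x4_2]

/-- (T3) -/
theorem rev_room (h : Room T w p A B) : Room T (rv' w p) p B A where
  two := h.two
  inj i hi j hj hij := by
    have := h.inj (p - i) (by omega) (p - j) (by omega) hij
    omega
  offA i hi := h.offB _ (by omega)
  offB i hi := h.offA _ (by omega)
  plane i hi j hj := by
    unfold rv'
    have := h.plane (p - (i + 1)) (by omega) (p - (j + 1)) (by omega)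
    rw [show p - (i + 1) + 1 = p - i by omega, show p - (j + 1) + 1 = p - j by omega] at this
    rw [T.xs3]
    exact this
  crs := by
    unfold rv'
    rw [Nat.sub_zero, Nat.sub_self, T.xs4]
    exact h.crs
  unc i hi := by
    unfold rv'
    have := h.und (p - (i + 1)) (by omega)
    rw [show p - (i + 1) + 1 = p - i by omega] at this
    rw [Nat.sub_zero, T.xs2]
    exact this
  und i hi := by
    unfold rv'
    have := h.unc (p - (i + 1)) (by omega)
    rw [show p - (i + 1) + 1 = p - i by omega] at this
    rw [Nat.sub_self, T.xs2]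
    exact this

theorem rv_at {i : ℕ} (hi : i ≤ p) : rv' w p (p - i) = w i := by
  unfold rv'
  rw [show p - (p - i) = i by omega]

/-- (T3) the start sides agree -/
theorem rev_rf (h : Room T w p A B) {i : ℕ} (i0 : 0 < i) (ip : i < p) {z : V} (zi : z ≠ w i)
    (z1 : z ≠ w (i + 1)) (z2' : z ≠ w (i - 1)) :
    rf T (rv' w p) p B A (p - i) z = rf T w p A B i z := by
  have hr := rev_room h
  have e1 := h.rf_add i0 ip zi z1 z2' (h.offA i (by omega)).symm (h.offA _ (by omega)).symm
    (h.offA _ (by omega)).symm
  have f0 : rv' w p (p - i) = w i := rv_at (by omega)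
  have f1 : rv' w p (p - i + 1) = w (i - 1) := by unfold rv'; congr 1; omega
  have f2 : rv' w p (p - i - 1) = w (i + 1) := by unfold rv'; congr 1; omega
  have e2 := hr.rf_add (i := p - i) (y := z) (z := A) (by omega) (by omega) (by rw [f0]; exact zi)
    (by rw [f1]; exact z2') (by rw [f2]; exact z1) (by rw [f0]; exact (h.offA i (by omega)).symm)
    (by rw [f1]; exact (h.offA _ (by omega)).symm) (by rw [f2]; exact (h.offA _ (by omega)).symm)
  have e3 := h.rf_A i0 ip
  have e4 := hr.rf_B (i := p - i) (by omega) (by omega)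
  rw [f0, f1, f2] at e2
  rw [f0, asum_rev] at e4
  have f3 : rv' w p p = w 0 := by unfold rv'; rw [Nat.sub_self]
  have f4 : rv' w p 0 = w p := by unfold rv'; rw [Nat.sub_zero]
  rw [f3, f4, inn_swap T (w 0) B (w p) A (w i), x4_2 T (w i) A (w 0) (w p)] at e4
  rw [al1] at e2
  linear_combination e2 - e1 + e3 - e4

/-! ## the sequence beyond `p` -/

theorem re_congr {w' : ℕ → V} (hw : ∀ t ≤ p, w' t = w t) : re w' p = re w p := by
  unfold re
  rw [hw p le_rfl, hw 0 (by omega)]
  congr 1
  apply image_congr
  intro k hk
  rw [mem_coe, mem_range] at hk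
  show s(w' k, w' (k + 1)) = s(w k, w (k + 1))
  rw [hw k (by omega), hw (k + 1) (by omega)]

theorem room_congr {w' : ℕ → V} (hw : ∀ t ≤ p, w' t = w t) (h : Room T w p A B) : Room T w' p A B where
  two := h.two
  inj i hi j hj hij := by
    rw [hw i hi, hw j hj] at hij
    exact h.inj i hi j hj hij
  offA i hi := by rw [hw i hi]; exact h.offA i hi
  offB i hi := by rw [hw i hi]; exact h.offB i hi
  plane i hi j hj := by
    rw [hw i (by omega), hw (i + 1) (by omega), hw j (by omega), hw (j + 1) (by omega)]
    exact h.plane i hi j hj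
  crs := by rw [hw 0 (by omega), hw p le_rfl]; exact h.crs
  unc i hi := by rw [hw 0 (by omega), hw i (by omega), hw (i + 1) (by omega)]; exact h.unc i hi
  und i hi := by rw [hw p le_rfl, hw i (by omega), hw (i + 1) (by omega)]; exact h.und i hi

theorem rs_congr {w' : ℕ → V} (hw : ∀ t ≤ p, w' t = w t) (y : V) : rs T w' p A B y = rs T w p A B y := by
  unfold rs
  rw [re_congr hw, hw 0 (by omega), hw p le_rfl]

theorem rf_congr {w' : ℕ → V} (hw : ∀ t ≤ p, w' t = w t) {i : ℕ} (hi : i < p) (z : V) :
    rf T w' p A B i z = rf T w p A B i z := by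
  unfold rf
  rw [rs_congr hw, hw i (by omega), hw (i + 1) (by omega), hw (i - 1) (by omega)]

/-- the sequence with `A` at `p + 1` -/
def ex (w : ℕ → V) (p : ℕ) (A : V) : ℕ → V := fun t => if t ≤ p then w t else A

theorem ex_of {t : ℕ} (h : t ≤ p) : ex w p A t = w t := if_pos h

theorem ex_top : ex w p A (p + 1) = A := if_neg (by omega)

theorem ext_of (h : Room T w p A B) : Ext T (ex w p A) p A B where
  room := room_congr (fun t ht => ex_of ht) h
  top := ex_top

end H36L
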